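import Pool.Agent.HB.Surf

/-!
# HB-A-Alg: algebra structures on the rings attached to a surface (complete)
-/

set_option autoImplicit false

open IsLocalRing

namespace HB

universe u

namespace Surf

variable {k L : Type u} [Field k] [Field L] [Algebra k L] (S : Surf k L)

theorem one_mem_V : (1 : L) ∈ S.V := Submodule.subset_span (by simp)

theorem s_mem_V : S.s ∈ S.V := Submodule.subset_span (by simp)

theorem t_mem_V : S.t ∈ S.V := Submodule.subset_span (by simp)

theorem mem_V {x : L} : x ∈ S.V ↔ ∃ a b c : k, x = a • (1 : L) + b • S.s + c • S.t := by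
  unfold V
  rw [Submodule.mem_span_triple]
  constructor
  · rintro ⟨a, b, c, h⟩
    exact ⟨a, b, c, h.symm⟩
  · rintro ⟨a, b, c, h⟩
    exact ⟨a, b, c, h.symm⟩

theorem algebraMap_mem_base (l : L) (c : k) : algebraMap k L c ∈ S.base l :=
  Subalgebra.algebraMap_mem _ c

theorem div_mem_base {l m : L} (hm : m ∈ S.V) : m / l ∈ S.base l :=
  Algebra.subset_adjoin ⟨m, hm, rfl⟩

theorem mem_chart {l x : L} : x ∈ S.chart l ↔ IsIntegral (S.base l) x := Iff.rfl

theorem base_le_chart (l : L) : S.base l ≤ S.chart l := by
  intro x hx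
  exact isIntegral_algebraMap (R := S.base l) (x := ⟨x, hx⟩)

theorem algebraMap_mem_chart (l : L) (c : k) : algebraMap k L c ∈ S.chart l :=
  S.base_le_chart l (S.algebraMap_mem_base l c)

theorem div_mem_chart {l m : L} (hm : m ∈ S.V) : m / l ∈ S.chart l :=
  S.base_le_chart l (S.div_mem_base hm)

noncomputable instance instAlgBase (l : L) : Algebra k (S.base l) :=
  ((algebraMap k L).codRestrict (S.base l) (S.algebraMap_mem_base l)).toAlgebra

instance (l : L) : IsScalarTower k (S.base l) L := .of_algebraMap_eq (fun _ => rfl)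

noncomputable instance instAlgChart (l : L) : Algebra k (S.chart l) :=
  ((algebraMap k L).codRestrict (S.chart l) (S.algebraMap_mem_chart l)).toAlgebra

instance (l : L) : IsScalarTower k (S.chart l) L := .of_algebraMap_eq (fun _ => rfl)

noncomputable instance instAlgBC (l : L) : Algebra (S.base l) (S.chart l) :=
  (Subring.inclusion (S.base_le_chart l)).toAlgebra

instance (l : L) : IsScalarTower (S.base l) (S.chart l) L := .of_algebraMap_eq (fun _ => rfl)

instance (l : L) : IsScalarTower k (S.base l) (S.chart l) := .of_algebraMap_eq (fun _ => rfl)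

variable {S}

theorem Pt.algebraMap_mem (P : S.Pt) (c : k) : algebraMap k L c ∈ P.1.toSubring := by
  obtain ⟨l, hl, h0, p, hp, hm, e⟩ := P.2
  rw [e]
  exact LocalSubring.le_ofPrime _ _ (S.algebraMap_mem_chart l c)

theorem PD.algebraMap_mem (C : S.PD) (c : k) : algebraMap k L c ∈ C.1.toSubring := by
  obtain ⟨l, hl, h0, p, hp, hm, e⟩ := C.2
  rw [e]
  exact LocalSubring.le_ofPrime _ _ (S.algebraMap_mem_chart l c)

noncomputable instance instAlgPt (P : S.Pt) : Algebra k P.1.toSubring :=
  ((algebraMap k L).codRestrict P.1.toSubring P.algebraMap_mem).toAlgebra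

instance (P : S.Pt) : IsScalarTower k P.1.toSubring L := .of_algebraMap_eq (fun _ => rfl)

noncomputable instance instAlgPD (C : S.PD) : Algebra k C.1.toSubring :=
  ((algebraMap k L).codRestrict C.1.toSubring C.algebraMap_mem).toAlgebra

instance (C : S.PD) : IsScalarTower k C.1.toSubring L := .of_algebraMap_eq (fun _ => rfl)



end Surf

end HB
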