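import Pool.Agent.HB.A.Alg

/-!
# HB-A-BaseA: bases of `V`, the ring `k[V/l]`

Plan.
* `exists_basis_V`.  (i) `LinearIndependent k ![1, s, t]` from `S.indep` (a linear relation is a
  polynomial relation of `MvPolynomial (Fin 2) k`).  Not even needed if one argues as follows:
  write `l = a + b s + c t` (`S.mem_V`), not all of `a, b, c` are zero.  If `c <> 0` take
  `m = 1, n = s`; if `c = 0, b <> 0` take `m = 1, n = t`; else (`a <> 0`) take `m = s, n = t`.
  (ii) algebraic independence of `m/l, n/l`: let `F = IntermediateField.adjoin k {m/l, n/l}`.  Every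
  `x` of `V` is `a l + b m + c n`, so `x/l` is in `F`; `1/l` is in `F`, hence `s, t` are in `F`.
  `![s, t]` is a transcendence basis of `L/k` (`S.indep`, and `L` is algebraic over `k(s,t)`), so
  every transcendence basis has two elements; `L` is algebraic over `F`, so a subset of
  `{m/l, n/l}` is a transcendence basis (`exists_isTranscendenceBasis_between` or similar), by the
  cardinality (`IsTranscendenceBasis.cardinalMk_eq`..., `Algebra.trdeg`) it is everything and
  `m/l <> n/l`.
* `base_eq`: `Algebra.adjoin_le` in both directions, elements of the span by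
  `Submodule.mem_span_triple`.
* `fin_base`: `F = IntermediateField.adjoin k {s, t}`, `S.fin`; `F = adjoin k {m/l, n/l}` as above,
  and `IntermediateField.mem_adjoin_iff_div` (quotients of elements of `Algebra.adjoin`).
* `alg_base`: from `fin_base` (clear denominators; or `IsFractionRing`/`isAlgebraic_iff`).
-/

set_option autoImplicit false

open IsLocalRing
open scoped IntermediateField.algebraAdjoinAdjoin

namespace HB

universe u

namespace Surf

variable {k L : Type u} [Field k] [Field L] [Algebra k L] (S : Surf k L)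

/-- the generators of `k[V/l]` -/
private def gens (l : L) : Set L := {x : L | ∃ m ∈ S.V, x = m / l}

private theorem V_le_adjoin {x : L} (hx : x ∈ S.V) :
    x ∈ IntermediateField.adjoin k ({S.s, S.t} : Set L) := by
  obtain ⟨a, b, c, rfl⟩ := S.mem_V.1 hx
  have hs : S.s ∈ IntermediateField.adjoin k ({S.s, S.t} : Set L) :=
    IntermediateField.subset_adjoin _ _ (by simp)
  have ht : S.t ∈ IntermediateField.adjoin k ({S.s, S.t} : Set L) :=
    IntermediateField.subset_adjoin _ _ (by simp)
  refine add_mem (add_mem ?_ ?_) ?_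
  · exact IntermediateField.smul_mem _ (one_mem _)
  · exact IntermediateField.smul_mem _ hs
  · exact IntermediateField.smul_mem _ ht

private theorem adjoin_gens {l : L} (hl : l ∈ S.V) (h0 : l ≠ 0) {T : Set L} (hT : T ⊆ S.gens l)
    (h1 : 1 / l ∈ IntermediateField.adjoin k T) (h2 : S.s / l ∈ IntermediateField.adjoin k T)
    (h3 : S.t / l ∈ IntermediateField.adjoin k T) :
    IntermediateField.adjoin k T = IntermediateField.adjoin k ({S.s, S.t} : Set L) := by
  apply le_antisymm
  · rw [IntermediateField.adjoin_le_iff]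
    intro x hx
    obtain ⟨m, hm, rfl⟩ := hT hx
    exact div_mem (S.V_le_adjoin hm) (S.V_le_adjoin hl)
  · rw [IntermediateField.adjoin_le_iff]
    have e : ∀ y : L, y = (y / l) / (1 / l) := fun y => by field_simp
    rintro x (rfl | hx)
    · rw [SetLike.mem_coe, e S.s]
      exact div_mem h2 h1
    · rw [Set.mem_singleton_iff] at hx
      subst hx
      rw [SetLike.mem_coe, e S.t]
      exact div_mem h3 h1

omit [Field k] [Field L] [Algebra k L] in
private theorem range2 (x y : L) : Set.range ![x, y] = {x, y} := by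
  rw [Matrix.range_cons, Matrix.range_cons, Matrix.range_empty, Set.union_empty]
  rfl

include S in
private theorem trdeg_two : Cardinal.lift.{0} (Algebra.trdeg k L) = 2 := by
  have := S.fin
  have hr : Set.range ![S.s, S.t] = {S.s, S.t} := range2 _ _
  have h1 : Algebra.IsAlgebraic (Algebra.adjoin k ({S.s, S.t} : Set L)) L :=
    Algebra.IsAlgebraic.trans (Algebra.adjoin k ({S.s, S.t} : Set L))
      (IntermediateField.adjoin k ({S.s, S.t} : Set L)) L
  have h2 : IsTranscendenceBasis k ![S.s, S.t] := by
    rw [isTranscendenceBasis_iff_algebraicIndependent_isAlgebraic]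
    refine ⟨S.indep, ?_⟩
    rw [hr]
    exact h1
  have h3 := h2.lift_cardinalMk_eq_trdeg
  simpa using h3.symm

private theorem indep_of {l m n : L} (hl : l ∈ S.V) (h0 : l ≠ 0) (hm : m ∈ S.V) (hn : n ∈ S.V)
    (h : S.V = Submodule.span k {l, m, n}) : AlgebraicIndependent k ![m / l, n / l] := by
  have hr : Set.range ![m / l, n / l] = {m / l, n / l} := range2 _ _
  have hV : ∀ x ∈ S.V, x / l ∈ IntermediateField.adjoin k ({m / l, n / l} : Set L) := by
    intro x hx
    rw [h, Submodule.mem_span_triple] at hx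
    obtain ⟨a, b, c, rfl⟩ := hx
    have h1 : m / l ∈ IntermediateField.adjoin k ({m / l, n / l} : Set L) :=
      IntermediateField.subset_adjoin _ _ (by simp)
    have h2 : n / l ∈ IntermediateField.adjoin k ({m / l, n / l} : Set L) :=
      IntermediateField.subset_adjoin _ _ (by simp)
    have e : (a • l + b • m + c • n) / l = a • (1 : L) + b • (m / l) + c • (n / l) := by
      rw [add_div, add_div, ← smul_div_assoc, ← smul_div_assoc]
      congr 2
      rw [smul_div_assoc, div_self h0]
    rw [e]
    refine add_mem (add_mem ?_ ?_) ?_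
    · exact IntermediateField.smul_mem _ (one_mem _)
    · exact IntermediateField.smul_mem _ h1
    · exact IntermediateField.smul_mem _ h2
  have hadj := S.adjoin_gens hl h0 (T := {m / l, n / l}) (by
    rintro x (rfl | hx)
    · exact ⟨m, hm, rfl⟩
    · rw [Set.mem_singleton_iff] at hx
      exact ⟨n, hn, hx⟩) (hV 1 S.one_mem_V) (hV _ S.s_mem_V) (hV _ S.t_mem_V)
  have hfin : FiniteDimensional (IntermediateField.adjoin k ({m / l, n / l} : Set L)) L := by
    rw [hadj]
    exact S.fin
  have h1 : Algebra.IsAlgebraic (Algebra.adjoin k (Set.range ![m / l, n / l])) L := by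
    rw [hr]
    exact Algebra.IsAlgebraic.trans (Algebra.adjoin k ({m / l, n / l} : Set L))
      (IntermediateField.adjoin k ({m / l, n / l} : Set L)) L
  refine (Algebra.IsAlgebraic.isTranscendenceBasis_of_lift_le_trdeg_of_finite k
    ![m / l, n / l] ?_).1
  rw [S.trdeg_two]
  simp

theorem exists_basis_V {l : L} (hl : l ∈ S.V) (h0 : l ≠ 0) :
    ∃ m ∈ S.V, ∃ n ∈ S.V, S.V = Submodule.span k {l, m, n} ∧
      AlgebraicIndependent k ![m / l, n / l] := by
  suffices h : ∃ m ∈ S.V, ∃ n ∈ S.V, S.V = Submodule.span k {l, m, n} by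
    obtain ⟨m, hm, n, hn, h⟩ := h
    exact ⟨m, hm, n, hn, h, S.indep_of hl h0 hm hn h⟩
  obtain ⟨a, b, c, e⟩ := S.mem_V.1 hl
  have key : ∀ m n : L, m ∈ S.V → n ∈ S.V → (1 : L) ∈ Submodule.span k {l, m, n} →
      S.s ∈ Submodule.span k {l, m, n} → S.t ∈ Submodule.span k {l, m, n} →
      S.V = Submodule.span k {l, m, n} := by
    intro m n hm hn h1 h2 h3
    apply le_antisymm
    · unfold V
      rw [Submodule.span_le]
      rintro x (rfl | rfl | hx)
      · exact h1
      · exact h2
      · rw [Set.mem_singleton_iff] at hx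
        subst hx
        exact h3
    · rw [Submodule.span_le]
      rintro x (rfl | rfl | hx)
      · exact hl
      · exact hm
      · rw [Set.mem_singleton_iff] at hx
        subst hx
        exact hn
  have mem0 : ∀ m n : L, l ∈ Submodule.span k ({l, m, n} : Set L) := fun m n =>
    Submodule.subset_span (by simp)
  have mem1 : ∀ m n : L, m ∈ Submodule.span k ({l, m, n} : Set L) := fun m n =>
    Submodule.subset_span (by simp)
  have mem2 : ∀ m n : L, n ∈ Submodule.span k ({l, m, n} : Set L) := fun m n =>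
    Submodule.subset_span (by simp)
  by_cases hc : c = 0
  · by_cases hb : b = 0
    · -- `l = a`
      have ha : a ≠ 0 := by
        rintro rfl
        apply h0
        rw [e, hb, hc]
        simp
      refine ⟨S.s, S.s_mem_V, S.t, S.t_mem_V, key _ _ S.s_mem_V S.t_mem_V ?_ (mem1 _ _) (mem2 _ _)⟩
      have e1 : (1 : L) = a⁻¹ • l := by
        rw [e, hb, hc, zero_smul, zero_smul, add_zero, add_zero, smul_smul, inv_mul_cancel₀ ha,
          one_smul]
      rw [e1]
      exact Submodule.smul_mem _ _ (mem0 _ _)
    · refine ⟨1, S.one_mem_V, S.t, S.t_mem_V, key _ _ S.one_mem_V S.t_mem_V (mem1 _ _) ?_ (mem2 _ _)⟩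
      have e1 : S.s = b⁻¹ • (l - a • (1 : L)) := by
        rw [e, hc, zero_smul, add_zero, add_sub_cancel_left, smul_smul, inv_mul_cancel₀ hb,
          one_smul]
      rw [e1]
      exact Submodule.smul_mem _ _ (Submodule.sub_mem _ (mem0 _ _) (Submodule.smul_mem _ _ (mem1 _ _)))
  · refine ⟨1, S.one_mem_V, S.s, S.s_mem_V, key _ _ S.one_mem_V S.s_mem_V (mem1 _ _) (mem2 _ _) ?_⟩
    have e1 : S.t = c⁻¹ • (l - (a • (1 : L) + b • S.s)) := by
      rw [e, add_sub_cancel_left, smul_smul, inv_mul_cancel₀ hc, one_smul]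
    rw [e1]
    exact Submodule.smul_mem _ _ (Submodule.sub_mem _ (mem0 _ _)
      (Submodule.add_mem _ (Submodule.smul_mem _ _ (mem1 _ _)) (Submodule.smul_mem _ _ (mem2 _ _))))

theorem base_eq {l m n : L} (h0 : l ≠ 0) (h : S.V = Submodule.span k {l, m, n}) :
    S.base l = (Algebra.adjoin k {m / l, n / l}).toSubring := by
  unfold base
  congr 1
  apply le_antisymm
  · rw [Algebra.adjoin_le_iff]
    rintro x ⟨y, hy, rfl⟩
    rw [h, Submodule.mem_span_triple] at hy
    obtain ⟨a, b, c, rfl⟩ := hy
    have h1 : m / l ∈ Algebra.adjoin k ({m / l, n / l} : Set L) :=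
      Algebra.subset_adjoin (by simp)
    have h2 : n / l ∈ Algebra.adjoin k ({m / l, n / l} : Set L) :=
      Algebra.subset_adjoin (by simp)
    have e : (a • l + b • m + c • n) / l = a • (1 : L) + b • (m / l) + c • (n / l) := by
      rw [add_div, add_div, ← smul_div_assoc, ← smul_div_assoc]
      congr 2
      rw [smul_div_assoc, div_self h0]
    rw [e, SetLike.mem_coe]
    exact add_mem (add_mem (Subalgebra.smul_mem _ (one_mem _) _) (Subalgebra.smul_mem _ h1 _))
      (Subalgebra.smul_mem _ h2 _)
  · rw [Algebra.adjoin_le_iff]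
    have hm : m ∈ S.V := by
      rw [h]
      exact Submodule.subset_span (by simp)
    have hn : n ∈ S.V := by
      rw [h]
      exact Submodule.subset_span (by simp)
    rintro x (rfl | hx)
    · exact Algebra.subset_adjoin ⟨m, hm, rfl⟩
    · rw [Set.mem_singleton_iff] at hx
      subst hx
      exact Algebra.subset_adjoin ⟨n, hn, rfl⟩

private theorem fin_gens {l : L} (hl : l ∈ S.V) (h0 : l ≠ 0) :
    FiniteDimensional (IntermediateField.adjoin k (S.gens l)) L := by
  have hV : ∀ x ∈ S.V, x / l ∈ IntermediateField.adjoin k (S.gens l) := fun x hx =>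
    IntermediateField.subset_adjoin _ _ ⟨x, hx, rfl⟩
  rw [S.adjoin_gens hl h0 (T := S.gens l) subset_rfl (hV 1 S.one_mem_V) (hV _ S.s_mem_V)
    (hV _ S.t_mem_V)]
  exact S.fin

/-- `L` is finite over the fraction field `k(s,t)` of `k[V/l]`. -/
theorem fin_base {l : L} (hl : l ∈ S.V) (h0 : l ≠ 0) :
    ∃ F : IntermediateField k L, FiniteDimensional F L ∧
      (∀ x : S.base l, (x : L) ∈ F) ∧ ∀ x ∈ F, ∃ a b : S.base l, (b : L) ≠ 0 ∧ x = a / b := by
  refine ⟨IntermediateField.adjoin k (S.gens l), S.fin_gens hl h0, fun x => ?_, fun x hx => ?_⟩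
  · exact IntermediateField.algebra_adjoin_le_adjoin k (S.gens l) x.2
  · obtain ⟨r, hr, s, hs, rfl⟩ := IntermediateField.mem_adjoin_iff_div.1 hx
    by_cases h : s = 0
    · subst h
      exact ⟨0, 1, by simp, by simp⟩
    · exact ⟨⟨r, hr⟩, ⟨s, hs⟩, h, rfl⟩

theorem alg_base {l : L} (hl : l ∈ S.V) (h0 : l ≠ 0) : Algebra.IsAlgebraic (S.base l) L := by
  have := S.fin_gens hl h0
  have h1 : Algebra.IsAlgebraic (Algebra.adjoin k (S.gens l)) L :=
    Algebra.IsAlgebraic.trans (Algebra.adjoin k (S.gens l))
      (IntermediateField.adjoin k (S.gens l)) L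
  exact h1

end Surf

end HB
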