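import Pool.Agent.HB.A.BaseA

/-!
# HB-A-BaseB: `k[V/l]` is a polynomial ring in two variables

Plan.
* `exists_equiv_base`: `exists_basis_V`, `base_eq`, `AlgebraicIndependent.aevalEquiv` and
  `Set.range ![a, b] = {a, b}`; transport along the equality of subrings.
* `noeth_base`, `ufd_base`: transport along the ring isomorphism (`isNoetherianRing_of_ringEquiv`,
  `MulEquiv.uniqueFactorizationMonoid`).
* `ft_base`: the ring is generated by two elements over `k` (or transport along
  `exists_equiv_base` made `k`-linear).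
* `height_base`: transport to a maximal ideal `M` of `MvPolynomial (Fin 2) k` or of `k[X][Y]`
  (`MvPolynomial.finSuccEquiv` or `optionEquivLeft`).  Upper bound: `ringKrullDim` of
  `MvPolynomial (Fin 2) k` is 2 (`MvPolynomial.ringKrullDim_of_isNoetherianRing`).  Exact value: by
  `Polynomial.height_eq_height_add_one` twice (the contraction of a maximal ideal of `A[X]` to a
  Jacobson ring `A` is maximal), or the Nullstellensatz
  (`MvPolynomial.isMaximal_iff_eq_vanishingIdeal_singleton`): `M` is the ideal of a point `a`, and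
  `bot < (X 0 - C (a 0)) < M` is a chain of primes.
-/

set_option autoImplicit false

open IsLocalRing

namespace HB

universe u

open MvPolynomial in
private theorem bb_lower {k : Type u} [Field k] (a : Fin 2 → k) :
    2 ≤ (vanishingIdeal k {a} : Ideal (MvPolynomial (Fin 2) k)).height := by
  obtain ⟨ψ, hψ⟩ : ∃ ψ : MvPolynomial (Fin 2) k →ₐ[k] Polynomial k,
      ψ = MvPolynomial.aeval ![Polynomial.C (a 0), Polynomial.X] := ⟨_, rfl⟩
  have h0 : ψ (X 0) = Polynomial.C (a 0) := by
    rw [hψ, aeval_X]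
    rfl
  have h1 : ψ (X 1) = Polynomial.X := by
    rw [hψ, aeval_X]
    rfl
  have hC : ∀ c : k, ψ (C c) = Polynomial.C c := fun c => ψ.commutes c
  have hQ : (RingHom.ker ψ).IsPrime := RingHom.ker_isPrime ψ
  have hcomp : ∀ p, (Polynomial.aeval (a 1)) (ψ p) = MvPolynomial.aeval a p := by
    intro p
    have h2 : (Polynomial.aeval (R := k) (a 1)).comp ψ = MvPolynomial.aeval a := by
      apply MvPolynomial.algHom_ext
      intro i
      fin_cases i
      · change (Polynomial.aeval (a 1)) (ψ (X 0)) = aeval a (X 0)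
        rw [h0, Polynomial.aeval_C, aeval_X]
        rfl
      · change (Polynomial.aeval (a 1)) (ψ (X 1)) = aeval a (X 1)
        rw [h1, Polynomial.aeval_X, aeval_X]
    exact DFunLike.congr_fun h2 p
  have hlt1 : (⊥ : Ideal (MvPolynomial (Fin 2) k)) < RingHom.ker ψ := by
    rw [bot_lt_iff_ne_bot]
    intro h
    have h2 : (X 0 - C (a 0) : MvPolynomial (Fin 2) k) ∈ RingHom.ker ψ := by
      rw [RingHom.mem_ker, map_sub, h0, hC, sub_self]
    rw [h, Ideal.mem_bot] at h2
    have h3 := congrArg (MvPolynomial.aeval (fun _ => a 0 + 1 : Fin 2 → k)) h2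
    rw [map_sub, aeval_X, aeval_C, map_zero] at h3
    have h4 : (1 : k) = 0 := by
      rw [← h3]
      change 1 = a 0 + 1 - a 0
      ring
    exact one_ne_zero h4
  have hlt2 : RingHom.ker ψ < (vanishingIdeal k {a} : Ideal (MvPolynomial (Fin 2) k)) := by
    refine lt_of_le_of_ne ?_ ?_
    · intro p hp
      rw [RingHom.mem_ker] at hp
      rw [mem_vanishingIdeal_singleton_iff, ← hcomp, hp, map_zero]
    · intro h
      have h2 : (X 1 - C (a 1) : MvPolynomial (Fin 2) k) ∈ RingHom.ker ψ := by
        rw [h, mem_vanishingIdeal_singleton_iff, map_sub, aeval_X, aeval_C]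
        exact sub_self _
      rw [RingHom.mem_ker, map_sub, h1, hC] at h2
      exact Polynomial.X_sub_C_ne_zero _ h2
  have h5 := Ideal.height_add_one_le_of_lt_of_isPrime hlt1
  have h6 := Ideal.height_add_one_le_of_lt_of_isPrime hlt2
  have h7 : (1 : ℕ∞) ≤ (RingHom.ker ψ).height := le_trans (by simp) h5
  have h8 : (2 : ℕ∞) = 1 + 1 := by norm_num
  rw [h8]
  exact le_trans (by gcongr) h6

private theorem bb_height {k : Type u} [Field k] [IsAlgClosed k]
    (M : Ideal (MvPolynomial (Fin 2) k)) [hM : M.IsMaximal] : M.height = 2 := by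
  apply le_antisymm
  · have h1 : (M.height : WithBot ℕ∞) ≤ ringKrullDim (MvPolynomial (Fin 2) k) :=
      Ideal.height_le_ringKrullDim_of_isPrime
    rw [MvPolynomial.ringKrullDim_of_isNoetherianRing, ringKrullDim_eq_zero_of_field,
      Nat.card_eq_fintype_card, Fintype.card_fin, zero_add] at h1
    exact WithBot.coe_le_coe.1 h1
  · obtain ⟨a, ha⟩ := MvPolynomial.isMaximal_iff_eq_vanishingIdeal_singleton.1 hM
    rw [ha]
    exact bb_lower a

namespace Surf

variable {k L : Type u} [Field k] [Field L] [Algebra k L] (S : Surf k L)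

private theorem bb_equiv {l : L} (hl : l ∈ S.V) (h0 : l ≠ 0) :
    Nonempty (MvPolynomial (Fin 2) k ≃ₐ[k] S.base l) := by
  obtain ⟨m, _, n, _, hV, hind⟩ := S.exists_basis_V hl h0
  have h1 := S.base_eq h0 hV
  have h2 : Set.range ![m / l, n / l] = {m / l, n / l} := by
    simp [Set.pair_comm]
  rw [← h2] at h1
  obtain ⟨e, he⟩ : ∃ e : MvPolynomial (Fin 2) k →ₐ[k] S.base l,
      ∀ p, ((e p : S.base l) : L) = MvPolynomial.aeval ![m / l, n / l] p := by
    have h3 : ∀ p : MvPolynomial (Fin 2) k, MvPolynomial.aeval ![m / l, n / l] p ∈ S.base l := by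
      intro p
      rw [h1, Algebra.adjoin_range_eq_range_aeval]
      exact ⟨p, rfl⟩
    exact ⟨{ toFun := fun p => ⟨MvPolynomial.aeval ![m / l, n / l] p, h3 p⟩
             map_one' := Subtype.ext (map_one _)
             map_mul' := fun p q => Subtype.ext (map_mul _ p q)
             map_zero' := Subtype.ext (map_zero _)
             map_add' := fun p q => Subtype.ext (map_add _ p q)
             commutes' := fun c => Subtype.ext (AlgHom.commutes _ c) }, fun p => rfl⟩
  refine ⟨AlgEquiv.ofBijective e ⟨?_, ?_⟩⟩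
  · intro p q hpq
    apply hind
    rw [← he, ← he, hpq]
  · intro y
    have h4 : (y : L) ∈ (Algebra.adjoin k (Set.range ![m / l, n / l])).toSubring := by
      rw [← h1]
      exact y.2
    obtain ⟨p, hp⟩ := hind.aevalEquiv.surjective ⟨(y : L), h4⟩
    refine ⟨p, Subtype.ext ?_⟩
    rw [he]
    have h5 := congrArg Subtype.val hp
    exact h5

/-- `k[V/l]` is a polynomial ring in two variables. -/
theorem exists_equiv_base {l : L} (hl : l ∈ S.V) (h0 : l ≠ 0) :
    Nonempty (MvPolynomial (Fin 2) k ≃+* S.base l) := by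
  obtain ⟨e⟩ := S.bb_equiv hl h0
  exact ⟨e.toRingEquiv⟩

theorem noeth_base {l : L} (hl : l ∈ S.V) (h0 : l ≠ 0) : IsNoetherianRing (S.base l) := by
  obtain ⟨e⟩ := S.bb_equiv hl h0
  exact isNoetherianRing_of_ringEquiv _ e.toRingEquiv

theorem ufd_base {l : L} (hl : l ∈ S.V) (h0 : l ≠ 0) :
    UniqueFactorizationMonoid (S.base l) := by
  obtain ⟨e⟩ := S.bb_equiv hl h0
  exact MulEquiv.uniqueFactorizationMonoid e.toMulEquiv inferInstance

theorem ft_base {l : L} (hl : l ∈ S.V) (h0 : l ≠ 0) : Algebra.FiniteType k (S.base l) := by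
  obtain ⟨e⟩ := S.bb_equiv hl h0
  exact Algebra.FiniteType.equiv inferInstance e

theorem height_base [IsAlgClosed k] {l : L} (hl : l ∈ S.V) (h0 : l ≠ 0)
    (M : Ideal (S.base l)) [M.IsMaximal] : M.height = 2 := by
  obtain ⟨e⟩ := S.bb_equiv hl h0
  have h1 : (M.comap e.toRingEquiv).IsMaximal := Ideal.comap_isMaximal_of_equiv e.toRingEquiv
  rw [← RingEquiv.height_comap e.toRingEquiv M]
  exact bb_height _

end Surf

end HB
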