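import Pool.Agent.HB.A.BaseB

/-!
# HB-A-ChartA: the coordinate rings of the charts of the surface

Plan.  `S.chart l` is by definition `(integralClosure (S.base l) L).toSubring`.
* the instance: `inferInstanceAs (Algebra.IsIntegral (S.base l) (integralClosure (S.base l) L))`.
* `chart_int`: `isIntegral_trans` (and `mem_chart`).
* `chart_frac`: `integralClosure.isFractionRing_of_algebraic` with `S.alg_base`.
* `chart_ic`: `isIntegrallyClosed_iff L` and `chart_int`.
* `chart_fin`: `IsIntegralClosure.finite` with the fraction field `K = FractionRing (S.base l)`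
  mapped to `L` (`FractionRing.liftAlgebra`), finite dimensional by `S.fin_base`, separable because
  of characteristic zero; `S.base l` is integrally closed because it is factorial (`S.ufd_base`).
* `chart_noeth`: a finite algebra over a noetherian ring (`isNoetherian_of_isNoetherianRing_of_finite`).
* `chart_ft`: `Algebra.FiniteType.trans` with `S.ft_base`.
* `chart_not_field`: otherwise `S.base l` is a field (`isField_of_isIntegral_of_isField`), but it is
  isomorphic to a polynomial ring (`MvPolynomial.not_isField`?, or a variable has no inverse).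
-/

set_option autoImplicit false

open IsLocalRing

namespace HB

universe u

namespace Surf

variable {k L : Type u} [Field k] [Field L] [Algebra k L] (S : Surf k L)

instance (l : L) : Algebra.IsIntegral (S.base l) (S.chart l) := by
  refine ⟨fun x => ?_⟩
  have hx : IsIntegral (S.base l) (algebraMap (S.chart l) L x) := S.mem_chart.1 x.2
  exact (isIntegral_algebraMap_iff (Subtype.val_injective (p := (· ∈ S.chart l)))).1 hx

theorem chart_int {l x : L} (hx : IsIntegral (S.chart l) x) : x ∈ S.chart l := by
  rw [S.mem_chart]
  exact isIntegral_trans (R := S.base l) (A := S.chart l) x hx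

private theorem icl (l : L) : IsIntegralClosure (S.chart l) (S.base l) L where
  algebraMap_injective := Subtype.val_injective
  isIntegral_iff := by
    intro x
    rw [← S.mem_chart]
    constructor
    · intro hx
      exact ⟨⟨x, hx⟩, rfl⟩
    · rintro ⟨y, rfl⟩
      exact y.2

theorem chart_frac {l : L} (hl : l ∈ S.V) (h0 : l ≠ 0) : IsFractionRing (S.chart l) L := by
  have := S.icl l
  have := S.alg_base hl h0
  exact IsIntegralClosure.isFractionRing_of_algebraic (A := S.base l) (L := L) (C := S.chart l)
    (fun x hx => Subtype.ext hx)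

theorem chart_ic {l : L} (hl : l ∈ S.V) (h0 : l ≠ 0) : IsIntegrallyClosed (S.chart l) := by
  have := S.chart_frac hl h0
  rw [isIntegrallyClosed_iff L]
  intro x hx
  exact ⟨⟨x, S.chart_int hx⟩, rfl⟩

theorem chart_fin [CharZero k] {l : L} (hl : l ∈ S.V) (h0 : l ≠ 0) :
    Module.Finite (S.base l) (S.chart l) := by
  obtain ⟨F, hF, h1, h2⟩ := S.fin_base hl h0
  have := S.icl l
  have := S.ufd_base hl h0
  have := S.noeth_base hl h0
  let _ : Algebra (S.base l) F := ((algebraMap (S.base l) L).codRestrict F.toSubring h1).toAlgebra
  have ht : IsScalarTower (S.base l) F L := .of_algebraMap_eq (fun _ => rfl)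
  have hfr : IsFractionRing (S.base l) F := by
    have h3 : ∀ x : S.base l, algebraMap F L (algebraMap (S.base l) F x) = x := fun _ => rfl
    have hinj : Function.Injective (algebraMap (S.base l) F) := by
      intro x y hxy
      refine Subtype.ext ?_
      rw [← h3 x, ← h3 y, hxy]
    refine ⟨⟨?_, ?_, ?_⟩⟩
    · intro y
      refine IsUnit.mk0 _ ?_
      intro h
      exact nonZeroDivisors.ne_zero y.2 (hinj (by rw [h, map_zero]))
    · intro z
      obtain ⟨a, b, hb, e⟩ := h2 z z.2
      have hb' : b ≠ 0 := fun h => hb (by rw [h]; rfl)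
      refine ⟨(a, ⟨b, mem_nonZeroDivisors_of_ne_zero hb'⟩), ?_⟩
      refine (algebraMap F L).injective ?_
      rw [map_mul, h3, h3]
      show (z : L) * (b : L) = a
      rw [e, div_mul_cancel₀ _ hb]
    · intro x y hxy
      exact ⟨1, by rw [hinj hxy]⟩
  have : CharZero F := charZero_of_injective_algebraMap (algebraMap k F).injective
  exact IsIntegralClosure.finite (S.base l) F L (S.chart l)

theorem chart_noeth [CharZero k] {l : L} (hl : l ∈ S.V) (h0 : l ≠ 0) :
    IsNoetherianRing (S.chart l) := by
  have := S.chart_fin hl h0
  have := S.noeth_base hl h0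
  exact IsNoetherianRing.of_finite (S.base l) (S.chart l)

theorem chart_ft [CharZero k] {l : L} (hl : l ∈ S.V) (h0 : l ≠ 0) :
    Algebra.FiniteType k (S.chart l) := by
  have := S.chart_fin hl h0
  have := S.ft_base hl h0
  exact Algebra.FiniteType.trans (S := S.base l) this inferInstance

theorem chart_not_field {l : L} (hl : l ∈ S.V) (h0 : l ≠ 0) : ¬ IsField (S.chart l) := by
  intro h
  have h1 : IsField (S.base l) := isField_of_isIntegral_of_isField
    (R := S.base l) (S := S.chart l) (fun x y hxy => Subtype.ext (congrArg (Subtype.val (p := (· ∈ S.chart l))) hxy)) h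
  obtain ⟨e⟩ := S.exists_equiv_base hl h0
  have h2 : IsField (MvPolynomial (Fin 2) k) := e.toMulEquiv.isField h1
  let _ := h2.toField
  have h3 : Function.Injective (MvPolynomial.eval (fun _ : Fin 2 => (0 : k))) :=
    RingHom.injective _
  have h4 : (MvPolynomial.X 0 : MvPolynomial (Fin 2) k) = 0 := h3 (by simp)
  exact MvPolynomial.X_ne_zero 0 h4

end Surf

end HB
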