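import Pool.Agent.HB.A.ChartA

/-!
# HB-A-ChartB: points and dimension of the charts of the surface

Plan.
* `chart_res`: `S.chart l / M` is a field of finite type over `k`, hence finite over `k`
  (Zariski's lemma: `finite_of_finite_type_of_isJacobsonRing` or `Algebra.FiniteType`), hence equal
  to `k` (`IsAlgClosed.algebraMap_bijective_of_isIntegral`).
* `chart_height`: `q = M.under (S.base l)` is maximal (integral extension), of height 2
  (`S.height_base`).  Going down holds (`Mathlib/RingTheory/IntegralClosure/GoingDown.lean`, the base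
  is integrally closed, `Algebra.HasGoingDown`), so `Ideal.exists_ltSeries_of_hasGoingDown` lifts a
  chain below `q` to a chain below `M`: `height M >= 2`.  Conversely a chain of primes below `M`
  contracts to a strict chain (incomparability for integral extensions,
  `Ideal.comap_lt_comap_of_integral_mem_sdiff` / `Ideal.IsIntegralClosure.comap_lt_comap`), so
  `height M <= height q = 2`.  (See also `Ideal.height_eq_height_add_of_liesOver_of_hasGoingDown` in
  `Mathlib/RingTheory/Ideal/KrullsHeightTheorem.lean`, line 463.)
* `chart_height_one`: `height p >= 1` because `p <> bot` in a domain; `p < M` for a maximal ideal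
  `M`, so `height p < height M = 2` (`Ideal.height_strict_mono_of_is_prime` or so).
* `chart_height_max`: if `p` is prime of height 2 it is maximal: otherwise `p < M` and
  `2 = height p < height M = 2`.
-/

set_option autoImplicit false

open IsLocalRing

namespace HB

universe u

namespace Surf

variable {k L : Type u} [Field k] [Field L] [Algebra k L] (S : Surf k L)

theorem chart_res [CharZero k] [IsAlgClosed k] {l : L} (hl : l ∈ S.V) (h0 : l ≠ 0)
    (M : Ideal (S.chart l)) [M.IsMaximal] (x : S.chart l) :
    ∃ c : k, x - algebraMap k (S.chart l) c ∈ M := by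
  have := S.chart_ft hl h0
  let _ : Field (S.chart l ⧸ M) := Ideal.Quotient.field M
  have : Algebra.FiniteType k (S.chart l ⧸ M) :=
    Algebra.FiniteType.of_surjective (Ideal.Quotient.mkₐ k M) (Ideal.Quotient.mkₐ_surjective k M)
  have : Module.Finite k (S.chart l ⧸ M) := finite_of_finite_type_of_isJacobsonRing k _
  have : Algebra.IsIntegral k (S.chart l ⧸ M) := inferInstance
  obtain ⟨c, hc⟩ := (IsAlgClosed.algebraMap_bijective_of_isIntegral (k := k)
    (K := S.chart l ⧸ M)).2 (Ideal.Quotient.mk M x)
  refine ⟨c, ?_⟩
  rw [← Ideal.Quotient.eq_zero_iff_mem, map_sub, sub_eq_zero, ← hc]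
  rfl

theorem chart_height [CharZero k] [IsAlgClosed k] {l : L} (hl : l ∈ S.V) (h0 : l ≠ 0)
    (M : Ideal (S.chart l)) [M.IsMaximal] : M.height = 2 := by
  have := S.ufd_base hl h0
  have := S.noeth_base hl h0
  have := S.chart_noeth hl h0
  have : IsIntegrallyClosed (S.base l) := inferInstance
  have : FaithfulSMul (S.base l) (S.chart l) :=
    (faithfulSMul_iff_algebraMap_injective _ _).2
      (Subring.inclusion_injective (S.base_le_chart l))
  have hmax : (M.comap (algebraMap (S.base l) (S.chart l))).IsMaximal :=
    Ideal.isMaximal_comap_of_isIntegral_of_isMaximal M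
  have hq : (M.comap (algebraMap (S.base l) (S.chart l))).height = 2 := S.height_base hl h0 _
  apply le_antisymm
  · obtain ⟨ls, h1, h2⟩ := M.exists_ltSeries_length_eq_height
    have hmono : StrictMono (PrimeSpectrum.comap (algebraMap (S.base l) (S.chart l))) := by
      intro I J hIJ
      exact Ideal.IsIntegral.comap_lt_comap (R := S.base l) (I := I.asIdeal) (J := J.asIdeal) hIJ
    have h3 := Order.length_le_height (p := ls.map _ hmono)
      (x := ⟨M.comap (algebraMap (S.base l) (S.chart l)), inferInstance⟩) (by
        rw [LTSeries.last_map, h1]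
        exact le_rfl)
    rw [← PrimeSpectrum.height_eq_orderHeight] at h3
    rw [← h2, ← hq]
    exact h3
  · obtain ⟨ls, h1, h2⟩ :=
      (M.comap (algebraMap (S.base l) (S.chart l))).exists_ltSeries_length_eq_height
    have : M.LiesOver ls.last.asIdeal := by
      rw [h1]
      exact ⟨rfl⟩
    obtain ⟨ls', h3, h4, -⟩ := Ideal.exists_ltSeries_of_hasGoingDown ls M
    have h5 := Order.length_le_height (p := ls') (x := ⟨M, inferInstance⟩) h4.le
    rw [← PrimeSpectrum.height_eq_orderHeight, h3, h2, hq] at h5
    exact h5

theorem chart_height_one [CharZero k] [IsAlgClosed k] {l : L} (hl : l ∈ S.V) (h0 : l ≠ 0)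
    (p : Ideal (S.chart l)) [p.IsPrime] (hp : p ≠ ⊥) (hm : ¬ p.IsMaximal) : p.height = 1 := by
  have := S.chart_noeth hl h0
  obtain ⟨M, hM, hpM⟩ := p.exists_le_maximal Ideal.IsPrime.ne_top'
  have hlt : p < M := lt_of_le_of_ne hpM (fun h => hm (h ▸ hM))
  have h1 := Ideal.height_strict_mono_of_isPrime hlt
  rw [S.chart_height hl h0 M] at h1
  have h2 : p.height ≠ 0 := by
    rw [Ne, Ideal.height_eq_zero_iff_eq_bot]
    exact hp
  have h3 : p.height ≤ 1 := by simpa using h1
  exact le_antisymm h3 (Order.one_le_iff_ne_zero.2 h2)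

theorem chart_height_max [CharZero k] [IsAlgClosed k] {l : L} (hl : l ∈ S.V) (h0 : l ≠ 0)
    (p : Ideal (S.chart l)) [p.IsPrime] (hp : p.height = 2) : p.IsMaximal := by
  have := S.chart_noeth hl h0
  obtain ⟨M, hM, hpM⟩ := p.exists_le_maximal Ideal.IsPrime.ne_top'
  by_contra hm
  have hlt : p < M := lt_of_le_of_ne hpM (fun h => hm (h ▸ hM))
  have h1 := Ideal.height_strict_mono_of_isPrime hlt
  rw [S.chart_height hl h0 M, hp] at h1
  exact lt_irrefl _ h1

end Surf

end HB
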