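import Pool.Agent.HB.A.LocA

/-!
# HB-A-LocB: values of functions at closed points

Plan.  `algebraMap k (ResidueField O)` is injective (field) and surjective by `Pt.res`.
Then the other statements are formal: `P.ev x = 0` iff the residue of `x` is zero.
-/

set_option autoImplicit false

open IsLocalRing

namespace HB

universe u

namespace Surf

variable {k L : Type u} [Field k] [Field L] [Algebra k L] {S : Surf k L}
  [CharZero k] [IsAlgClosed k]

theorem Pt.bijective (P : S.Pt) :
    Function.Bijective (Algebra.ofId k (ResidueField P.1.toSubring)) := by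
  refine ⟨RingHom.injective _, fun r => ?_⟩
  obtain ⟨x, rfl⟩ := residue_surjective r
  obtain ⟨c, hc⟩ := P.res x
  refine ⟨c, ?_⟩
  rw [← residue_eq_zero_iff, map_sub, sub_eq_zero] at hc
  rw [hc, Algebra.ofId_apply]
  rfl

/-- The value of a function at a closed point. -/
noncomputable def Pt.ev (P : S.Pt) : P.1.toSubring →ₐ[k] k :=
  AlgHom.comp
    (AlgEquiv.ofBijective (Algebra.ofId k (ResidueField P.1.toSubring)) P.bijective).symm.toAlgHom
    (IsScalarTower.toAlgHom k P.1.toSubring (ResidueField P.1.toSubring))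

private theorem Pt.ev_spec (P : S.Pt) (x : P.1.toSubring) :
    residue P.1.toSubring (algebraMap k P.1.toSubring (P.ev x)) = residue P.1.toSubring x :=
  (AlgEquiv.ofBijective (Algebra.ofId k (ResidueField P.1.toSubring))
    P.bijective).apply_symm_apply (residue P.1.toSubring x)

theorem Pt.ev_eq_zero (P : S.Pt) (x : P.1.toSubring) :
    P.ev x = 0 ↔ x ∈ maximalIdeal P.1.toSubring := by
  rw [← residue_eq_zero_iff, ← P.ev_spec x]
  constructor
  · intro h
    rw [h, map_zero, map_zero]
  · intro h
    by_contra h0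
    have h1 : IsUnit (residue P.1.toSubring (algebraMap k P.1.toSubring (P.ev x))) :=
      ((IsUnit.mk0 _ h0).map (algebraMap k P.1.toSubring)).map (residue P.1.toSubring)
    exact h1.ne_zero h

theorem Pt.sub_ev_mem (P : S.Pt) (x : P.1.toSubring) :
    x - algebraMap k P.1.toSubring (P.ev x) ∈ maximalIdeal P.1.toSubring := by
  rw [← residue_eq_zero_iff, map_sub, P.ev_spec x, sub_self]

theorem Pt.ev_eq_iff (P : S.Pt) (x : P.1.toSubring) (c : k) :
    P.ev x = c ↔ x - algebraMap k P.1.toSubring c ∈ maximalIdeal P.1.toSubring := by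
  rw [← P.ev_eq_zero, map_sub, AlgHom.commutes, Algebra.algebraMap_self, RingHom.id_apply,
    sub_eq_zero]

theorem Pt.isUnit_iff (P : S.Pt) (x : P.1.toSubring) : IsUnit x ↔ P.ev x ≠ 0 := by
  rw [Ne, P.ev_eq_zero, notMem_maximalIdeal]

end Surf

end HB
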