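import Pool.Agent.HB.A.LocC
import Pool.Agent.HB.A.LocB

/-!
# HB-A-CurveA: the local ring of a curve at a point

Plan.  `C.loc P` is the image of `O_P` in the residue field of `O_C`.
* `toLoc_surjective`, `ker_toLoc`, `coe_toLoc`: unfold.
* local, noetherian: image of a local noetherian ring (`IsLocalRing.of_surjective'`,
  `isNoetherianRing_of_surjective`).
* `loc_dim`: let `x <> 0` be in `C.ideal P h` (its height is 1, so it is not `bot`); then
  `C.loc P = O_P / C.ideal` is a quotient of `O_P/(x)` and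
  `ringKrullDim_quotient_succ_le_of_nonZeroDivisor` with `Pt.dim` gives dimension `<= 1`.
* `loc_frac`: an element of `kap` is the residue of `z` in `O_C`, `z = a/b` with
  `a, b` in `O_P`, `b` not in `C.ideal` (`PD.ofPrime_ideal`, `mem_ofPrime`), so it is the quotient of
  the residues.
* `loc_not_field`: otherwise `C.ideal P h` is the maximal ideal, of height 2 (`Pt.height`), but its
  height is 1.
* `loc_res`: from `Pt.res`.
* `inv_mem_loc`: a unit of `O_P` restricts to a unit.
-/

set_option autoImplicit false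

open IsLocalRing

namespace HB

universe u

namespace Surf

variable {k L : Type u} [Field k] [Field L] [Algebra k L] {S : Surf k L}
  [CharZero k] [IsAlgClosed k]

variable (S) in
/-- An auxiliary name: the restriction map from the local ring of the surface to the local ring of
the curve. -/
noncomputable def toLoc (C : S.PD) (P : S.Pt) (h : On P C) : P.1.toSubring →+* C.loc P :=
  ((residue C.1.toSubring).comp (Subring.inclusion h)).codRestrict (C.loc P) (by
    intro x
    exact ⟨⟨x.1, h x.2⟩, x.2, rfl⟩)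

theorem toLoc_surjective (C : S.PD) (P : S.Pt) (h : On P C) :
    Function.Surjective (S.toLoc C P h) := by
  rintro ⟨y, x, hx, hy⟩
  exact ⟨⟨x.1, hx⟩, Subtype.ext hy⟩

theorem ker_toLoc (C : S.PD) (P : S.Pt) (h : On P C) :
    RingHom.ker (S.toLoc C P h) = C.ideal P h := by
  ext x
  rw [RingHom.mem_ker, PD.ideal, Ideal.mem_comap, ← residue_eq_zero_iff, Subtype.ext_iff]
  rfl

theorem coe_toLoc (C : S.PD) (P : S.Pt) (h : On P C) (x : P.1.toSubring) :
    ((S.toLoc C P h x : C.loc P) : C.kap) = C.res x := by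
  unfold PD.res
  rw [dif_pos (h x.2)]
  rfl

theorem PD.loc_local (C : S.PD) (P : S.Pt) (h : On P C) : IsLocalRing (C.loc P) :=
  IsLocalRing.of_surjective' (S.toLoc C P h) (toLoc_surjective C P h)

theorem PD.loc_noeth (C : S.PD) (P : S.Pt) (h : On P C) : IsNoetherianRing (C.loc P) :=
  isNoetherianRing_of_surjective _ _ (S.toLoc C P h) (toLoc_surjective C P h)

theorem PD.ideal_ne_bot (C : S.PD) (P : S.Pt) (h : On P C) : C.ideal P h ≠ ⊥ := by
  intro e
  have := C.height_ideal P h
  rw [e, Ideal.height_bot] at this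
  exact zero_ne_one this

theorem PD.loc_dim (C : S.PD) (P : S.Pt) (h : On P C) : Ring.KrullDimLE 1 (C.loc P) := by
  rw [Ring.krullDimLE_iff]
  obtain ⟨x, hx, hx0⟩ := Submodule.exists_mem_ne_zero_of_ne_bot (C.ideal_ne_bot P h)
  have h1 := ringKrullDim_quotient_succ_le_of_nonZeroDivisor (mem_nonZeroDivisors_of_ne_zero hx0)
  rw [P.dim] at h1
  have h2 : ringKrullDim (C.loc P) ≤ ringKrullDim (P.1.toSubring ⧸ Ideal.span {x}) := by
    refine ringKrullDim_le_of_surjective (Ideal.Quotient.lift _ (S.toLoc C P h) ?_) ?_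
    · intro a ha
      rw [← RingHom.mem_ker, ker_toLoc]
      exact (Ideal.span_singleton_le_iff_mem _).2 hx ha
    · exact Ideal.Quotient.lift_surjective_of_surjective _ _ (toLoc_surjective C P h)
  have h3 : ringKrullDim (P.1.toSubring ⧸ Ideal.span {x}) ≤ 1 := by
    have h2 : (2 : WithBot ℕ∞) = 1 + 1 := by norm_num
    rw [h2] at h1
    exact (ENat.WithBot.add_le_add_one_right_iff).1 h1
  exact_mod_cast h2.trans h3

theorem PD.loc_frac (C : S.PD) (P : S.Pt) (h : On P C) : IsFractionRing (C.loc P) C.kap := by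
  haveI : FaithfulSMul (C.loc P) C.kap :=
    (faithfulSMul_iff_algebraMap_injective _ _).2 Subtype.val_injective
  refine IsFractionRing.of_field _ _ ?_
  intro z
  obtain ⟨x, rfl⟩ := residue_surjective z
  have hx : (x : L) ∈ (LocalSubring.ofPrime P.1.toSubring (C.ideal P h)).toSubring :=
    (congrArg LocalSubring.toSubring (C.ofPrime_ideal P h)).ge x.2
  rw [mem_ofPrime] at hx
  obtain ⟨a, b, hb, e⟩ := hx
  refine ⟨S.toLoc C P h a, S.toLoc C P h b, ?_⟩
  have hb' : residue C.1.toSubring ⟨b, h b.2⟩ ≠ 0 := by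
    rw [Ne, residue_eq_zero_iff]
    exact hb
  change _ = residue C.1.toSubring ⟨a, h a.2⟩ / residue C.1.toSubring ⟨b, h b.2⟩
  rw [eq_div_iff hb', ← map_mul]
  congr 1
  apply Subtype.ext
  change (x : L) * b = a
  rw [e]
  have hb0 : (b : L) ≠ 0 := by
    intro h0
    apply hb
    have : b = 0 := Subtype.ext h0
    rw [this]
    exact Ideal.zero_mem _
  field_simp

theorem PD.loc_not_field (C : S.PD) (P : S.Pt) (h : On P C) : ¬ IsField (C.loc P) := by
  intro hF
  have hmax : (C.ideal P h).IsMaximal := by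
    rw [← ker_toLoc]
    have h0 : (⊥ : Ideal (C.loc P)).IsMaximal := Ring.isField_iff_maximal_bot.1 hF
    exact Ideal.comap_isMaximal_of_surjective (S.toLoc C P h) (toLoc_surjective C P h) (K := ⊥)
  have e := IsLocalRing.eq_maximalIdeal hmax
  have h1 := C.height_ideal P h
  rw [e, P.height] at h1
  exact absurd h1 (by norm_num)

theorem PD.algebraMap_mem_loc (C : S.PD) (P : S.Pt) (h : On P C) (c : k) :
    algebraMap k C.kap c ∈ C.loc P :=
  ⟨⟨algebraMap k L c, C.algebraMap_mem c⟩, P.algebraMap_mem c, rfl⟩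

theorem PD.res_mem_loc (C : S.PD) (P : S.Pt) (h : On P C) {f : L} (hf : f ∈ P.1.toSubring) :
    C.res f ∈ C.loc P := by
  have := coe_toLoc C P h ⟨f, hf⟩
  rw [← this]
  exact (S.toLoc C P h ⟨f, hf⟩).2

/-- residue field `k` -/
theorem PD.loc_res (C : S.PD) (P : S.Pt) (h : On P C) {g : C.kap} (hg : g ∈ C.loc P) :
    ∃ c : k, g - algebraMap k C.kap c = 0 ∨ (g - algebraMap k C.kap c)⁻¹ ∉ C.loc P := by
  obtain ⟨x, hx⟩ := toLoc_surjective C P h ⟨g, hg⟩
  obtain ⟨c, hc⟩ := P.res x
  refine ⟨c, ?_⟩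
  by_cases h0 : g - algebraMap k C.kap c = 0
  · exact Or.inl h0
  refine Or.inr fun hi => ?_
  obtain ⟨y, hy⟩ := toLoc_surjective C P h ⟨_, hi⟩
  have e1 : ((S.toLoc C P h (x - algebraMap k P.1.toSubring c) : C.loc P) : C.kap) =
      g - algebraMap k C.kap c := by
    rw [map_sub, hx]
    rfl
  have e2 : S.toLoc C P h ((x - algebraMap k P.1.toSubring c) * y) = 1 := by
    rw [map_mul, hy]
    apply Subtype.ext
    push_cast
    rw [e1]
    exact mul_inv_cancel₀ h0
  have h3 : (x - algebraMap k P.1.toSubring c) * y ∈ maximalIdeal P.1.toSubring :=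
    Ideal.mul_mem_right _ _ hc
  have h4 : 1 - (x - algebraMap k P.1.toSubring c) * y ∈ C.ideal P h := by
    rw [← ker_toLoc, RingHom.mem_ker, map_sub, e2, map_one, sub_self]
  have h5 : (1 : P.1.toSubring) ∈ maximalIdeal P.1.toSubring := by
    have := Ideal.add_mem _ (IsLocalRing.le_maximalIdeal (Ideal.IsPrime.ne_top inferInstance) h4) h3
    rwa [sub_add_cancel] at this
  exact (Ideal.ne_top_iff_one _).1 (Ideal.IsPrime.ne_top inferInstance) h5

end Surf

end HB
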