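import Mathlib

/-!
# HB-A-Reg: two-dimensional regular local rings are factorial

Plan.
* `prime_of_gen`: let `R' = R/(x)`, a noetherian local ring whose maximal ideal is generated by the
  image of `y`.  The image of `y` is not nilpotent: otherwise the maximal ideal of `R` is minimal
  over `(x)` and has height `<= 1` (Krull, `Ideal.height_le_one_of_isPrincipal_of_mem_minimalPrimes`),
  but the height is 2.  A noetherian local ring whose maximal ideal is generated by one non nilpotent
  element `y` is a domain: every nonzero element is `unit * y^n` by Krull's intersection theorem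
  (`Ideal.iInf_pow_eq_bot_of_isLocalRing`), and `y^(n+m) <> 0`.  So `R'` is a domain, `x` is prime
  (`x <> 0` because the height is not `<= 1`), and `R'` is a discrete valuation ring.
* `ufd_of_two_gen`: by `UniqueFactorizationMonoid.of_forall_isPrincipal_of_height_eq_one` it is
  enough that a prime `p` of height one is principal.  If `x` is in `p` then `p = (x)` (both are
  primes of height one, `x` prime: `Ideal.eq_span_singleton_of_height_eq_one` in
  `Mathlib/RingTheory/Ideal/UFD.lean`).  If `x` is not in `p`: `p + (x)/(x)` is an ideal of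
  the principal ideal ring `R/(x)`, generated by the image of some `z` in `p`; then `p = (z) + x p`
  (if `w` is in `p`, `w = a z + x b`, so `x b` is in `p` and `b` is in `p`), and Nakayama
  (`Submodule.le_of_le_smul_of_le_jacobson_bot` or
  `Submodule.eq_bot_of_le_smul_of_le_jacobson_bot`) gives `p = (z)`.
-/

set_option autoImplicit false

open IsLocalRing

namespace HB

universe u

private theorem elt_form (A : Type u) [CommRing A] [IsLocalRing A] [IsNoetherianRing A] (y : A)
    (hm : maximalIdeal A = Ideal.span {y}) (a : A) (ha : a ≠ 0) :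
    ∃ (n : ℕ) (u : A), IsUnit u ∧ a = u * y ^ n := by
  classical
  have hne : maximalIdeal A ≠ ⊤ := (maximalIdeal.isMaximal A).ne_top
  have hinf := Ideal.iInf_pow_eq_bot_of_isLocalRing (maximalIdeal A) hne
  have hex : ∃ n, a ∉ maximalIdeal A ^ n := by
    by_contra hcon
    push Not at hcon
    apply ha
    have : a ∈ ⨅ i : ℕ, maximalIdeal A ^ i := by
      rw [Ideal.mem_iInf]
      exact hcon
    rw [hinf] at this
    exact this
  obtain ⟨k, hk⟩ : ∃ k, k = Nat.find hex := ⟨_, rfl⟩
  have hk1 : a ∉ maximalIdeal A ^ k := hk ▸ Nat.find_spec hex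
  have hk0 : k ≠ 0 := by
    rintro rfl
    apply hk1
    rw [pow_zero, Ideal.one_eq_top]
    trivial
  obtain ⟨n, rfl⟩ := Nat.exists_eq_succ_of_ne_zero hk0
  have hn : a ∈ maximalIdeal A ^ n := by
    by_contra hcon
    have := Nat.find_min' hex hcon
    omega
  rw [hm, Ideal.span_singleton_pow, Ideal.mem_span_singleton'] at hn
  obtain ⟨u, hu⟩ := hn
  refine ⟨n, u, ?_, hu.symm⟩
  by_contra hnu
  apply hk1
  have hmem : u ∈ maximalIdeal A := hnu
  rw [← hu, Nat.succ_eq_add_one, pow_succ']
  refine Ideal.mul_mem_mul hmem ?_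
  rw [hm, Ideal.span_singleton_pow]
  exact Ideal.mem_span_singleton_self _

private theorem domain_of_form (A : Type u) [CommRing A] [IsLocalRing A] [IsNoetherianRing A]
    (y : A) (hm : maximalIdeal A = Ideal.span {y}) (hy : ¬ IsNilpotent y) : IsDomain A := by
  have : NoZeroDivisors A := by
    refine ⟨fun {a b} hab => ?_⟩
    by_contra hcon
    push Not at hcon
    obtain ⟨n, u, hu, rfl⟩ := elt_form A y hm a hcon.1
    obtain ⟨m, v, hv, rfl⟩ := elt_form A y hm b hcon.2
    apply hy
    refine ⟨n + m, ?_⟩
    have h1 : (u * v) * y ^ (n + m) = 0 := by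
      rw [← hab, pow_add]
      ring
    exact ((hu.mul hv).mul_right_eq_zero).1 h1
  exact NoZeroDivisors.to_isDomain A

private theorem pir_of_form (A : Type u) [CommRing A] [IsLocalRing A] [IsNoetherianRing A]
    (y : A) (hm : maximalIdeal A = Ideal.span {y}) : IsPrincipalIdealRing A := by
  classical
  refine ⟨fun I => ?_⟩
  by_cases hI : I = ⊥
  · rw [hI]
    exact bot_isPrincipal
  · have hex : ∃ n, y ^ n ∈ I := by
      obtain ⟨a, haI, ha⟩ := Submodule.exists_mem_ne_zero_of_ne_bot hI
      obtain ⟨n, u, hu, rfl⟩ := elt_form A y hm a ha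
      exact ⟨n, (Ideal.unit_mul_mem_iff_mem I hu).1 haI⟩
    refine ⟨y ^ Nat.find hex, ?_⟩
    apply le_antisymm
    · intro a haI
      by_cases ha : a = 0
      · rw [ha]; exact Submodule.zero_mem _
      · obtain ⟨n, u, hu, rfl⟩ := elt_form A y hm a ha
        have h1 : y ^ n ∈ I := (Ideal.unit_mul_mem_iff_mem I hu).1 haI
        have h2 := Nat.find_min' hex h1
        obtain ⟨c, rfl⟩ := Nat.exists_eq_add_of_le h2
        rw [Ideal.submodule_span_eq, Ideal.mem_span_singleton']
        exact ⟨u * y ^ c, by rw [pow_add]; ring⟩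
    · rw [Ideal.submodule_span_eq, Ideal.span_singleton_le_iff_mem]
      exact Nat.find_spec hex

private theorem x_mem (R : Type u) [CommRing R] [IsLocalRing R] (x y : R)
    (hm : maximalIdeal R = Ideal.span {x, y}) : x ∈ maximalIdeal R := by
  rw [hm]
  exact Ideal.subset_span (by simp)

private theorem quot_nontrivial (R : Type u) [CommRing R] [IsLocalRing R] (x y : R)
    (hm : maximalIdeal R = Ideal.span {x, y}) : Nontrivial (R ⧸ Ideal.span {x}) := by
  rw [Ideal.Quotient.nontrivial_iff]
  intro h
  have h1 : Ideal.span {x} ≤ maximalIdeal R := by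
    rw [Ideal.span_singleton_le_iff_mem]
    exact x_mem R x y hm
  rw [h] at h1
  exact (maximalIdeal.isMaximal R).ne_top (top_le_iff.1 h1)

private theorem quot_max (R : Type u) [CommRing R] [IsLocalRing R] (x y : R)
    (hm : maximalIdeal R = Ideal.span {x, y}) [IsLocalRing (R ⧸ Ideal.span {x})] :
    maximalIdeal (R ⧸ Ideal.span {x}) = Ideal.span {Ideal.Quotient.mk (Ideal.span {x}) y} := by
  have hloc : IsLocalHom (Ideal.Quotient.mk (Ideal.span {x})) :=
    Function.Surjective.isLocalHom _ Ideal.Quotient.mk_surjective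
  have h1 : (maximalIdeal (R ⧸ Ideal.span {x})).comap (Ideal.Quotient.mk (Ideal.span {x})) =
      maximalIdeal R := by
    ext a
    rw [Ideal.mem_comap, mem_maximalIdeal, mem_maximalIdeal, mem_nonunits_iff, mem_nonunits_iff,
      isUnit_map_iff]
  rw [← Ideal.map_comap_of_surjective _ Ideal.Quotient.mk_surjective
    (maximalIdeal (R ⧸ Ideal.span {x})), h1, hm, Ideal.map_span, Set.image_pair]
  have hx : Ideal.Quotient.mk (Ideal.span {x}) x = 0 :=
    Ideal.Quotient.eq_zero_iff_mem.2 (Ideal.mem_span_singleton_self x)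
  rw [hx, Ideal.span_insert_zero]

private theorem quot_not_nil (R : Type u) [CommRing R] [IsLocalRing R] [IsNoetherianRing R]
    (hd : (maximalIdeal R).height = 2) (x y : R) (hm : maximalIdeal R = Ideal.span {x, y}) :
    ¬ IsNilpotent (Ideal.Quotient.mk (Ideal.span {x}) y) := by
  rintro ⟨n, hn⟩
  rw [← map_pow, Ideal.Quotient.eq_zero_iff_mem] at hn
  have hmin : maximalIdeal R ∈ (Ideal.span {x}).minimalPrimes := by
    refine ⟨⟨(maximalIdeal.isMaximal R).isPrime, ?_⟩, ?_⟩
    · rw [Ideal.span_singleton_le_iff_mem]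
      exact x_mem R x y hm
    · rintro q ⟨hq, hxq⟩ _
      rw [hm, Ideal.span_le]
      rintro z (rfl | hz)
      · exact hxq (Ideal.mem_span_singleton_self _)
      · rw [Set.mem_singleton_iff] at hz
        subst hz
        exact hq.mem_of_pow_mem n (hxq hn)
  have hprin : (Ideal.span {x} : Ideal R).IsPrincipal := ⟨x, rfl⟩
  have h1 := Ideal.height_le_one_of_isPrincipal_of_mem_minimalPrimes (Ideal.span {x})
    (maximalIdeal R) hmin
  rw [hd] at h1
  exact absurd h1 (by norm_num)

/-- In such a ring a generator of the maximal ideal is prime. -/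
theorem prime_of_gen (R : Type u) [CommRing R] [IsDomain R] [IsLocalRing R] [IsNoetherianRing R]
    (hd : (maximalIdeal R).height = 2) (x y : R) (hm : maximalIdeal R = Ideal.span {x, y}) :
    Prime x := by
  have hx0 : x ≠ 0 := by
    rintro rfl
    have hm' : maximalIdeal R = Ideal.span {y} := by
      rw [hm, Ideal.span_insert_zero]
    have hprin : (maximalIdeal R).IsPrincipal := ⟨y, hm'⟩
    have h1 := Ideal.height_le_one_of_isPrincipal_of_mem_minimalPrimes (maximalIdeal R)
      (maximalIdeal R) ⟨⟨(maximalIdeal.isMaximal R).isPrime, le_rfl⟩, fun q hq _ => hq.2⟩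
    rw [hd] at h1
    exact absurd h1 (by norm_num)
  have hnt := quot_nontrivial R x y hm
  have hloc : IsLocalRing (R ⧸ Ideal.span {x}) :=
    IsLocalRing.of_surjective' _ Ideal.Quotient.mk_surjective
  have hdom := domain_of_form (R ⧸ Ideal.span {x}) _ (quot_max R x y hm)
    (quot_not_nil R hd x y hm)
  rw [← Ideal.span_singleton_prime hx0]
  exact (Ideal.Quotient.isDomain_iff_prime _).1 hdom

/-- The quotient is a discrete valuation ring. -/
theorem pir_of_gen (R : Type u) [CommRing R] [IsDomain R] [IsLocalRing R] [IsNoetherianRing R]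
    (hd : (maximalIdeal R).height = 2) (x y : R) (hm : maximalIdeal R = Ideal.span {x, y}) :
    IsPrincipalIdealRing (R ⧸ Ideal.span {x}) := by
  have hnt := quot_nontrivial R x y hm
  have hloc : IsLocalRing (R ⧸ Ideal.span {x}) :=
    IsLocalRing.of_surjective' _ Ideal.Quotient.mk_surjective
  exact pir_of_form (R ⧸ Ideal.span {x}) _ (quot_max R x y hm)

/-- A noetherian local domain of dimension two whose maximal ideal has two generators is
factorial. -/
theorem ufd_of_two_gen (R : Type u) [CommRing R] [IsDomain R] [IsLocalRing R] [IsNoetherianRing R]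
    (hd : (maximalIdeal R).height = 2) (x y : R) (hm : maximalIdeal R = Ideal.span {x, y}) :
    UniqueFactorizationMonoid R := by
  apply UniqueFactorizationMonoid.of_forall_isPrincipal_of_height_eq_one
  intro p hp hp1
  have hx := prime_of_gen R hd x y hm
  have hpir := pir_of_gen R hd x y hm
  by_cases hxp : x ∈ p
  · exact ⟨x, p.eq_span_singleton_of_height_eq_one hp1 hxp hx⟩
  · obtain ⟨zb, hzb⟩ := (hpir.principal (p.map (Ideal.Quotient.mk (Ideal.span {x})))).principal
    rw [Ideal.submodule_span_eq] at hzb
    have hzmem : zb ∈ p.map (Ideal.Quotient.mk (Ideal.span {x})) := by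
      rw [hzb]; exact Ideal.mem_span_singleton_self _
    obtain ⟨z, hz, rfl⟩ := (Ideal.mem_map_iff_of_surjective _ Ideal.Quotient.mk_surjective).1 hzmem
    have hle : p ≤ Ideal.span {z} := by
      refine Submodule.le_of_le_smul_of_le_jacobson_bot (I := maximalIdeal R)
        (IsNoetherian.noetherian p) (IsLocalRing.maximalIdeal_le_jacobson _) ?_
      intro w hw
      have h1 : Ideal.Quotient.mk (Ideal.span {x}) w ∈
          Ideal.span {Ideal.Quotient.mk (Ideal.span {x}) z} := by
        rw [← hzb]
        exact Ideal.mem_map_of_mem _ hw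
      obtain ⟨ab, hab⟩ := Ideal.mem_span_singleton'.1 h1
      obtain ⟨a, rfl⟩ := Ideal.Quotient.mk_surjective ab
      rw [← map_mul] at hab
      have h2 : w - a * z ∈ Ideal.span {x} := by
        rw [← Ideal.Quotient.eq_zero_iff_mem, map_sub, hab, sub_self]
      obtain ⟨b, hb⟩ := Ideal.mem_span_singleton'.1 h2
      have h3 : b * x ∈ p := by
        rw [hb]
        exact p.sub_mem hw (p.mul_mem_left a hz)
      have h4 : b ∈ p := (hp.mem_or_mem h3).resolve_right hxp
      have h5 : w = a * z + x * b := by
        linear_combination -hb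
      rw [h5]
      apply Submodule.add_mem_sup
      · exact Ideal.mem_span_singleton'.2 ⟨a, rfl⟩
      · exact Submodule.smul_mem_smul (x_mem R x y hm) h4
    exact ⟨z, le_antisymm hle (by
      rw [Ideal.submodule_span_eq, Ideal.span_singleton_le_iff_mem]
      exact hz)⟩

end HB
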