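import Pool.Agent.HB.A.LocC
import Pool.Agent.HB.A.Reg

/-!
# HB-A-FacA: local equations on a smooth surface

Plan.
* `Pt.ufd`: `hS P` and `ufd_of_two_gen` with `P.height`.
* `PD.exists_gen`: `C.ideal P h` is a prime of height one (`PD.height_ideal`) of the factorial ring
  `O_P`, hence `(x)` with `x` prime (`UniqueFactorizationMonoid.isPrincipal_of_height_eq_one`).
  `C.1` is the localisation of `O_P` at `(x)` (`PD.ofPrime_ideal`), so `x` generates its maximal
  ideal: `x` is irreducible in `O_C` and `ordS_irreducible` gives `C.ord x = 1`.  If `D <> C` passes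
  through `P`, then `x` is not in `D.ideal P` (otherwise `(x) <= D.ideal P`, both of height one, so
  equal, `PD.ideal_inj`), so `x` is a unit in `O_D` and `ordS_unit` applies.
* `Pt.mem_iff`: `->` by `mem_iff_ordS`.  `<-`: `f = a/b` reduced
  (`IsFractionRing.exists_reduced_fraction`); if `b` is not a unit take a prime `x` dividing `b`;
  `(x)` has height one (`Ideal.height_le_one...`), so it is `C.ideal P h` for a curve
  `C` (`PD.exists_of_height_one`); `x` does not divide `a`, so `C.ord a = 0`, `C.ord b > 0`
  (`mem_maximalIdeal_iff_ordS`), contradiction.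
* `Pt.unit_iff`: `Pt.mem_iff` for `f` and `f⁻¹`, `ordS_inv`.
* `exists_isEq`: the product over `C` in `D.support` with `On P C` of `x_C ^ (D C)`, `x_C` from
  `PD.exists_gen` (`ordS_prod`, `ordS_zpow`).
* `isEq_unique`: the quotient of two local equations is a unit of `O_P`.
-/

set_option autoImplicit false

open IsLocalRing

namespace HB

universe u

namespace Surf

variable {k L : Type u} [Field k] [Field L] [Algebra k L] {S : Surf k L}
  [CharZero k] [IsAlgClosed k]

theorem Pt.ufd (hS : S.Smooth) (P : S.Pt) : UniqueFactorizationMonoid P.1.toSubring := by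
  obtain ⟨x, y, hm⟩ := hS P
  exact ufd_of_two_gen _ P.height x y hm

/-- An element of `O_P` outside the ideal of `C` is a unit of `O_C`. -/
theorem PD.inv_mem_of_not_mem (C : S.PD) (P : S.Pt) (h : On P C) {b : P.1.toSubring}
    (hb : b ∉ C.ideal P h) : (b : L) ∈ C.1.toSubring ∧ (b : L)⁻¹ ∈ C.1.toSubring := by
  refine ⟨h b.2, ?_⟩
  have h1 := (notMem_iff_inv_mem P.1.toSubring (C.ideal P h) b).1 hb
  rw [C.ofPrime_ideal P h] at h1
  exact h1.2

theorem PD.ord_eq_zero_of_not_mem (C : S.PD) (P : S.Pt) (h : On P C) {b : P.1.toSubring}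
    (hb : b ∉ C.ideal P h) : C.ord (b : L) = 0 := by
  obtain ⟨h1, h2⟩ := C.inv_mem_of_not_mem P h hb
  exact ordS_unit _ h1 h2

theorem PD.ord_pos_of_mem (C : S.PD) (P : S.Pt) (h : On P C) {b : P.1.toSubring}
    (h0 : b ≠ 0) (hb : b ∈ C.ideal P h) : 0 < C.ord (b : L) := by
  have hb0 : (b : L) ≠ 0 := fun e => h0 (Subtype.ext e)
  exact (mem_maximalIdeal_iff_ordS C.1.toSubring hb0 (h b.2)).1 hb

/-- A uniformizer of the curve `C` at the point `P`. -/
theorem PD.exists_gen (hS : S.Smooth) (C : S.PD) (P : S.Pt) (h : On P C) :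
    ∃ x : P.1.toSubring, C.ideal P h = Ideal.span {x} ∧ Prime x ∧ C.ord x = 1 ∧
      ∀ D : S.PD, On P D → D ≠ C → D.ord x = 0 := by
  have hufd := Pt.ufd hS P
  have hh := C.height_ideal P h
  have hpr : (C.ideal P h).IsPrincipal := UniqueFactorizationMonoid.isPrincipal_of_height_eq_one hh
  obtain ⟨x, hx⟩ := hpr
  have hx' : C.ideal P h = Ideal.span {x} := hx
  have hx0 : x ≠ 0 := by
    rintro rfl
    apply (C.ideal P h).ne_bot_of_height_eq_one hh
    rw [hx', Ideal.span_singleton_eq_bot]
  have hprime : Prime x := by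
    rw [← Ideal.span_singleton_prime hx0, ← hx']
    infer_instance
  refine ⟨x, hx', hprime, ?_, ?_⟩
  · have hxC : Subring.inclusion h x ∈ maximalIdeal C.1.toSubring := by
      have h1 : x ∈ C.ideal P h := by
        rw [hx']
        exact Ideal.mem_span_singleton_self x
      exact h1
    have hmax : maximalIdeal C.1.toSubring = Ideal.span {Subring.inclusion h x} := by
      apply le_antisymm
      · intro f hf
        have h1 : (f : L) ∈ (LocalSubring.ofPrime P.1.toSubring (C.ideal P h)).toSubring := by
          rw [C.ofPrime_ideal P h]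
          exact f.2
        rw [mem_ofPrime] at h1
        obtain ⟨a, b, hb, e⟩ := h1
        obtain ⟨hb1, hb2⟩ := C.inv_mem_of_not_mem P h hb
        have hb0 : (b : L) ≠ 0 := by
          intro h0
          apply hb
          have h2 : b = 0 := Subtype.ext h0
          rw [h2]
          exact Ideal.zero_mem _
        have ha : a ∈ C.ideal P h := by
          change Subring.inclusion h a ∈ maximalIdeal C.1.toSubring
          have h2 : Subring.inclusion h a = f * Subring.inclusion h b := by
            apply Subtype.ext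
            change (a : L) = (f : L) * (b : L)
            rw [e]
            field_simp
          rw [h2]
          exact Ideal.mul_mem_right _ _ hf
        rw [hx', Ideal.mem_span_singleton] at ha
        obtain ⟨c, hc⟩ := ha
        rw [Ideal.mem_span_singleton]
        refine ⟨Subring.inclusion h c * ⟨(b : L)⁻¹, hb2⟩, ?_⟩
        apply Subtype.ext
        change (f : L) = (x : L) * ((c : L) * (b : L)⁻¹)
        rw [e, hc]
        push_cast
        field_simp
      · rw [Ideal.span_singleton_le_iff_mem]
        exact hxC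
    have hirr : Irreducible (Subring.inclusion h x) :=
      (IsDiscreteValuationRing.irreducible_iff_uniformizer _).2 hmax
    exact ordS_irreducible C.1.toSubring hirr
  · intro D hD hne
    apply D.ord_eq_zero_of_not_mem P hD
    intro hmem
    apply hne
    have hle : C.ideal P h ≤ D.ideal P hD := by
      rw [hx', Ideal.span_singleton_le_iff_mem]
      exact hmem
    have heq : D.ideal P hD = C.ideal P h := by
      have h3 := (D.ideal P hD).eq_span_singleton_of_height_eq_one (D.height_ideal P hD)
        hmem hprime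
      rw [h3, hx']
    exact D.ideal_inj C P hD h heq

theorem Pt.mem_iff (hS : S.Smooth) (P : S.Pt) {f : L} (hf : f ≠ 0) :
    f ∈ P.1.toSubring ↔ ∀ C : S.PD, On P C → 0 ≤ C.ord f := by
  have hufd := Pt.ufd hS P
  constructor
  · intro h C hC
    exact (mem_iff_ordS C.1.toSubring hf).1 (hC h)
  · intro h
    obtain ⟨a, b, hab, e⟩ := IsFractionRing.exists_reduced_fraction (A := P.1.toSubring) f
    rw [IsFractionRing.mk'_eq_div] at e
    have hb0 : (b : P.1.toSubring) ≠ 0 := nonZeroDivisors.coe_ne_zero b
    have e' : (a : L) / ((b : P.1.toSubring) : L) = f := e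
    have hbL : ((b : P.1.toSubring) : L) ≠ 0 := fun e => hb0 (Subtype.ext e)
    have haL : (a : L) ≠ 0 := by
      intro h0
      rw [h0, zero_div] at e'
      exact hf e'.symm
    by_cases hu : IsUnit (b : P.1.toSubring)
    · obtain ⟨c, hc⟩ := isUnit_iff_exists_inv.1 hu
      have hc' : ((b : P.1.toSubring) : L) * (c : L) = 1 := congrArg Subtype.val hc
      have h1 : f = (a : L) * (c : L) := by
        rw [← e', div_eq_iff hbL]
        linear_combination -(a : L) * hc'
      rw [h1]
      exact P.1.toSubring.mul_mem a.2 c.2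
    · exfalso
      obtain ⟨x, hx, hxb⟩ := WfDvdMonoid.exists_irreducible_factor hu hb0
      have hxp : Prime x := hx.prime
      have hprime : (Ideal.span {x}).IsPrime := (Ideal.span_singleton_prime hxp.ne_zero).2 hxp
      have hh : (Ideal.span {x}).height = 1 :=
        Ideal.height_span_singleton_eq_one_of_mem_nonZeroDivisors
          (mem_nonZeroDivisors_of_ne_zero hxp.ne_zero) hx.not_isUnit
      obtain ⟨C, hC, hCx⟩ := PD.exists_of_height_one P (Ideal.span {x}) hh
      have ha : a ∉ C.ideal P hC := by
        rw [hCx, Ideal.mem_span_singleton]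
        intro hxa
        exact hx.not_isUnit (hab hxa hxb)
      have hb : (b : P.1.toSubring) ∈ C.ideal P hC := by
        rw [hCx, Ideal.mem_span_singleton]
        exact hxb
      have h1 := C.ord_eq_zero_of_not_mem P hC ha
      have h2 := C.ord_pos_of_mem P hC hb0 hb
      have h3 := h C hC
      rw [← e', PD.ord, ordS_div C.1.toSubring haL hbL] at h3
      change C.ord _ = 0 at h1
      unfold PD.ord at h1 h2
      omega

theorem Pt.unit_iff (hS : S.Smooth) (P : S.Pt) {f : L} (hf : f ≠ 0) :
    (f ∈ P.1.toSubring ∧ f⁻¹ ∈ P.1.toSubring) ↔ ∀ C : S.PD, On P C → C.ord f = 0 := by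
  rw [Pt.mem_iff hS P hf, Pt.mem_iff hS P (inv_ne_zero hf)]
  constructor
  · rintro ⟨h1, h2⟩ C hC
    have h3 := h1 C hC
    have h4 := h2 C hC
    unfold PD.ord at *
    rw [ordS_inv] at h4
    omega
  · intro h
    refine ⟨fun C hC => (h C hC).ge, fun C hC => ?_⟩
    have h3 := h C hC
    unfold PD.ord at *
    rw [ordS_inv]
    omega

theorem exists_isEq (hS : S.Smooth) (D : S.Div) (P : S.Pt) : ∃ f : L, S.IsEq D P f := by
  classical
  let x : S.PD → L := fun C => if h : On P C then (((C.exists_gen hS P h).choose : P.1.toSubring) : L)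
    else 1
  have hx0 : ∀ C, x C ≠ 0 := by
    intro C
    by_cases h : On P C
    · have h1 := (C.exists_gen hS P h).choose_spec.2.1.ne_zero
      simp only [x, dif_pos h]
      intro h2
      exact h1 (Subtype.ext h2)
    · simp only [x, dif_neg h]
      exact one_ne_zero
  have hxo : ∀ C C', On P C' → C'.ord (x C) = if C = C' then (if On P C then 1 else 0) else 0 := by
    intro C C' hC'
    by_cases h : On P C
    · simp only [x, dif_pos h, if_pos h]
      by_cases e : C = C'
      · subst e
        rw [if_pos rfl]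
        exact (C.exists_gen hS P h).choose_spec.2.2.1
      · rw [if_neg e]
        exact (C.exists_gen hS P h).choose_spec.2.2.2 C' hC' (fun h => e h.symm)
    · simp only [x, dif_neg h, if_neg h, ite_self]
      exact ordS_one _
  refine ⟨∏ C ∈ D.support, x C ^ (D C), ?_, ?_⟩
  · exact Finset.prod_ne_zero_iff.2 fun C _ => zpow_ne_zero _ (hx0 C)
  · intro C' hC'
    have h1 : ∀ s : Finset S.PD, C'.ord (∏ C ∈ s, x C ^ (D C)) = ∑ C ∈ s, D C * C'.ord (x C) := by
      intro s
      induction s using Finset.induction_on with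
      | empty =>
        rw [Finset.prod_empty, Finset.sum_empty]
        exact ordS_one C'.1.toSubring
      | insert a s ha ih =>
        rw [Finset.prod_insert ha, Finset.sum_insert ha, ← ih]
        unfold PD.ord
        rw [ordS_mul C'.1.toSubring (zpow_ne_zero _ (hx0 a))
          (Finset.prod_ne_zero_iff.2 fun C _ => zpow_ne_zero _ (hx0 C)), ordS_zpow]
    rw [h1, Finset.sum_eq_single C']
    · rw [hxo C' C' hC', if_pos rfl, if_pos hC', mul_one]
    · intro C _ hne
      rw [hxo C C' hC', if_neg hne, mul_zero]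
    · intro h2
      rw [Finsupp.notMem_support_iff.1 h2, zero_mul]

theorem isEq_unique (hS : S.Smooth) {D : S.Div} {P : S.Pt} {f g : L} (hf : S.IsEq D P f)
    (hg : S.IsEq D P g) : f / g ∈ P.1.toSubring ∧ g / f ∈ P.1.toSubring := by
  have h1 : ∀ C : S.PD, On P C → C.ord (f / g) = 0 := by
    intro C hC
    have h2 := hf.2 C hC
    have h3 := hg.2 C hC
    unfold PD.ord at *
    rw [ordS_div C.1.toSubring hf.1 hg.1, h2, h3, sub_self]
  have h4 := (Pt.unit_iff hS P (div_ne_zero hf.1 hg.1)).2 h1
  rwa [inv_div] at h4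

theorem isEq_mul {D D' : S.Div} {P : S.Pt} {f g : L} (hf : S.IsEq D P f)
    (hg : S.IsEq D' P g) : S.IsEq (D + D') P (f * g) := by
  refine ⟨mul_ne_zero hf.1 hg.1, fun C hC => ?_⟩
  have h2 := hf.2 C hC
  have h3 := hg.2 C hC
  unfold PD.ord at *
  rw [ordS_mul C.1.toSubring hf.1 hg.1, h2, h3]
  rfl

theorem isEq_inv {D : S.Div} {P : S.Pt} {f : L} (hf : S.IsEq D P f) :
    S.IsEq (-D) P f⁻¹ := by
  refine ⟨inv_ne_zero hf.1, fun C hC => ?_⟩
  have h2 := hf.2 C hC
  unfold PD.ord at *
  rw [ordS_inv, h2]
  rfl

end Surf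

end HB
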