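import Pool.Agent.HB.A.LocA

/-!
# HB-A-ResA: the restriction map `C.res`

Plan.  `C.res f` is the residue of `f` if `f` is in `O_C`, and `0` otherwise; unfold.
-/

set_option autoImplicit false

open IsLocalRing

namespace HB

universe u

namespace Surf

variable {k L : Type u} [Field k] [Field L] [Algebra k L] {S : Surf k L}

theorem PD.res_of_mem (C : S.PD) {f : L} (hf : f ∈ C.1.toSubring) :
    C.res f = residue C.1.toSubring ⟨f, hf⟩ := by
  unfold PD.res
  rw [dif_pos hf]

theorem PD.res_mul (C : S.PD) {f g : L} (hf : f ∈ C.1.toSubring) (hg : g ∈ C.1.toSubring) :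
    C.res (f * g) = C.res f * C.res g := by
  rw [C.res_of_mem hf, C.res_of_mem hg, C.res_of_mem (mul_mem hf hg), ← map_mul]
  rfl

theorem PD.res_add (C : S.PD) {f g : L} (hf : f ∈ C.1.toSubring) (hg : g ∈ C.1.toSubring) :
    C.res (f + g) = C.res f + C.res g := by
  rw [C.res_of_mem hf, C.res_of_mem hg, C.res_of_mem (add_mem hf hg), ← map_add]
  rfl

theorem PD.res_sub (C : S.PD) {f g : L} (hf : f ∈ C.1.toSubring) (hg : g ∈ C.1.toSubring) :
    C.res (f - g) = C.res f - C.res g := by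
  rw [C.res_of_mem hf, C.res_of_mem hg, C.res_of_mem (sub_mem hf hg), ← map_sub]
  rfl

theorem PD.res_one (C : S.PD) : C.res 1 = 1 := by
  rw [C.res_of_mem (one_mem _)]
  exact map_one (residue C.1.toSubring)

theorem PD.res_algebraMap (C : S.PD) (c : k) : C.res (algebraMap k L c) = algebraMap k C.kap c := by
  have h : algebraMap k L c ∈ C.1.toSubring := (algebraMap k C.1.toSubring c).2
  rw [C.res_of_mem h]
  rfl

theorem PD.res_inv (C : S.PD) {f : L} (hf : f ∈ C.1.toSubring) (hf' : f⁻¹ ∈ C.1.toSubring) :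
    C.res f⁻¹ = (C.res f)⁻¹ := by
  by_cases h0 : f = 0
  · subst h0
    have h : C.res (0 : L) = 0 := by
      rw [C.res_of_mem (zero_mem _)]
      exact map_zero (residue C.1.toSubring)
    rw [inv_zero, h, inv_zero]
  · symm
    apply inv_eq_of_mul_eq_one_right
    rw [← C.res_mul hf hf', mul_inv_cancel₀ h0, C.res_one]

theorem PD.res_ne_zero_iff (C : S.PD) {f : L} (h0 : f ≠ 0) :
    C.res f ≠ 0 ↔ f ∈ C.1.toSubring ∧ f⁻¹ ∈ C.1.toSubring := by
  constructor
  · intro h
    by_cases hf : f ∈ C.1.toSubring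
    · refine ⟨hf, ?_⟩
      rw [C.res_of_mem hf, residue_ne_zero_iff_isUnit] at h
      obtain ⟨u, hu⟩ := isUnit_iff_exists_inv.1 h
      have h2 : f * (u : L) = 1 := congrArg Subtype.val hu
      have h3 : f⁻¹ = (u : L) := inv_eq_of_mul_eq_one_right h2
      rw [h3]
      exact u.2
    · exfalso
      apply h
      unfold PD.res
      rw [dif_neg hf]
  · rintro ⟨hf, hf'⟩ h
    have h1 : C.res f * C.res f⁻¹ = 1 := by
      rw [← C.res_mul hf hf', mul_inv_cancel₀ h0, C.res_one]
    rw [h, zero_mul] at h1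
    exact zero_ne_one h1

theorem PD.res_ne_zero_iff_ord [CharZero k] [IsAlgClosed k] (C : S.PD) {f : L} (h0 : f ≠ 0) :
    C.res f ≠ 0 ↔ C.ord f = 0 := by
  rw [C.res_ne_zero_iff h0, mem_iff_ordS C.1.toSubring h0,
    mem_iff_ordS C.1.toSubring (inv_ne_zero h0), ordS_inv]
  unfold PD.ord
  constructor
  · rintro ⟨h1, h2⟩
    omega
  · intro h
    rw [h]
    exact ⟨le_rfl, by simp⟩

theorem PD.exists_res_eq [CharZero k] [IsAlgClosed k] (C : S.PD) (g : C.kap) (hg : g ≠ 0) :
    ∃ f : L, f ≠ 0 ∧ C.ord f = 0 ∧ C.res f = g := by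
  obtain ⟨x, hx⟩ := residue_surjective (R := C.1.toSubring) g
  have h1 : C.res (x : L) = g := by
    rw [C.res_of_mem x.2]
    exact hx
  have h0 : (x : L) ≠ 0 := by
    intro h
    apply hg
    rw [← hx]
    have h2 : x = 0 := Subtype.ext h
    rw [h2, map_zero]
  refine ⟨x, h0, ?_, h1⟩
  rw [← C.res_ne_zero_iff_ord h0, h1]
  exact hg

end Surf

end HB
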