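import Pool.Agent.HB.A.CurveA
import Pool.Agent.HB.A.FacA
import Pool.Agent.HB.A.ResA

/-!
# HB-A-CurveB: local intersection numbers, symmetry

Plan.
* `ordS_res`: `R = C.loc P` is noetherian of dimension `<= 1` with fraction field `kap`
  (`CurveA`), and `a = C.res f` is the image of `f` under the surjection `toLoc`, nonzero; by
  `ordS_of_mem` the left hand side is the length over `R` of `R/(a)`.  The kernel of
  `toLoc` is `(g)`, so `R/(a)` is `O_P/(g, f)`; the submodules over `R` and over
  `O_P` are the same (surjective ring map), so the lengths agree (`Module.length_eq_of_equiv`-like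
  lemmas; the lattice of submodules; search `Module.length` and `restrictScalars`, or argue with
  `Order.krullDim` of the lattices of submodules: an order isomorphism between ideals of `R/(a)` and
  ideals of `O_P/(g,f)`, e.g. through `Ideal.comap` along ring isomorphisms).
* `ordS_res_comm`: apply `ordS_res` to both sides, the ideals `(f, g)` and `(g, f)` are equal; `g` is not
  in `C.ideal P hC = (f)` because `C <> D` (both primes have height one; `PD.ideal_inj`).
* `ordS_res_eq_zero`: a unit of `O_P` restricts to a unit of `C.loc P`: `ordS_unit`.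
* `ordS_res_pos`: if `f` is in the maximal ideal of `O_P` and not zero on `C`, its restriction is in
  the maximal ideal of `C.loc P`, `ordS_pos_iff`.
-/

set_option autoImplicit false

open IsLocalRing

namespace HB

universe u

namespace Surf

variable {k L : Type u} [Field k] [Field L] [Algebra k L] {S : Surf k L}
  [CharZero k] [IsAlgClosed k]

private theorem length_aux {A R : Type u} [CommRing A] [CommRing R] (φ : A →+* R)
    (hφ : Function.Surjective φ) (f g : A) (hker : RingHom.ker φ = Ideal.span {g}) :
    Module.length R (R ⧸ Ideal.span {φ f}) = Module.length A (A ⧸ Ideal.span {g, f}) := by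
  let _ : Algebra A R := φ.toAlgebra
  rw [← Module.length_eq_of_surjective (S := A) (R := R) (M := R ⧸ Ideal.span {φ f}) hφ]
  let ψ : A →ₗ[A] (R ⧸ Ideal.span {φ f}) :=
    (Ideal.Quotient.mkₐ A (Ideal.span {φ f})).toLinearMap ∘ₗ Algebra.linearMap A R
  have hψ : Function.Surjective ψ := by
    intro y
    obtain ⟨r, rfl⟩ := Ideal.Quotient.mk_surjective y
    obtain ⟨a, rfl⟩ := hφ r
    exact ⟨a, rfl⟩
  have hk : LinearMap.ker ψ = Ideal.span {g, f} := by
    ext x
    rw [LinearMap.mem_ker]
    change Ideal.Quotient.mk (Ideal.span {φ f}) (φ x) = 0 ↔ _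
    rw [Ideal.Quotient.eq_zero_iff_mem, Ideal.mem_span_singleton', Ideal.mem_span_pair]
    constructor
    · rintro ⟨r, hr⟩
      obtain ⟨a, rfl⟩ := hφ r
      have h1 : x - a * f ∈ RingHom.ker φ := by
        rw [RingHom.mem_ker, map_sub, map_mul, hr, sub_self]
      rw [hker, Ideal.mem_span_singleton'] at h1
      obtain ⟨b, hb⟩ := h1
      exact ⟨b, a, by rw [hb]; ring⟩
    · rintro ⟨b, a, rfl⟩
      refine ⟨φ a, ?_⟩
      have h1 : φ g = 0 := by
        rw [← RingHom.mem_ker, hker]
        exact Ideal.mem_span_singleton_self g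
      rw [map_add, map_mul, map_mul, h1, mul_zero, zero_add]
  exact ((Submodule.quotEquivOfEq _ _ hk).symm.trans
    (ψ.quotKerEquivOfSurjective hψ)).symm.length_eq

private theorem mem_ideal_iff (C : S.PD) (P : S.Pt) (h : On P C) (x : P.1.toSubring) :
    x ∈ C.ideal P h ↔ C.res (x : L) = 0 := by
  rw [← ker_toLoc, RingHom.mem_ker, ← coe_toLoc C P h]
  constructor
  · intro h0
    rw [h0]
    rfl
  · intro h0
    exact Subtype.ext h0

/-- The order on the curve of a function from the local ring of the surface is the length of a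
quotient of the local ring of the surface. -/
theorem PD.ordS_res (C : S.PD) (P : S.Pt) (h : On P C) (f : P.1.toSubring) (g : P.1.toSubring)
    (hg : C.ideal P h = Ideal.span {g}) (hf : f ∉ C.ideal P h) :
    ordS (C.loc P) (C.res f) =
      ((Module.length P.1.toSubring (P.1.toSubring ⧸ Ideal.span {g, f})).toNat : ℤ) := by
  have := C.loc_noeth P h
  have := C.loc_dim P h
  have := C.loc_frac P h
  have h0 : C.res (f : L) ≠ 0 := fun h0 => hf ((mem_ideal_iff C P h f).mpr h0)
  have hmem : C.res (f : L) ∈ C.loc P := C.res_mem_loc P h f.2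
  rw [ordS_of_mem (C.loc P) hmem h0]
  have h1 : (⟨C.res (f : L), hmem⟩ : C.loc P) = S.toLoc C P h f :=
    Subtype.ext (coe_toLoc C P h f).symm
  rw [h1]
  unfold Ring.ord
  rw [length_aux (S.toLoc C P h) (toLoc_surjective C P h) f g ((ker_toLoc C P h).trans hg)]

/-- Symmetry of the local intersection numbers. -/
theorem ordS_res_comm (C D : S.PD) (hCD : C ≠ D) (P : S.Pt) (hC : On P C) (hD : On P D)
    (f g : P.1.toSubring) (hf : C.ideal P hC = Ideal.span {f})
    (hg : D.ideal P hD = Ideal.span {g}) :
    ordS (C.loc P) (C.res g) = ordS (D.loc P) (D.res f) := by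
  have key : ∀ (C D : S.PD) (_ : C ≠ D) (hC : On P C) (hD : On P D) (f g : P.1.toSubring)
      (_ : C.ideal P hC = Ideal.span {f}) (_ : D.ideal P hD = Ideal.span {g}),
      g ∉ C.ideal P hC := by
    intro C D hCD hC hD f g hf hg hmem
    apply hCD
    have hle : D.ideal P hD ≤ C.ideal P hC := by
      rw [hg, Ideal.span_le, Set.singleton_subset_iff]
      exact hmem
    have heq : D.ideal P hD = C.ideal P hC := by
      by_contra hne
      have hlt := Ideal.height_strict_mono_of_isPrime_of_isPrime (lt_of_le_of_ne hle hne)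
      rw [C.height_ideal, D.height_ideal] at hlt
      exact lt_irrefl _ hlt
    exact (PD.ideal_inj D C P hD hC heq).symm
  rw [C.ordS_res P hC g f hf (key C D hCD hC hD f g hf hg),
    D.ordS_res P hD f g hg (key D C hCD.symm hD hC g f hg hf), Set.pair_comm]

theorem PD.ordS_res_eq_zero (C : S.PD) (P : S.Pt) (h : On P C) {f : L} (hf : f ∈ P.1.toSubring)
    (hf' : f⁻¹ ∈ P.1.toSubring) : ordS (C.loc P) (C.res f) = 0 := by
  have := C.loc_noeth P h
  have := C.loc_dim P h
  have := C.loc_frac P h
  apply ordS_unit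
  · exact C.res_mem_loc P h hf
  · rw [← C.res_inv (h hf) (h hf')]
    exact C.res_mem_loc P h hf'

theorem PD.ordS_res_nonneg (C : S.PD) (P : S.Pt) (h : On P C) {f : L}
    (hf : f ∈ P.1.toSubring) : 0 ≤ ordS (C.loc P) (C.res f) := by
  have := C.loc_noeth P h
  have := C.loc_dim P h
  have := C.loc_frac P h
  exact ordS_nonneg _ (C.res_mem_loc P h hf)

theorem PD.ordS_res_pos (C : S.PD) (P : S.Pt) (h : On P C) (f : P.1.toSubring)
    (hf : f ∈ maximalIdeal P.1.toSubring) (h0 : C.res f ≠ 0) :
    0 < ordS (C.loc P) (C.res f) := by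
  have := C.loc_noeth P h
  have := C.loc_dim P h
  have := C.loc_frac P h
  have := C.loc_local P h
  rw [ordS_pos_iff (C.loc P) (C.res_mem_loc P h f.2) h0]
  have h1 : (⟨C.res (f : L), C.res_mem_loc P h f.2⟩ : C.loc P) = S.toLoc C P h f :=
    Subtype.ext (coe_toLoc C P h f).symm
  rw [h1, mem_maximalIdeal, mem_nonunits_iff]
  intro hu
  have hloc := IsLocalHom.of_surjective (S.toLoc C P h) (toLoc_surjective C P h)
  have h2 : IsUnit f := isUnit_of_map_unit (S.toLoc C P h) f hu
  exact ((mem_maximalIdeal f).mp hf) h2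

theorem PD.ordS_loc_mul (C : S.PD) (P : S.Pt) (h : On P C) {f g : C.kap} (hf : f ≠ 0)
    (hg : g ≠ 0) : ordS (C.loc P) (f * g) = ordS (C.loc P) f + ordS (C.loc P) g := by
  have := C.loc_noeth P h
  have := C.loc_dim P h
  have := C.loc_frac P h
  exact ordS_mul _ hf hg

theorem PD.ordS_loc_inv (C : S.PD) (P : S.Pt) (h : On P C) (f : C.kap) :
    ordS (C.loc P) f⁻¹ = - ordS (C.loc P) f := by
  have := C.loc_noeth P h
  have := C.loc_dim P h
  have := C.loc_frac P h
  exact ordS_inv _ f

end Surf

end HB
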