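import Pool.Agent.HB.A.LocC

/-!
# HB-A-FacB: divisors of functions and of sections

Plan.
* `finite_ord_ne_zero`: every `C` contains the chart of some `l` in `{1, s, t}`
  (`PD.exists_chart`), so it is enough to bound the `C` which contain a fixed chart `A = S.chart l`.
  Write `f = a/b` with `a, b` in `A` nonzero (`S.chart_frac`).  `C.1 = ofPrime A p` with `p` of
  height one (`PD.ofPrime_of_chart`); if `C.ord f <> 0` then `a` or `b` is in `p` (otherwise both are
  units of `O_C`).  A prime of height one containing `a b <> 0` is a minimal prime over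
  `(a b)`, and there are finitely many of those (`Ideal.finite_minimalPrimes_of_isNoetherianRing`,
  `S.chart_noeth`); `C` is determined by `p`.
* `exists_isDiv`: `Finsupp.ofSupportFinite`.
* `exists_isSec`: if two charts `m, m'` are contained in `O_C` then `m/m'` is a unit of `O_C`
  (`S.div_mem_chart`), so `C.ord (l/m)` does not depend on `m`.  Take for every `C` an `m` in
  `{1, s, t}`; the support is finite by `finite_ord_ne_zero` for the three functions `l/m`.
* `isSec_hyp`: from `exists_isSec` with `l = 1` and the definition of `hyp`.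
* `isSec_nonneg`: `l/m` is in `S.chart m <= O_C`.
* `linEq_of_isSec`: the function `l/l'`.
* `isEq_of_isSec`: a curve through `P` contains `S.chart m`.
-/

set_option autoImplicit false

open IsLocalRing

namespace HB

universe u

namespace Surf

variable {k L : Type u} [Field k] [Field L] [Algebra k L] {S : Surf k L}
  [CharZero k] [IsAlgClosed k]

private theorem finite_aux {l : L} (hl : l ∈ S.V) (h0 : l ≠ 0) {f : L} (hf : f ≠ 0) :
    {C : S.PD | S.chart l ≤ C.1.toSubring ∧ C.ord f ≠ 0}.Finite := by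
  have := S.chart_noeth hl h0
  have := S.chart_frac hl h0
  obtain ⟨a, b, hb, hab⟩ := IsFractionRing.div_surjective (A := S.chart l) f
  have hb0 : b ≠ 0 := nonZeroDivisors.ne_zero hb
  have ha0 : a ≠ 0 := by
    rintro rfl
    apply hf
    rw [← hab, map_zero, zero_div]
  have haL : (a : L) ≠ 0 := fun h => ha0 (Subtype.ext h)
  have hbL : (b : L) ≠ 0 := fun h => hb0 (Subtype.ext h)
  have hfin : (Ideal.span {a * b}).minimalPrimes.Finite :=
    Ideal.finite_minimalPrimes_of_isNoetherianRing (S.chart l) (Ideal.span {a * b})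
  refine Set.Finite.subset (hfin.biUnion (t := fun p => {C : S.PD | ∃ (_ : p.IsPrime),
    C.1 = LocalSubring.ofPrime (S.chart l) p}) ?_) ?_
  · intro p _
    refine Set.Subsingleton.finite ?_
    rintro C ⟨_, hC⟩ D ⟨_, hD⟩
    exact Subtype.ext (hC.trans hD.symm)
  · rintro C ⟨hC, hC'⟩
    obtain ⟨p, hp, hph, e⟩ := C.ofPrime_of_chart hl h0 hC
    refine Set.mem_biUnion (x := p) ?_ ⟨hp, e⟩
    have hmem : a * b ∈ p := by
      by_contra hn
      have ha : a ∉ p := fun h => hn (p.mul_mem_right _ h)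
      have hb : b ∉ p := fun h => hn (p.mul_mem_left _ h)
      rw [notMem_iff_inv_mem, ← e] at ha hb
      apply hC'
      have h1 : ordS C.1.toSubring (a : L) = 0 := ordS_unit _ (hC a.2) ha.2
      have h2 : ordS C.1.toSubring (b : L) = 0 := ordS_unit _ (hC b.2) hb.2
      rw [← hab]
      show ordS C.1.toSubring ((a : L) / (b : L)) = 0
      rw [ordS_div C.1.toSubring haL hbL, h1, h2, sub_zero]
    obtain ⟨q, hq, hqp⟩ := Ideal.exists_minimalPrimes_le
      ((Ideal.span_singleton_le_iff_mem p).2 hmem)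
    have hqP : q.IsPrime := hq.1.1
    have hqb : q ≠ ⊥ := by
      intro h
      have h1 : a * b ∈ q := (Ideal.span_singleton_le_iff_mem q).1 hq.1.2
      rw [h, Ideal.mem_bot] at h1
      exact mul_ne_zero ha0 hb0 h1
    have : q = p := by
      by_contra hne
      have hlt : q < p := lt_of_le_of_ne hqp hne
      have h1 := Ideal.height_strict_mono_of_isPrime hlt
      rw [hph] at h1
      have h2 : q.height = 0 := by simpa using h1
      rw [Ideal.height_eq_zero_iff_eq_bot] at h2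
      exact hqb h2
    rw [← this]
    exact hq

theorem finite_ord_ne_zero {f : L} (hf : f ≠ 0) : {C : S.PD | C.ord f ≠ 0}.Finite := by
  have h1 : ∀ l ∈ ({1, S.s, S.t} : Set L),
      {C : S.PD | S.chart l ≤ C.1.toSubring ∧ C.ord f ≠ 0}.Finite := by
    intro l hl
    obtain ⟨h1, h2⟩ := ne_zero_of_mem hl
    exact finite_aux h1 h2 hf
  have h2 : ({1, S.s, S.t} : Set L).Finite := by simp
  refine (h2.biUnion h1).subset ?_
  intro C hC
  obtain ⟨l, hl, hlC⟩ := C.exists_chart
  exact Set.mem_biUnion hl ⟨hlC, hC⟩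

theorem exists_isDiv {f : L} (hf : f ≠ 0) : ∃ D : S.Div, S.IsDiv f D := by
  refine ⟨Finsupp.ofSupportFinite (fun C => C.ord f) (finite_ord_ne_zero hf), hf, ?_⟩
  intro C
  rfl

/-- The order of the section `l` along `C` does not depend on the generator. -/
private theorem ord_gen (C : S.PD) {l m m' : L} (h0 : l ≠ 0) (hm : m ∈ S.V) (m0 : m ≠ 0)
    (hm' : m' ∈ S.V) (m0' : m' ≠ 0) (hC : S.chart m ≤ C.1.toSubring)
    (hC' : S.chart m' ≤ C.1.toSubring) : C.ord (l / m) = C.ord (l / m') := by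
  have h1 : ordS C.1.toSubring (m' / m) = 0 := by
    refine ordS_unit _ (hC (S.div_mem_chart hm')) ?_
    rw [inv_div]
    exact hC' (S.div_mem_chart hm)
  have h2 : l / m = (l / m') * (m' / m) := by
    field_simp
  unfold PD.ord
  rw [h2, ordS_mul C.1.toSubring (div_ne_zero h0 m0') (div_ne_zero m0' m0), h1, add_zero]

theorem exists_isSec {l : L} (hl : l ∈ S.V) (h0 : l ≠ 0) : ∃ D : S.Div, S.IsSec l D := by
  choose μ hμ hμC using fun C : S.PD => C.exists_chart
  have hfin : {C : S.PD | C.ord (l / μ C) ≠ 0}.Finite := by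
    have h2 : ({1, S.s, S.t} : Set L).Finite := by simp
    refine (h2.biUnion (t := fun m => {C : S.PD | C.ord (l / m) ≠ 0}) ?_).subset ?_
    · intro m hm
      exact finite_ord_ne_zero (div_ne_zero h0 (ne_zero_of_mem hm).2)
    · intro C hC
      exact Set.mem_biUnion (hμ C) hC
  refine ⟨Finsupp.ofSupportFinite (fun C => C.ord (l / μ C)) hfin, hl, h0, ?_⟩
  intro C m hm m0 hC
  exact ord_gen C h0 (ne_zero_of_mem (hμ C)).1 (ne_zero_of_mem (hμ C)).2 hm m0 (hμC C) hC

theorem isSec_hyp (S : Surf k L) : S.IsSec 1 S.hyp := by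
  have h : ∃ D, S.IsSec 1 D := exists_isSec S.one_mem_V one_ne_zero
  unfold hyp
  rw [dif_pos h]
  exact h.choose_spec

theorem isSec_nonneg {l : L} {D : S.Div} (h : S.IsSec l D) : 0 ≤ D := by
  intro C
  obtain ⟨m, hm, hmC⟩ := C.exists_chart
  obtain ⟨h1, h2⟩ := ne_zero_of_mem hm
  rw [h.2.2 C m h1 h2 hmC]
  exact ordS_nonneg _ (hmC (S.div_mem_chart h.1))

/-- Two sections define linearly equivalent divisors. -/
theorem linEq_of_isSec {l l' : L} {D D' : S.Div} (h : S.IsSec l D) (h' : S.IsSec l' D') :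
    S.LinEq D D' := by
  refine ⟨l / l', div_ne_zero h.2.1 h'.2.1, ?_⟩
  intro C
  obtain ⟨m, hm, hmC⟩ := C.exists_chart
  obtain ⟨h1, h2⟩ := ne_zero_of_mem hm
  rw [Finsupp.sub_apply, h.2.2 C m h1 h2 hmC, h'.2.2 C m h1 h2 hmC]
  have h3 : l / l' = (l / m) / (l' / m) := by
    have := h'.2.1
    field_simp
  rw [h3]
  unfold PD.ord
  rw [ordS_div C.1.toSubring (div_ne_zero h.2.1 h2) (div_ne_zero h'.2.1 h2)]

/-- A local equation of the divisor of the section `l` at `P` is `l/m` if `m` generates. -/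
theorem isEq_of_isSec {l : L} {D : S.Div} (h : S.IsSec l D) (P : S.Pt) {m : L} (hm : m ∈ S.V)
    (m0 : m ≠ 0) (hP : S.chart m ≤ P.1.toSubring) : S.IsEq D P (l / m) :=
  ⟨div_ne_zero h.2.1 m0, fun C hC => (h.2.2 C m hm m0 (hP.trans hC)).symm⟩

theorem isDiv_mul {f g : L} {D E : S.Div} (hf : S.IsDiv f D) (hg : S.IsDiv g E) :
    S.IsDiv (f * g) (D + E) := by
  refine ⟨mul_ne_zero hf.1 hg.1, fun C => ?_⟩
  rw [Finsupp.add_apply, hf.2, hg.2]
  exact (ordS_mul C.1.toSubring hf.1 hg.1).symm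

theorem isDiv_inv {f : L} {D : S.Div} (hf : S.IsDiv f D) : S.IsDiv f⁻¹ (-D) := by
  refine ⟨inv_ne_zero hf.1, fun C => ?_⟩
  rw [Finsupp.neg_apply, hf.2]
  exact (ordS_inv C.1.toSubring f).symm

theorem isDiv_zpow {f : L} {D : S.Div} (hf : S.IsDiv f D) (n : ℤ) : S.IsDiv (f ^ n) (n • D) := by
  refine ⟨zpow_ne_zero n hf.1, fun C => ?_⟩
  rw [Finsupp.smul_apply, hf.2, smul_eq_mul]
  exact (ordS_zpow C.1.toSubring f n).symm

theorem linEq_refl (D : S.Div) : S.LinEq D D := by
  refine ⟨1, one_ne_zero, fun C => ?_⟩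
  rw [sub_self]
  exact (ordS_one C.1.toSubring).symm

theorem linEq_symm {D E : S.Div} (h : S.LinEq D E) : S.LinEq E D := by
  obtain ⟨f, hf⟩ := h
  refine ⟨f⁻¹, ?_⟩
  rw [← neg_sub D E]
  exact isDiv_inv hf

theorem linEq_trans {D E F : S.Div} (h : S.LinEq D E) (h' : S.LinEq E F) : S.LinEq D F := by
  obtain ⟨f, hf⟩ := h
  obtain ⟨g, hg⟩ := h'
  refine ⟨f * g, ?_⟩
  rw [← sub_add_sub_cancel D E F]
  exact isDiv_mul hf hg

theorem linEq_add {D E D' E' : S.Div} (h : S.LinEq D E) (h' : S.LinEq D' E') :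
    S.LinEq (D + D') (E + E') := by
  obtain ⟨f, hf⟩ := h
  obtain ⟨g, hg⟩ := h'
  refine ⟨f * g, ?_⟩
  rw [add_sub_add_comm]
  exact isDiv_mul hf hg

theorem linEq_neg {D E : S.Div} (h : S.LinEq D E) : S.LinEq (-D) (-E) := by
  obtain ⟨f, hf⟩ := h
  refine ⟨f⁻¹, ?_⟩
  have h1 : -D - -E = -(D - E) := by abel
  rw [h1]
  exact isDiv_inv hf

end Surf

end HB
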