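import Pool.Agent.HB.A.LocC

/-!
# HB-A-LocD: points on curves, centres of valuation rings

Plan.
* `PD.exists_on`: `C` is the localisation of `A = S.chart l` at `p` (`PD.ofPrime_of_chart`), `x` is
  not in `p`.  `A` is a Jacobson ring (finite type over a field, `S.chart_ft`), so `p` is the
  intersection of the maximal ideals containing it (`Ideal.IsPrime.jacobson`...,
  `IsJacobsonRing.out`): there is a maximal `M >= p` with `x` not in `M`.  Take
  `P = ofPrime A M`; `O_P <= O_C` because an element outside `M` is outside `p`.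
* `PD.transcendental`: otherwise every element of `kap` is algebraic over `k`, so `kap = k`
  (`IsAlgClosed.algebraMap_bijective_of_isIntegral`), so `A/p` (which embeds in `kap`) is `k`, and
  `p` is maximal, of height 2 (`S.chart_height`), contradiction.
* `exists_centre`: `S.exists_chart_le_val` gives a chart `A <= R`; `q` = contraction of the maximal
  ideal of `R`.  If `q = bot` then the fraction field `L` of `A` is in `R`, `R = top`.  If `q` is
  maximal it is a closed point, dominated by `R` (`LocalSubring.le_def`).  Else its height is one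
  (`S.chart_height_one`), and the discrete valuation ring `ofPrime A q` is contained in `R`, hence
  equal to `R` (`dvr_eq_of_le`).
* `exists_pt_of_le`: for every prime divisor and every local subring: a point exists in each chart.
-/

set_option autoImplicit false

open IsLocalRing

namespace HB

universe u

namespace Surf

variable {k L : Type u} [Field k] [Field L] [Algebra k L] {S : Surf k L}
  [CharZero k] [IsAlgClosed k]

omit [CharZero k] [IsAlgClosed k] in
/-- An element of the localisation of a subring which is outside the prime ideal is a unit. -/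
theorem inv_mem_ofPrime_of_notMem {K : Type u} [Field K] (A : Subring K) (p : Ideal A) [p.IsPrime]
    {x : A} (hx : x ∉ p) : (x : K)⁻¹ ∈ (LocalSubring.ofPrime A p).toSubring := by
  rw [mem_ofPrime]
  exact ⟨1, x, hx, by simp⟩

omit [CharZero k] [IsAlgClosed k] in
theorem ofPrime_le_ofPrime {K : Type u} [Field K] (A : Subring K) (p q : Ideal A) [p.IsPrime]
    [q.IsPrime] (h : p ≤ q) :
    (LocalSubring.ofPrime A q).toSubring ≤ (LocalSubring.ofPrime A p).toSubring := by
  intro x hx
  rw [mem_ofPrime] at hx ⊢
  obtain ⟨a, b, hb, e⟩ := hx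
  exact ⟨a, b, fun h' => hb (h h'), e⟩

omit [CharZero k] [IsAlgClosed k] in
theorem notMem_of_inv_mem {K : Type u} [Field K] (A : Subring K) (p : Ideal A) [p.IsPrime]
    {x : A} (hx0 : (x : K) ≠ 0) (hx : (x : K)⁻¹ ∈ (LocalSubring.ofPrime A p).toSubring) :
    x ∉ p := by
  rw [mem_ofPrime] at hx
  obtain ⟨a, b, hb, e⟩ := hx
  have hb0 : (b : K) ≠ 0 := by
    intro h
    apply hb
    have : b = 0 := Subtype.ext h
    rw [this]
    exact p.zero_mem
  have e2 : b = a * x := by
    apply Subtype.ext
    change (b : K) = a * x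
    field_simp at e
    linear_combination e
  intro h
  exact hb (e2 ▸ p.mul_mem_left a h)

/-- For every chart containing the curve there is a closed point of the chart on the curve, and
it can be chosen outside the zeros of a function which is not zero on the curve. -/
theorem PD.exists_on (C : S.PD) {l : L} (hl : l ∈ S.V) (h0 : l ≠ 0)
    (h : S.chart l ≤ C.1.toSubring) (x : L) (hx : x ∈ S.chart l) (hx0 : x ≠ 0)
    (hx' : x⁻¹ ∈ C.1.toSubring) :
    ∃ P : S.Pt, On P C ∧ S.chart l ≤ P.1.toSubring ∧ x⁻¹ ∈ P.1.toSubring := by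
  obtain ⟨p, hp, hh, e⟩ := C.ofPrime_of_chart hl h0 h
  have := hp
  have hxp : (⟨x, hx⟩ : S.chart l) ∉ p := by
    refine notMem_of_inv_mem (S.chart l) p (x := ⟨x, hx⟩) hx0 ?_
    rw [← e]
    exact hx'
  have := S.chart_ft hl h0
  have hJ : IsJacobsonRing (S.chart l) := isJacobsonRing_of_finiteType (A := k)
  have hj : p.jacobson = p := hJ.out hp.isRadical
  have hex : ∃ M : Ideal (S.chart l), (p ≤ M ∧ M.IsMaximal) ∧ (⟨x, hx⟩ : S.chart l) ∉ M := by
    by_contra hcon
    push Not at hcon
    apply hxp
    rw [← hj, Ideal.jacobson, Ideal.mem_sInf]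
    intro M hM
    exact hcon M hM
  obtain ⟨M, ⟨hpM, hM⟩, hxM⟩ := hex
  have := hM
  have := hM.isPrime
  refine ⟨⟨LocalSubring.ofPrime (S.chart l) M, l, hl, h0, M, hM.isPrime, hM, rfl⟩, ?_, ?_, ?_⟩
  · unfold On
    rw [e]
    exact ofPrime_le_ofPrime _ _ _ hpM
  · exact LocalSubring.le_ofPrime _ _
  · exact inv_mem_ofPrime_of_notMem (S.chart l) M (x := ⟨x, hx⟩) hxM

theorem PD.exists_point (C : S.PD) : ∃ P : S.Pt, On P C := by
  obtain ⟨l, hl, h⟩ := C.exists_chart
  obtain ⟨hlV, h0⟩ := ne_zero_of_mem hl
  obtain ⟨P, hP, -, -⟩ := C.exists_on hlV h0 h 1 (one_mem _) one_ne_zero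
    (by rw [inv_one]; exact one_mem _)
  exact ⟨P, hP⟩

/-- The function field of a curve is not algebraic over `k`. -/
theorem PD.transcendental (C : S.PD) : ∃ x : C.kap, Transcendental k x := by
  by_contra hcon
  push Not at hcon
  have hsur : ∀ x : C.1.toSubring, ∃ c : k,
      x - algebraMap k C.1.toSubring c ∈ maximalIdeal C.1.toSubring := by
    intro x
    have : Algebra.IsAlgebraic k C.kap := ⟨fun y => by
      have := hcon y
      unfold Transcendental at this
      exact not_not.1 this⟩
    have : Algebra.IsIntegral k C.kap := inferInstance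
    obtain ⟨c, hc⟩ := (IsAlgClosed.algebraMap_bijective_of_isIntegral (k := k) (K := C.kap)).2
      (residue C.1.toSubring x)
    refine ⟨c, ?_⟩
    rw [← residue_eq_zero_iff, map_sub, ← hc, sub_eq_zero]
    exact IsScalarTower.algebraMap_apply k C.1.toSubring C.kap c
  obtain ⟨l, hl, h⟩ := C.exists_chart
  obtain ⟨hlV, h0⟩ := ne_zero_of_mem hl
  obtain ⟨p, hp, hh, e⟩ := C.ofPrime_of_chart hlV h0 h
  have := hp
  have hmem : ∀ a : S.chart l, (⟨(a : L), h a.2⟩ : C.1.toSubring) ∈ maximalIdeal C.1.toSubring →
      a ∈ p := by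
    intro a ha
    by_contra hap
    have h1 : (a : L)⁻¹ ∈ C.1.toSubring := by
      rw [e]
      exact inv_mem_ofPrime_of_notMem _ _ hap
    have ha0 : (a : L) ≠ 0 := by
      intro h2
      apply hap
      have : a = 0 := Subtype.ext h2
      rw [this]
      exact p.zero_mem
    have hu : IsUnit (⟨(a : L), h a.2⟩ : C.1.toSubring) :=
      IsUnit.of_mul_eq_one (⟨(a : L)⁻¹, h1⟩ : C.1.toSubring)
        (Subtype.ext (mul_inv_cancel₀ ha0))
    exact ((mem_maximalIdeal _).1 ha) hu
  have hmax : p.IsMaximal := by
    rw [Ideal.isMaximal_iff]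
    refine ⟨fun h1 => hp.ne_top ((Ideal.eq_top_iff_one _).2 h1), ?_⟩
    intro J a hpJ hap haJ
    obtain ⟨c, hc⟩ := hsur ⟨(a : L), h a.2⟩
    have hac : a - algebraMap k (S.chart l) c ∈ p := by
      apply hmem
      exact hc
    have hc0 : c ≠ 0 := by
      rintro rfl
      apply hap
      simpa using hac
    have hcJ : algebraMap k (S.chart l) c ∈ J := by
      have := J.sub_mem haJ (hpJ hac)
      simpa using this
    have : (1 : S.chart l) = algebraMap k (S.chart l) c⁻¹ * algebraMap k (S.chart l) c := by
      rw [← map_mul, inv_mul_cancel₀ hc0, map_one]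
    rw [this]
    exact J.mul_mem_left _ hcJ
  have := hmax
  have h2 := S.chart_height hlV h0 p
  rw [hh] at h2
  exact absurd h2 (by norm_num)

/-- Every valuation ring of `L/k` dominates the local ring of a closed point or is the local ring
of a prime divisor (or is `L`). -/
theorem exists_centre (S : Surf k L) (R : ValuationSubring L)
    (hk : ∀ c : k, algebraMap k L c ∈ R) (hR : R ≠ ⊤) :
    (∃ P : S.Pt, P.1 ≤ R.toLocalSubring) ∨ ∃ C : S.PD, C.1 = R.toLocalSubring := by
  have hex : ∃ l ∈ ({1, S.s, S.t} : Set L), S.chart l ≤ R.toSubring := by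
    rcases S.exists_chart_le_val R hk with h | h | h
    · exact ⟨1, by simp, h⟩
    · exact ⟨S.s, by simp, h⟩
    · exact ⟨S.t, by simp, h⟩
  obtain ⟨l, hl, h⟩ := hex
  obtain ⟨hlV, h0⟩ := ne_zero_of_mem hl
  have hRtop : R.toSubring ≠ ⊤ := by
    intro h1
    apply hR
    rw [eq_top_iff]
    intro x _
    have : x ∈ R.toSubring := by
      rw [h1]
      exact Subring.mem_top x
    exact this
  have : IsLocalRing R.toSubring := inferInstanceAs (IsLocalRing R)
  let q : Ideal (S.chart l) := (maximalIdeal R.toSubring).comap (Subring.inclusion h)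
  have hq : q.IsPrime := inferInstance
  have hnq : ∀ a : S.chart l, a ∉ q → (a : L)⁻¹ ∈ R.toSubring := by
    intro a ha
    have ha' : ¬ (Subring.inclusion h a ∈ maximalIdeal R.toSubring) := ha
    rw [mem_maximalIdeal, mem_nonunits_iff, not_not] at ha'
    obtain ⟨b, hb⟩ := isUnit_iff_exists_inv.1 ha'
    have hb' : (a : L) * (b : L) = 1 := congrArg Subtype.val hb
    rw [← eq_inv_of_mul_eq_one_right hb']
    exact b.2
  have hle : (LocalSubring.ofPrime (S.chart l) q).toSubring ≤ R.toSubring := by
    intro x hx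
    rw [mem_ofPrime] at hx
    obtain ⟨a, b, hb, rfl⟩ := hx
    rw [div_eq_mul_inv]
    exact mul_mem (h a.2) (hnq b hb)
  have := S.chart_frac hlV h0
  by_cases hbot : q = ⊥
  · exfalso
    apply hRtop
    rw [eq_top_iff]
    intro x _
    obtain ⟨a, b, hb, rfl⟩ := IsFractionRing.div_surjective (A := S.chart l) x
    have hb0 : b ≠ 0 := nonZeroDivisors.ne_zero hb
    change (a : L) / (b : L) ∈ R.toSubring
    rw [div_eq_mul_inv]
    refine mul_mem (h a.2) (hnq b ?_)
    rw [hbot, Ideal.mem_bot]
    exact hb0
  by_cases hmax : q.IsMaximal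
  · left
    refine ⟨⟨LocalSubring.ofPrime (S.chart l) q, l, hlV, h0, q, hq, hmax, rfl⟩, ?_⟩
    rw [LocalSubring.le_def]
    refine ⟨hle, ⟨?_⟩⟩
    intro x hx
    obtain ⟨a, b, hb, e⟩ := (mem_ofPrime (S.chart l) q).1 x.2
    obtain ⟨y, hy⟩ := isUnit_iff_exists_inv.1 hx
    have hy' : (x : L) * (y : L) = 1 := congrArg Subtype.val hy
    have hb0 : (b : L) ≠ 0 := by
      intro h2
      apply hb
      have : b = 0 := Subtype.ext h2
      rw [this]
      exact q.zero_mem
    have haq : a ∉ q := by
      intro ha
      have ha' : Subring.inclusion h a ∈ maximalIdeal R.toSubring := ha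
      apply hb
      change Subring.inclusion h b ∈ maximalIdeal R.toSubring
      have e3 : (b : L) = (a : L) * (y : L) := by
        have : (a : L) = x * b := by
          rw [e]
          field_simp
        rw [this]
        linear_combination (-(b : L)) * hy'
      have e4 : Subring.inclusion h b = Subring.inclusion h a * (⟨(y : L), y.2⟩ : R.toSubring) :=
        Subtype.ext e3
      rw [e4]
      exact Ideal.mul_mem_right _ _ ha'
    have ha0 : (a : L) ≠ 0 := by
      intro h2
      apply haq
      have : a = 0 := Subtype.ext h2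
      rw [this]
      exact q.zero_mem
    refine IsUnit.of_mul_eq_one (⟨(b : L) / (a : L), ?_⟩ :
      (LocalSubring.ofPrime (S.chart l) q).toSubring) ?_
    · exact (mem_ofPrime (S.chart l) q).2 ⟨b, a, haq, rfl⟩
    · apply Subtype.ext
      change (x : L) * ((b : L) / (a : L)) = 1
      rw [e]
      field_simp
  · right
    have hh := S.chart_height_one hlV h0 q hbot hmax
    obtain ⟨C, hC⟩ : ∃ C : S.PD, C.1 = LocalSubring.ofPrime (S.chart l) q :=
      ⟨⟨LocalSubring.ofPrime (S.chart l) q, l, hlV, h0, q, hq, hh, rfl⟩, rfl⟩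
    refine ⟨C, ?_⟩
    apply LocalSubring.toSubring_injective
    rw [← hC] at hle
    exact dvr_eq_of_le C.1.toSubring R.toSubring hle hRtop

/-- If a valuation ring is contained in the local ring of a curve `C` and is different from it,
then its centre is a closed point of `C`. -/
theorem PD.exists_centre (C : S.PD) (R : ValuationSubring L)
    (hk : ∀ c : k, algebraMap k L c ∈ R) (h : R.toSubring ≤ C.1.toSubring)
    (h' : R.toSubring ≠ C.1.toSubring) : ∃ P : S.Pt, On P C ∧ P.1 ≤ R.toLocalSubring := by
  have hRtop : R ≠ ⊤ := by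
    rintro rfl
    apply IsDiscreteValuationRing.not_isField C.1.toSubring
    have htop : ∀ x : L, x ∈ C.1.toSubring := fun x => h trivial
    refine ⟨⟨0, 1, zero_ne_one⟩, mul_comm, ?_⟩
    intro a ha
    have ha0 : (a : L) ≠ 0 := fun h2 => ha (Subtype.ext h2)
    exact ⟨⟨(a : L)⁻¹, htop _⟩, Subtype.ext (mul_inv_cancel₀ ha0)⟩
  rcases Surf.exists_centre S R hk hRtop with ⟨P, hP⟩ | ⟨C', hC'⟩
  · refine ⟨P, ?_, hP⟩
    intro x hx
    exact h (hP.1 hx)
  · exfalso
    have e1 : C'.1.toSubring = R.toSubring := by
      rw [hC']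
      rfl
    have e2 : C' = C := C'.eq_of_le C (e1.le.trans h)
    exact h' (e1.symm.trans (by rw [e2]))

end Surf

end HB
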