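import Pool.Agent.HB.A.CurveB
import Pool.Agent.HB.A.FacB
import Pool.Agent.HB.A.LocD

/-!
# HB-A-CurveC: finiteness on curves

Plan.
* `finite_on_on`: a common point `P` contains the chart `A` of some `l` in `{1, s, t}`
  (`Pt.exists_chart`), and then so do `C` and `D`; fix `A`.  `C, D` are the localisations of `A` at
  different primes `p, q` of height one (`PD.ofPrime_of_chart`), `P` at a maximal `M` containing
  both (`Pt.ofPrime_of_chart`).  Every prime containing `p ⊔ q` is different from `p` or from `q`,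
  so it is not of height `<= 1`, so it is maximal (`S.chart_height_one`); hence `M` is a minimal
  prime over `p ⊔ q`, and there are finitely many (`Ideal.finite_minimalPrimes_of_isNoetherianRing`).
* `finite_ordS_ne_zero`: lift `g` to `f` with `C.ord f = 0`, `C.res f = g` (`PD.exists_res_eq`).  The
  curves `D` with `D.ord f <> 0` are finitely many (`finite_ord_ne_zero`), all different from `C`.
  If `P` on `C` is on none of them, `f` is a unit of `O_P` (`Pt.unit_iff`), and the order is zero
  (`PD.ordS_res_eq_zero`).  So the set is in a finite union of sets `finite_on_on`.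
* `exists_isDivOn`: `Finsupp.ofSupportFinite`.
* `infinite_on`: every curve has infinitely many points, more precisely a point outside any finite
  set of curves different from `C` and any finite set of points: use `PD.exists_on` with a
  chart and an element `x` of the chart which vanishes on the given curves and points but
  not on `C` (product; for a point `P0` on `C` take an element of the chart in `M_{P0}` not
  in `p`).
-/

set_option autoImplicit false

open IsLocalRing

namespace HB

universe u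

namespace Surf

variable {k L : Type u} [Field k] [Field L] [Algebra k L] {S : Surf k L}
  [CharZero k] [IsAlgClosed k]

omit [CharZero k] [IsAlgClosed k] in
private theorem curveC_le {K : Type u} [Field K] (A : Subring K) (p M : Ideal A) [p.IsPrime]
    [M.IsPrime] (h : (LocalSubring.ofPrime A M).toSubring ≤ (LocalSubring.ofPrime A p).toSubring) :
    p ≤ M := by
  intro x hx
  by_contra hxM
  obtain ⟨h0, h1⟩ := (notMem_iff_inv_mem A M x).1 hxM
  exact (notMem_iff_inv_mem A p x).2 ⟨h0, h h1⟩ hx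

omit [CharZero k] [IsAlgClosed k] in
private theorem curveC_eq {A : Type u} [CommRing A] [IsNoetherianRing A] (p N : Ideal A)
    [p.IsPrime] [N.IsPrime] (h : p ≤ N) (hp : p.height = 1) (hN : N.height = 1) : p = N := by
  by_contra hne
  have h1 : p < N := lt_of_le_of_ne h hne
  have h2 := Ideal.height_strict_mono_of_isPrime_of_isPrime h1
  rw [hp, hN] at h2
  exact lt_irrefl _ h2

private theorem curveC_fin (C D : S.PD) (hCD : C ≠ D) {l : L} (hl : l ∈ S.V) (h0 : l ≠ 0) :
    {P : S.Pt | S.chart l ≤ P.1.toSubring ∧ On P C ∧ On P D}.Finite := by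
  by_cases hC : S.chart l ≤ C.1.toSubring
  swap
  · refine Set.Finite.subset Set.finite_empty ?_
    rintro P ⟨h1, h2, h3⟩
    exact absurd (h1.trans h2) hC
  by_cases hD : S.chart l ≤ D.1.toSubring
  swap
  · refine Set.Finite.subset Set.finite_empty ?_
    rintro P ⟨h1, h2, h3⟩
    exact absurd (h1.trans h3) hD
  obtain ⟨p, hp, hp1, eC⟩ := C.ofPrime_of_chart hl h0 hC
  obtain ⟨q, hq, hq1, eD⟩ := D.ofPrime_of_chart hl h0 hD
  have hnoeth := S.chart_noeth hl h0
  have hfin : (Ideal.minimalPrimes (p ⊔ q)).Finite :=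
    Ideal.finite_minimalPrimes_of_isNoetherianRing _ _
  refine Set.Finite.subset (hfin.biUnion (t := fun M => {P : S.Pt | ∃ hM : M.IsPrime,
    P.1 = LocalSubring.ofPrime (S.chart l) M}) ?_) ?_
  · intro M _
    apply Set.Subsingleton.finite
    rintro P ⟨hM, h1⟩ Q ⟨hM', h2⟩
    exact Subtype.ext (h1.trans h2.symm)
  · rintro P ⟨h1, h2, h3⟩
    obtain ⟨M, hM, hMm, eP⟩ := P.ofPrime_of_chart hl h0 h1
    have hpM : p ≤ M := by
      apply curveC_le
      rw [← eP, ← eC]
      exact h2
    have hqM : q ≤ M := by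
      apply curveC_le
      rw [← eP, ← eD]
      exact h3
    refine Set.mem_biUnion (x := M) ?_ ⟨hM, eP⟩
    refine ⟨⟨hM, sup_le hpM hqM⟩, ?_⟩
    rintro N ⟨hN, hN1⟩ hN2
    have hpN : p ≤ N := le_sup_left.trans hN1
    have hqN : q ≤ N := le_sup_right.trans hN1
    have hNmax : N.IsMaximal := by
      by_contra hNm
      have hN0 : N ≠ ⊥ := by
        rintro rfl
        have : p = ⊥ := le_bot_iff.1 hpN
        rw [this, Ideal.height_bot] at hp1
        exact zero_ne_one hp1
      have hN1 := S.chart_height_one hl h0 N hN0 hNm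
      have e1 := curveC_eq p N hpN hp1 hN1
      have e2 := curveC_eq q N hqN hq1 hN1
      apply hCD
      apply Subtype.ext
      rw [eC, eD]
      subst e1
      subst e2
      rfl
    exact (hNmax.eq_of_le hM.ne_top hN2).ge

/-- Two different curves have finitely many common points. -/
theorem finite_on_on (C D : S.PD) (hCD : C ≠ D) : {P : S.Pt | On P C ∧ On P D}.Finite := by
  have h3 : ({1, S.s, S.t} : Set L).Finite := by simp
  refine Set.Finite.subset (h3.biUnion (t := fun l => {P : S.Pt | S.chart l ≤ P.1.toSubring ∧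
    On P C ∧ On P D}) ?_) ?_
  · intro l hl
    obtain ⟨hl1, hl0⟩ := ne_zero_of_mem hl
    exact curveC_fin C D hCD hl1 hl0
  · rintro P ⟨h1, h2⟩
    obtain ⟨l, hl, hlP⟩ := P.exists_chart
    exact Set.mem_biUnion hl ⟨hlP, h1, h2⟩

/-- A rational function on a curve has only finitely many zeros and poles. -/
theorem PD.finite_ordS_ne_zero (hS : S.Smooth) (C : S.PD) {g : C.kap} (hg : g ≠ 0) :
    {P : S.Pt | On P C ∧ ordS (C.loc P) g ≠ 0}.Finite := by
  obtain ⟨f, hf0, hf1, rfl⟩ := C.exists_res_eq g hg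
  refine Set.Finite.subset ((finite_ord_ne_zero hf0).biUnion
    (t := fun D => {P : S.Pt | On P C ∧ On P D}) ?_) ?_
  · intro D hD
    apply finite_on_on
    rintro rfl
    exact hD hf1
  · rintro P ⟨h1, h2⟩
    by_contra h3
    apply h2
    have h4 := (P.unit_iff hS hf0).2 (by
      intro D hD
      by_contra h5
      exact h3 (Set.mem_biUnion (x := D) h5 ⟨h1, hD⟩))
    exact C.ordS_res_eq_zero P h1 h4.1 h4.2

theorem PD.exists_isDivOn (hS : S.Smooth) (C : S.PD) {g : C.kap} (hg : g ≠ 0) :
    ∃ z : S.Z0, S.IsDivOn C g z := by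
  classical
  have hfin := C.finite_ordS_ne_zero hS hg
  let F : S.Pt → ℚ := fun P => if On P C then (ordS (C.loc P) g : ℚ) else 0
  have hF : (Function.support F).Finite := by
    refine hfin.subset ?_
    intro P hP
    by_cases h1 : On P C
    · refine ⟨h1, ?_⟩
      intro h2
      apply hP
      change (if On P C then (ordS (C.loc P) g : ℚ) else 0) = 0
      rw [if_pos h1, h2, Int.cast_zero]
    · exact absurd (if_neg h1) hP
  refine ⟨Finsupp.ofSupportFinite F hF, ?_, ?_⟩
  · intro P hP
    exact if_pos hP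
  · intro P hP
    exact if_neg hP

private theorem PD.curveC_elt (C : S.PD) {l : L} (hl : l ∈ S.V) (h0 : l ≠ 0)
    (hC : S.chart l ≤ C.1.toSubring) (P : S.Pt) (hP : On P C) :
    ∃ x ∈ S.chart l, x ≠ 0 ∧ x⁻¹ ∈ C.1.toSubring ∧
      (S.chart l ≤ P.1.toSubring → x⁻¹ ∉ P.1.toSubring) := by
  by_cases h1 : S.chart l ≤ P.1.toSubring
  swap
  · refine ⟨1, one_mem _, one_ne_zero, ?_, fun h => absurd h h1⟩
    rw [inv_one]
    exact one_mem _
  obtain ⟨p, hp, hp1, eC⟩ := C.ofPrime_of_chart hl h0 hC
  obtain ⟨M, hM, hMm, eP⟩ := P.ofPrime_of_chart hl h0 h1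
  have hMp : ¬ M ≤ p := by
    intro h2
    apply not_le_pt P C
    rw [eC, eP]
    exact ofPrime_le_ofPrime _ _ _ h2
  obtain ⟨x, hxM, hxp⟩ := SetLike.not_le_iff_exists.1 hMp
  obtain ⟨hx0, hx1⟩ := (notMem_iff_inv_mem _ p x).1 hxp
  refine ⟨x, x.2, hx0, ?_, fun _ h3 => ?_⟩
  · rw [eC]
    exact hx1
  · rw [eP] at h3
    exact (notMem_iff_inv_mem _ M x).2 ⟨hx0, h3⟩ hxM

theorem PD.infinite_on (C : S.PD) : {P : S.Pt | On P C}.Infinite := by
  classical
  intro hfin
  obtain ⟨l, hl, hlC⟩ := C.exists_chart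
  obtain ⟨hl1, hl0⟩ := ne_zero_of_mem hl
  choose! x hx1 hx2 hx3 hx4 using fun (P : S.Pt) (hP : On P C) =>
    C.curveC_elt hl1 hl0 hlC P hP
  set F := hfin.toFinset with hF
  have hmem : ∀ P, P ∈ F ↔ On P C := by
    intro P
    rw [hF, Set.Finite.mem_toFinset]
    exact Iff.rfl
  obtain ⟨Q, hQ1, hQ2, hQ3⟩ := C.exists_on hl1 hl0 hlC (∏ P ∈ F, x P)
    (prod_mem fun P hP => hx1 P ((hmem P).1 hP))
    (Finset.prod_ne_zero_iff.2 fun P hP => hx2 P ((hmem P).1 hP))
    (by
      rw [← Finset.prod_inv_distrib]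
      exact prod_mem fun P hP => hx3 P ((hmem P).1 hP))
  have hQF : Q ∈ F := (hmem Q).2 hQ1
  apply hx4 Q hQ1 hQ2
  have e : (x Q)⁻¹ = (∏ P ∈ F, x P)⁻¹ * ∏ P ∈ F.erase Q, x P := by
    rw [← Finset.mul_prod_erase F x hQF, mul_inv, mul_assoc, inv_mul_cancel₀, mul_one]
    exact Finset.prod_ne_zero_iff.2 fun P hP => hx2 P ((hmem P).1 (Finset.mem_of_mem_erase hP))
  rw [e]
  exact mul_mem hQ3 (prod_mem fun P hP => hQ2 (hx1 P ((hmem P).1 (Finset.mem_of_mem_erase hP))))

end Surf

end HB
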