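import Pool.Agent.HB.A.CurveC
import Pool.Agent.HB.Pl.Sum

/-!
# HB-A-T2: the degree of the divisor of a function on a curve is zero (part A5, helper23)
-/

set_option autoImplicit false

open IsLocalRing

namespace HB

universe u

namespace Surf

variable {k L : Type u} [Field k] [Field L] [Algebra k L] {S : Surf k L}
  [CharZero k] [IsAlgClosed k]

theorem deg0_isDivOn (_hS : S.Smooth) (C : S.PD) {g : C.kap} (hg : g ≠ 0) {z : S.Z0}
    (h : S.IsDivOn C g z) : S.deg0 z = 0 := by
  obtain ⟨W, hW, hs⟩ := C.sum_ow hg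
  have h1 := C.sum_div hg h W hW (E := ℚ) (fun _ => 1) (fun _ => 1) (fun _ _ _ _ _ _ => rfl)
  have h2 : ∑ w ∈ W, ((Pl.ow w g : ℤ) : ℚ) * 1 = 0 := by
    have h3 := congrArg (Int.cast (R := ℚ)) hs
    push_cast at h3
    simpa using h3
  rw [h2] at h1
  unfold deg0
  rw [Finsupp.lsum_apply, ← h1]
  refine Finsupp.sum_congr fun P _ => ?_
  simp

end Surf

end HB
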