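import Pool.Agent.HB.A.IntC
import Pool.Agent.HB.A.T2

/-!
# HB-A-DegA: degrees of zero-cycles and of divisors

Plan.
* `deg0_rat`: `Submodule.span_induction`, `deg0_isDivOn` (file T2).
* `deg_mk`: `Quotient.out (mk z) - z` is in `S.rat` (`Submodule.Quotient.eq`, `Quotient.out_eq`).
* `deg_add`, `deg_smul`: lift to representatives (`Submodule.Quotient.mk_surjective`), `deg_mk`.
* `degH`: by definition `deg (prod hyp D)`; additivity from `IntC`; `prod_isDiv_right`.
* `deg_single`: `deg0` of `single P a` is `a`.
-/

set_option autoImplicit false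

open IsLocalRing

namespace HB

universe u

namespace Surf

variable {k L : Type u} [Field k] [Field L] [Algebra k L] {S : Surf k L}
  [CharZero k] [IsAlgClosed k]

theorem deg0_rat (hS : S.Smooth) {z : S.Z0} (hz : z ∈ S.rat) : S.deg0 z = 0 := by
  unfold rat at hz
  induction hz using Submodule.span_induction with
  | mem x hx =>
    obtain ⟨C, g, hg, h⟩ := hx
    exact deg0_isDivOn hS C hg h
  | zero => exact map_zero _
  | add x y _ _ hx hy => rw [map_add, hx, hy, add_zero]
  | smul a x _ hx => rw [map_smul, hx, smul_zero]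

theorem deg_mk (hS : S.Smooth) (z : S.Z0) : S.deg (Submodule.Quotient.mk z) = S.deg0 z := by
  unfold deg
  have h1 : (Submodule.Quotient.mk (p := S.rat)
      (Quotient.out (Submodule.Quotient.mk (p := S.rat) z : S.CH0)) : S.CH0)
      = Submodule.Quotient.mk z := Quotient.out_eq _
  have h2 := (Submodule.Quotient.eq S.rat).1 h1
  have h3 := deg0_rat hS h2
  rw [map_sub, sub_eq_zero] at h3
  exact h3

theorem deg_single (hS : S.Smooth) (P : S.Pt) (a : ℚ) :
    S.deg (Submodule.Quotient.mk (Finsupp.single P a)) = a := by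
  rw [deg_mk hS]
  simp [deg0]

theorem deg_zero (hS : S.Smooth) : S.deg 0 = 0 := by
  rw [← Submodule.Quotient.mk_zero S.rat, deg_mk hS, map_zero]

theorem deg_add (hS : S.Smooth) (x y : S.CH0) : S.deg (x + y) = S.deg x + S.deg y := by
  obtain ⟨x, rfl⟩ := Submodule.Quotient.mk_surjective _ x
  obtain ⟨y, rfl⟩ := Submodule.Quotient.mk_surjective _ y
  rw [← Submodule.Quotient.mk_add, deg_mk hS, deg_mk hS, deg_mk hS, map_add]

theorem deg_neg (hS : S.Smooth) (x : S.CH0) : S.deg (-x) = - S.deg x := by
  obtain ⟨x, rfl⟩ := Submodule.Quotient.mk_surjective _ x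
  rw [← Submodule.Quotient.mk_neg, deg_mk hS, deg_mk hS, map_neg]

theorem deg_smul (hS : S.Smooth) (a : ℚ) (x : S.CH0) : S.deg (a • x) = a * S.deg x := by
  obtain ⟨x, rfl⟩ := Submodule.Quotient.mk_surjective _ x
  rw [← Submodule.Quotient.mk_smul, deg_mk hS, deg_mk hS, map_smul, smul_eq_mul]

theorem degH_add (hS : S.Smooth) (D D' : S.Div) : S.degH (D + D') = S.degH D + S.degH D' := by
  unfold degH
  rw [prod_add_right, deg_add hS]

theorem degH_neg (hS : S.Smooth) (D : S.Div) : S.degH (-D) = - S.degH D := by
  unfold degH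
  rw [prod_neg_right hS, deg_neg hS]

theorem degH_zsmul (hS : S.Smooth) (n : ℤ) (D : S.Div) : S.degH (n • D) = n * S.degH D := by
  unfold degH
  rw [prod_zsmul_right hS, deg_smul hS]

theorem degH_isDiv (hS : S.Smooth) {f : L} {D : S.Div} (h : S.IsDiv f D) : S.degH D = 0 := by
  unfold degH
  rw [prod_isDiv_right hS h, deg_zero hS]

theorem degH_linEq (hS : S.Smooth) {D D' : S.Div} (h : S.LinEq D D') : S.degH D = S.degH D' := by
  obtain ⟨f, hf⟩ := h
  have h1 := degH_isDiv hS hf
  rw [sub_eq_add_neg, degH_add hS, degH_neg hS] at h1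
  linarith

theorem degH_sum (hS : S.Smooth) (D : S.Div) :
    S.degH D = D.sum (fun C n => n * S.degH (Finsupp.single C 1)) := by
  induction D using Finsupp.induction_linear with
  | zero =>
    rw [Finsupp.sum_zero_index]
    have := degH_zsmul hS 0 (0 : S.Div)
    simpa using this
  | add f g hf hg =>
    rw [degH_add hS, hf, hg, Finsupp.sum_add_index']
    · intro a; simp
    · intro a b c; push_cast; ring
  | single C n =>
    rw [Finsupp.sum_single_index (by simp), ← degH_zsmul hS, Finsupp.smul_single, smul_eq_mul,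
      mul_one]

/-- The degree of a divisor in terms of the components of the polarisation. -/
theorem degH_eq_sum (hS : S.Smooth) (D : S.Div) :
    S.degH D = S.hyp.sum (fun C n => n * S.deg (S.inter D C)) := by
  classical
  unfold degH
  rw [prod_comm hS]
  unfold prod
  rw [Finsupp.sum, Finsupp.sum]
  induction S.hyp.support using Finset.induction_on with
  | empty => rw [Finset.sum_empty, Finset.sum_empty, deg_zero hS]
  | insert a s ha ih => rw [Finset.sum_insert ha, Finset.sum_insert ha, deg_add hS, ih, deg_smul hS]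

end Surf

end HB
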