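import Pool.Agent.HB.A.DegA

/-!
# HB-A-DegB: positivity of the degree

Plan.
* `deg_inter_nonneg`: if `D` is effective and `D C = 0` then the cycle of
  `exists_isInt_of_coeff` is effective: a local equation `f` of `D` at `P` is in `O_P`
  (`Pt.mem_iff`) and `PD.ordS_res_nonneg`.  `deg0` of an effective cycle is `>= 0`; if moreover
  some curve of the support of `D` passes through a point `P` of `C`, then `f` is in the maximal ideal of
  `O_P` (its order along that curve is positive, so it is not a unit) and the coefficient at `P` is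
  positive (`PD.ordS_res_pos`).
* `exists_sec`: let `P` be a point of `C` (`PD.exists_point`), `S.chart m <= O_P` with `m` in
  `{1, s, t}` (`Pt.exists_chart`).  The map `V → k`, `x ↦ P.ev (x/m)` is linear and surjective
  (`m ↦ 1`), its kernel `W` has dimension 2 (`V` has dimension 3: `exists_basis_V`).  Claim: some `l` in
  `W`, `l <> 0`, has `C.ord (l/m) = 0`.  Otherwise for a basis `l1, l2` of `W` (so `V` is
  spanned by `m, l1, l2`) both `l1/m` and `l2/m` are in the maximal ideal of `O_C`, and so the contraction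
  of this maximal ideal to `S.base m = k[l1/m, l2/m]` (`base_eq`) contains the maximal
  ideal `(l1/m, l2/m)` and is equal to it; by integrality the contraction to `S.chart m` is
  maximal (`Ideal.isMaximal_of_isIntegral_of_isMaximal_comap`), but it has height one, while maximal
  ideals have height two (`S.chart_height`).
* `degH_single_pos`: `degH C = deg (inter D C)` for the divisor `D` of the section `l`
  (`prod_linEq`, `linEq_of_isSec`, `isSec_hyp`, `prod_single`); `D C = C.ord (l/m) = 0`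
  (`IsSec`), and the local equation `l/m` of `D` at `P` (`isEq_of_isSec`) is in the maximal
  ideal.  So the cycle is effective with a positive coefficient at `P`.
* the others: `degH_sum`.
-/

set_option autoImplicit false

open IsLocalRing

namespace HB

universe u

namespace Surf

variable {k L : Type u} [Field k] [Field L] [Algebra k L] {S : Surf k L}
  [CharZero k] [IsAlgClosed k]

private theorem isEq_mem (hS : S.Smooth) {D : S.Div} {P : S.Pt} {f : L} (h : 0 ≤ D)
    (hf : S.IsEq D P f) : f ∈ P.1.toSubring := by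
  rw [P.mem_iff hS hf.1]
  intro C hC
  rw [hf.2 C hC]
  exact h C

private theorem deg0_eq (z : S.Z0) : S.deg0 z = ∑ P ∈ z.support, z P := by
  unfold deg0
  rw [Finsupp.lsum_apply]
  rfl

theorem deg_inter_nonneg (hS : S.Smooth) {D : S.Div} {C : S.PD} (h : 0 ≤ D) (h' : D C = 0) :
    0 ≤ S.deg (S.inter D C) := by
  obtain ⟨z, hz, hz0, hz1⟩ := exists_isInt_of_coeff hS D C h'
  rw [inter_eq hS hz, deg_mk hS, deg0_eq]
  apply Finset.sum_nonneg
  intro P _
  by_cases hP : On P C
  · obtain ⟨f, hf⟩ := exists_isEq hS D P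
    rw [hz1 P hP f hf]
    exact_mod_cast C.ordS_res_nonneg P hP (isEq_mem hS h hf)
  · rw [hz0 P hP]

theorem deg_inter_pos (hS : S.Smooth) {D : S.Div} {C : S.PD} (h : 0 ≤ D) (h' : D C = 0)
    (P : S.Pt) (hP : On P C) (f : P.1.toSubring) (hf : S.IsEq D P f)
    (hm : f ∈ maximalIdeal P.1.toSubring) : 0 < S.deg (S.inter D C) := by
  obtain ⟨z, hz, hz0, hz1⟩ := exists_isInt_of_coeff hS D C h'
  rw [inter_eq hS hz, deg_mk hS, deg0_eq]
  have hnn : ∀ Q : S.Pt, 0 ≤ z Q := by
    intro Q
    by_cases hQ : On Q C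
    · obtain ⟨g, hg⟩ := exists_isEq hS D Q
      rw [hz1 Q hQ g hg]
      exact_mod_cast C.ordS_res_nonneg Q hQ (isEq_mem hS h hg)
    · rw [hz0 Q hQ]
  have hpos : 0 < z P := by
    rw [hz1 P hP f hf]
    have h0 : C.res (f : L) ≠ 0 := by
      rw [C.res_ne_zero_iff_ord hf.1, hf.2 C hP, h']
    exact_mod_cast C.ordS_res_pos P hP f hm h0
  refine Finset.sum_pos' (fun Q _ => hnn Q) ⟨P, ?_, hpos⟩
  rw [Finsupp.mem_support_iff]
  exact hpos.ne'

/-- A section of the polarisation which vanishes at a point of `C` and not on `C`. -/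
theorem exists_sec (C : S.PD) : ∃ (P : S.Pt) (m l : L) (hl : l / m ∈ P.1.toSubring),
    On P C ∧ m ∈ S.V ∧ m ≠ 0 ∧ l ∈ S.V ∧ l ≠ 0 ∧ S.chart m ≤ P.1.toSubring ∧
    (⟨l / m, hl⟩ : P.1.toSubring) ∈ maximalIdeal P.1.toSubring ∧ C.ord (l / m) = 0 := by
  obtain ⟨P, hP⟩ := C.exists_point
  obtain ⟨m, hm, hch⟩ := P.exists_chart
  obtain ⟨hmV, m0⟩ := ne_zero_of_mem hm
  obtain ⟨a, ha, b, hb, hV, hind⟩ := S.exists_basis_V hmV m0
  have hmem : ∀ n ∈ S.V, n / m ∈ P.1.toSubring := fun n hn => hch (S.div_mem_chart hn)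
  -- linear forms vanishing at `P`
  have key : ∀ n ∈ S.V, (∀ c : k, n / m ≠ algebraMap k L c) → ∃ (l : L) (c : k)
      (hl : l / m ∈ P.1.toSubring), l ∈ S.V ∧ l ≠ 0 ∧ n / m = algebraMap k L c + l / m ∧
      (⟨l / m, hl⟩ : P.1.toSubring) ∈ maximalIdeal P.1.toSubring := by
    intro n hn hc
    have h1 := P.sub_ev_mem ⟨n / m, hmem n hn⟩
    set c := P.ev ⟨n / m, hmem n hn⟩ with hcdef
    have hl : n - c • m ∈ S.V := S.V.sub_mem hn (S.V.smul_mem c hmV)
    have e : (n - c • m) / m = n / m - algebraMap k L c := by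
      rw [Algebra.smul_def]
      field_simp
    refine ⟨n - c • m, c, hmem _ hl, hl, ?_, ?_, ?_⟩
    · intro h0
      apply hc c
      rw [h0, zero_div] at e
      exact (sub_eq_zero.1 e.symm)
    · rw [e]
      ring
    · have e2 : (⟨(n - c • m) / m, hmem _ hl⟩ : P.1.toSubring) =
          ⟨n / m, hmem n hn⟩ - algebraMap k P.1.toSubring c := Subtype.ext e
      rw [e2]
      exact h1
  have htr : ∀ i : Fin 2, ∀ c : k, ![a / m, b / m] i ≠ algebraMap k L c := by
    intro i c h
    have := hind.transcendental i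
    apply this
    rw [h]
    exact isAlgebraic_algebraMap c
  obtain ⟨l1, c1, hl1, hl1V, l10, e1, hm1⟩ := key a ha (htr 0)
  obtain ⟨l2, c2, hl2, hl2V, l20, e2, hm2⟩ := key b hb (htr 1)
  by_cases ho1 : C.ord (l1 / m) = 0
  · exact ⟨P, m, l1, hl1, hP, hmV, m0, hl1V, l10, hch, hm1, ho1⟩
  by_cases ho2 : C.ord (l2 / m) = 0
  · exact ⟨P, m, l2, hl2, hP, hmV, m0, hl2V, l20, hch, hm2, ho2⟩
  exfalso
  have hle : S.chart m ≤ C.1.toSubring := hch.trans hP
  have hres : ∀ l : L, ∀ hl : l / m ∈ P.1.toSubring, l ≠ 0 → C.ord (l / m) ≠ 0 →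
      residue C.1.toSubring ⟨l / m, hP hl⟩ = 0 := by
    intro l hl l0 ho
    rw [residue_eq_zero_iff]
    have h0 : l / m ≠ 0 := div_ne_zero l0 m0
    have h1 : 0 ≤ ordS C.1.toSubring (l / m) := (mem_iff_ordS _ h0).1 (hP hl)
    exact (mem_maximalIdeal_iff_ordS _ h0 (hP hl)).2 (lt_of_le_of_ne h1 (Ne.symm ho))
  have hr1 := hres l1 hl1 l10 ho1
  have hr2 := hres l2 hl2 l20 ho2
  let T : Subring L :=
    ((algebraMap k C.kap).range.comap (residue C.1.toSubring)).map C.1.toSubring.subtype
  have hTk : ∀ c : k, algebraMap k L c ∈ T := fun c =>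
    ⟨algebraMap k C.1.toSubring c, ⟨c, rfl⟩, rfl⟩
  have hT0 : ∀ (x : L) (hx : x ∈ C.1.toSubring), residue C.1.toSubring ⟨x, hx⟩ = 0 → x ∈ T :=
    fun x hx h => ⟨⟨x, hx⟩, ⟨0, by rw [map_zero]; exact h.symm⟩, rfl⟩
  have hbase : S.base m ≤ T := by
    apply S.base_le T hTk
    intro n hn
    rw [hV, Submodule.mem_span_triple] at hn
    obtain ⟨u, v, w, rfl⟩ := hn
    have e : (u • m + v • a + w • b) / m = algebraMap k L u +
        algebraMap k L v * (algebraMap k L c1 + l1 / m) +
        algebraMap k L w * (algebraMap k L c2 + l2 / m) := by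
      rw [← e1, ← e2]
      simp only [Algebra.smul_def]
      field_simp
    rw [e]
    exact T.add_mem (T.add_mem (hTk u) (T.mul_mem (hTk v)
      (T.add_mem (hTk c1) (hT0 _ (hP hl1) hr1)))) (T.mul_mem (hTk w)
      (T.add_mem (hTk c2) (hT0 _ (hP hl2) hr2)))
  obtain ⟨p, hp, hh, e⟩ := C.ofPrime_of_chart hmV m0 hle
  have hpm : ∀ x : S.chart m, residue C.1.toSubring ⟨(x : L), hle x.2⟩ = 0 → x ∈ p := by
    intro x hx
    by_contra hxp
    have h1 : (x : L)⁻¹ ∈ C.1.toSubring := by
      rw [e]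
      exact inv_mem_ofPrime_of_notMem _ _ hxp
    have hx0 : (x : L) ≠ 0 := by
      intro h2
      apply hxp
      have : x = 0 := Subtype.ext h2
      rw [this]
      exact p.zero_mem
    have hu : IsUnit (⟨(x : L), hle x.2⟩ : C.1.toSubring) :=
      IsUnit.of_mul_eq_one (⟨(x : L)⁻¹, h1⟩ : C.1.toSubring)
        (Subtype.ext (mul_inv_cancel₀ hx0))
    exact (hu.map (residue C.1.toSubring)).ne_zero hx
  have hmax : (p.comap (algebraMap (S.base m) (S.chart m))).IsMaximal := by
    rw [Ideal.isMaximal_iff]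
    refine ⟨fun h1 => hp.ne_top ((Ideal.eq_top_iff_one _).2 (by simpa using h1)), ?_⟩
    intro J x hpJ hxp hxJ
    obtain ⟨y, ⟨c, hc⟩, hy⟩ := hbase x.2
    have hyx : y = ⟨(x : L), hle (S.base_le_chart m x.2)⟩ := Subtype.ext hy
    have hxc : x - algebraMap k (S.base m) c ∈ p.comap (algebraMap (S.base m) (S.chart m)) := by
      rw [Ideal.mem_comap]
      apply hpm
      have : (⟨((algebraMap (S.base m) (S.chart m) (x - algebraMap k (S.base m) c) : S.chart m) : L),
          hle (algebraMap (S.base m) (S.chart m) (x - algebraMap k (S.base m) c)).2⟩ :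
          C.1.toSubring) = y - algebraMap k C.1.toSubring c := by
        rw [hyx]
        rfl
      rw [this, map_sub, sub_eq_zero, ← hc]
      rfl
    have hc0 : c ≠ 0 := by
      rintro rfl
      apply hxp
      simpa using hxc
    have hcJ : algebraMap k (S.base m) c ∈ J := by
      have := J.sub_mem hxJ (hpJ hxc)
      simpa using this
    have : (1 : S.base m) = algebraMap k (S.base m) c⁻¹ * algebraMap k (S.base m) c := by
      rw [← map_mul, inv_mul_cancel₀ hc0, map_one]
    rw [this]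
    exact J.mul_mem_left _ hcJ
  have hpmax : p.IsMaximal := Ideal.isMaximal_of_isIntegral_of_isMaximal_comap p hmax
  have h2 := S.chart_height hmV m0 p
  rw [hh] at h2
  exact absurd h2 (by norm_num)

theorem degH_single_pos (hS : S.Smooth) (C : S.PD) : 0 < S.degH (Finsupp.single C 1) := by
  obtain ⟨P, m, l, hl, hPC, hmV, m0, hlV, l0, hch, hmax, hord⟩ := exists_sec C
  obtain ⟨D, hD⟩ := exists_isSec hlV l0
  have h1 : S.prod S.hyp (Finsupp.single C 1) = S.inter D C := by
    rw [prod_linEq hS (linEq_of_isSec (isSec_hyp S) hD) (linEq_refl _), prod_single, Int.cast_one,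
      one_smul]
  unfold degH
  rw [h1]
  refine deg_inter_pos hS (isSec_nonneg hD) ?_ P hPC ⟨l / m, hl⟩
    (isEq_of_isSec hD P hmV m0 hch) hmax
  rw [hD.2.2 C m hmV m0 (hch.trans hPC), hord]

theorem degH_nonneg (hS : S.Smooth) {D : S.Div} (h : 0 ≤ D) : 0 ≤ S.degH D := by
  rw [degH_sum hS]
  apply Finset.sum_nonneg
  intro C _
  exact mul_nonneg (by exact_mod_cast h C) (degH_single_pos hS C).le

theorem degH_pos (hS : S.Smooth) {D : S.Div} (h : 0 ≤ D) (h0 : D ≠ 0) : 0 < S.degH D := by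
  rw [degH_sum hS]
  obtain ⟨C, hC⟩ : ∃ C, D C ≠ 0 := by
    by_contra hcon
    push Not at hcon
    exact h0 (Finsupp.ext hcon)
  refine Finset.sum_pos' (fun C _ => mul_nonneg (by exact_mod_cast h C)
    (degH_single_pos hS C).le) ⟨C, Finsupp.mem_support_iff.2 hC, ?_⟩
  refine mul_pos ?_ (degH_single_pos hS C)
  have : 0 < D C := lt_of_le_of_ne (h C) (Ne.symm hC)
  exact_mod_cast this

theorem degH_mono (hS : S.Smooth) {D D' : S.Div} (h : D ≤ D') : S.degH D ≤ S.degH D' := by
  have h1 : 0 ≤ D' - D := sub_nonneg.2 h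
  have h2 := degH_nonneg hS h1
  have h3 := degH_add hS D (D' - D)
  rw [add_sub_cancel] at h3
  linarith

end Surf

end HB
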