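import Pool.Agent.HB.A.LocA
import Pool.Agent.HB.DV

/-!
# HB-A-Dv: the order along a prime divisor as a `DV`
-/

set_option autoImplicit false

open IsLocalRing

namespace HB

universe u

namespace Surf

variable {k L : Type u} [Field k] [Field L] [Algebra k L] {S : Surf k L}
  [CharZero k] [IsAlgClosed k]

/-- The order along the curve `C` as a `DV`. -/
noncomputable def PD.dv (C : S.PD) : DV k L where
  v := C.ord
  zero := ordS_zero _
  mul := fun hx hy => ordS_mul _ hx hy
  add := fun hx hy h => ordS_add _ hx hy h
  const := fun c => by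
    apply ordS_unit
    · exact C.algebraMap_mem c
    · rw [← map_inv₀]
      exact C.algebraMap_mem c⁻¹

theorem PD.dv_v (C : S.PD) (f : L) : C.dv.v f = C.ord f := rfl

theorem PD.dv_ge_zero (C : S.PD) (f : L) : C.dv.ge 0 f ↔ f ∈ C.1.toSubring := by
  unfold DV.ge
  by_cases h : f = 0
  · subst h
    simp [C.1.toSubring.zero_mem]
  · rw [mem_iff_ordS _ h]
    simp only [h, false_or]
    rfl

end Surf

end HB
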