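import Pool.Agent.HB.A.Alg

/-!
# HB-A-GlueA: comparison of the charts

Plan.
* `base_le`: `Algebra.adjoin_le` or `Algebra.adjoin_induction`.
* `chart_le`: an element integral over `S.base l` is integral over `R` (map the monic polynomial
  along `Subring.inclusion (base_le ...)`, `IsIntegral.tower_top` or `IsIntegral.map_of_comp_eq`).
* `chart_le_of_div`: `m / l' = (m / l) * (l / l')` and `chart_le`.
* `mem_chart_pow`: `x` is a root of a monic polynomial of degree `d` with coefficients `a i` in
  `S.base l`.  For every `a` in `S.base l` there is `N` with `(l / l')^n * a` in `S.base l'` for all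
  `n >= N` (`Algebra.adjoin_induction`: `(l/l') * (m/l) = m/l'`, and `l/l'` is in `S.base l'`).
  With one `N >= 1` for all coefficients, `y = (l/l')^N x` satisfies
  `y^d + sum ((l/l')^(N (d-i)) a i) y^i = 0`, monic with coefficients in `S.base l'`
  (`Polynomial.scaleRoots`).
* `ofPrime_int`: `x` integral over the localisation `O` of `A = S.chart l` at `p`;
  `IsIntegral.exists_multiple_integral_of_isLocalization` (with `IsLocalization.AtPrime O p`): there
  is `b` in `A`, not in `p`, with `b x` integral over `A`, hence over `S.base l`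
  (`isIntegral_trans`), so `b x` is in `A` and `x = (b x)/b` is in `O` (`b` is a unit in `O`).
-/

set_option autoImplicit false

open IsLocalRing

namespace HB

universe u

namespace Surf

variable {k L : Type u} [Field k] [Field L] [Algebra k L] (S : Surf k L)

theorem base_le {l : L} (R : Subring L) (hk : ∀ c : k, algebraMap k L c ∈ R)
    (h : ∀ m ∈ S.V, m / l ∈ R) : S.base l ≤ R := by
  let R' : Subalgebra k L := { R with algebraMap_mem' := hk }
  have h1 : Algebra.adjoin k {x : L | ∃ m ∈ S.V, x = m / l} ≤ R' := by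
    apply Algebra.adjoin_le
    rintro x ⟨m, hm, rfl⟩
    exact h m hm
  exact fun x hx => h1 hx

theorem chart_le {l : L} (R : Subring L) (hk : ∀ c : k, algebraMap k L c ∈ R)
    (hR : ∀ x : L, IsIntegral R x → x ∈ R) (h : ∀ m ∈ S.V, m / l ∈ R) : S.chart l ≤ R := by
  intro x hx
  apply hR
  obtain ⟨p, hp, hpx⟩ := S.mem_chart.1 hx
  have hle := S.base_le R hk h
  refine ⟨p.map (Subring.inclusion hle), hp.map _, ?_⟩
  rw [Polynomial.eval₂_map]
  exact hpx

/-- If `R` contains the chart of `l` and `l/l'` is in `R`, then it contains the chart of `l'`. -/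
theorem chart_le_of_div {l l' : L} (h0 : l ≠ 0) (R : Subring L)
    (hk : ∀ c : k, algebraMap k L c ∈ R) (hR : ∀ x : L, IsIntegral R x → x ∈ R)
    (h : S.chart l ≤ R) (hd : l / l' ∈ R) : S.chart l' ≤ R := by
  refine S.chart_le R hk hR fun m hm => ?_
  have h1 : m / l' = (m / l) * (l / l') := by
    rw [div_mul_div_comm, mul_comm m l, mul_div_mul_left _ _ h0]
  rw [h1]
  exact R.mul_mem (h (S.div_mem_chart hm)) hd

private theorem ga_pow_mul {l l' : L} (hl : l ∈ S.V) (h0 : l ≠ 0) {a : L} (ha : a ∈ S.base l) :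
    ∃ N : ℕ, ∀ n ≥ N, (l / l') ^ n * a ∈ S.base l' := by
  have hu : l / l' ∈ S.base l' := S.div_mem_base hl
  have ha' : a ∈ Algebra.adjoin k {x : L | ∃ m ∈ S.V, x = m / l} := ha
  induction ha' using Algebra.adjoin_induction with
  | mem x hx =>
    obtain ⟨m, hm, rfl⟩ := hx
    refine ⟨1, fun n hn => ?_⟩
    obtain ⟨j, rfl⟩ : ∃ j, n = j + 1 := ⟨n - 1, by omega⟩
    have h1 : (l / l') ^ (j + 1) * (m / l) = (l / l') ^ j * (m / l') := by
      rw [pow_succ, mul_assoc]
      congr 1
      rw [div_mul_div_comm, mul_comm l m, mul_div_mul_right _ _ h0]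
    rw [h1]
    exact Subring.mul_mem _ (Subring.pow_mem _ hu j) (S.div_mem_base hm)
  | algebraMap c =>
    exact ⟨0, fun n _ => Subring.mul_mem _ (Subring.pow_mem _ hu n) (S.algebraMap_mem_base l' c)⟩
  | add x y hx hy ihx ihy =>
    obtain ⟨N1, h1⟩ := ihx hx
    obtain ⟨N2, h2⟩ := ihy hy
    refine ⟨max N1 N2, fun n hn => ?_⟩
    rw [mul_add]
    exact Subring.add_mem _ (h1 n (le_trans (le_max_left _ _) hn))
      (h2 n (le_trans (le_max_right _ _) hn))
  | mul x y hx hy ihx ihy =>
    obtain ⟨N1, h1⟩ := ihx hx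
    obtain ⟨N2, h2⟩ := ihy hy
    refine ⟨N1 + N2, fun n hn => ?_⟩
    have h3 : (l / l') ^ n * (x * y) = ((l / l') ^ N1 * x) * ((l / l') ^ (n - N1) * y) := by
      have : (l / l') ^ n = (l / l') ^ N1 * (l / l') ^ (n - N1) := by
        rw [← pow_add]
        congr 1
        omega
      rw [this]
      ring
    rw [h3]
    exact Subring.mul_mem _ (h1 N1 le_rfl) (h2 _ (by omega))

open Polynomial in
theorem mem_chart_pow {l l' : L} (hl : l ∈ S.V) (hl' : l' ∈ S.V) (h0 : l ≠ 0) (h0' : l' ≠ 0)
    {x : L} (hx : x ∈ S.chart l) : ∃ n : ℕ, (l / l') ^ n * x ∈ S.chart l' := by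
  obtain ⟨p, hp, hpx⟩ := S.mem_chart.1 hx
  have hN : ∀ i : ℕ, ∃ N : ℕ, ∀ n ≥ N, (l / l') ^ n * (p.coeff i : L) ∈ S.base l' := fun i =>
    S.ga_pow_mul hl h0 (p.coeff i).2
  choose Nf hNf using hN
  set N : ℕ := 1 + ∑ i ∈ Finset.range (p.natDegree + 1), Nf i with hNdef
  set p' : L[X] := p.map (algebraMap (S.base l) L) with hp'
  have hp'm : p'.Monic := hp.map _
  have hdeg : p'.natDegree = p.natDegree := hp.natDegree_map _
  set q : L[X] := p'.scaleRoots ((l / l') ^ N) with hq
  have hqm : q.Monic := (monic_scaleRoots_iff _).2 hp'm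
  have hcoef : ∀ i, q.coeff i ∈ S.base l' := by
    intro i
    rw [hq, coeff_scaleRoots, hdeg]
    rcases lt_trichotomy i p.natDegree with hi | hi | hi
    · have h1 : p'.coeff i = (p.coeff i : L) := coeff_map _ _
      rw [h1, mul_comm, ← pow_mul]
      apply hNf i
      have h2 : Nf i ≤ ∑ i ∈ Finset.range (p.natDegree + 1), Nf i :=
        Finset.single_le_sum (f := Nf) (fun _ _ => Nat.zero_le _) (Finset.mem_range.2 (by omega))
      have h3 : 1 ≤ p.natDegree - i := by omega
      calc N * (p.natDegree - i) ≥ N * 1 := Nat.mul_le_mul_left _ h3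
        _ = N := mul_one _
        _ ≥ Nf i := by omega
    · rw [hi, Nat.sub_self, pow_zero, mul_one, ← hdeg, hp'm.coeff_natDegree]
      exact Subring.one_mem _
    · rw [coeff_eq_zero_of_natDegree_lt (by rw [hdeg]; exact hi), zero_mul]
      exact Subring.zero_mem _
  have hsub : (q.coeffs : Set L) ⊆ (S.base l' : Set L) := by
    intro c hc
    rw [Finset.mem_coe, mem_coeffs_iff] at hc
    obtain ⟨n, -, rfl⟩ := hc
    exact hcoef n
  refine ⟨N, S.mem_chart.2 ⟨q.toSubring (S.base l') hsub, ?_, ?_⟩⟩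
  · rw [monic_toSubring]
    exact hqm
  · have h1 : (q.toSubring (S.base l') hsub).map (algebraMap (S.base l') L) = q :=
      map_toSubring _ _ _
    rw [← eval_map, h1, hq]
    have h2 : eval₂ (RingHom.id L) x p' = 0 := by
      rw [hp', eval₂_map]
      exact hpx
    have h3 := scaleRoots_eval₂_eq_zero (s := (l / l') ^ N) (RingHom.id L) h2
    rw [RingHom.id_apply, eval₂_id] at h3
    exact h3

/-- The localisation of a chart is integrally closed in `L`. -/
theorem ofPrime_int (l : L) (p : Ideal (S.chart l)) [p.IsPrime] {x : L}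
    (hx : IsIntegral (LocalSubring.ofPrime (S.chart l) p).toSubring x) :
    x ∈ (LocalSubring.ofPrime (S.chart l) p).toSubring := by
  obtain ⟨⟨b, hb⟩, hint⟩ := IsIntegral.exists_multiple_integral_of_isLocalization
    (R := S.chart l) p.primeCompl x hx
  have h1 : IsIntegral (S.chart l) ((b : L) * x) := hint
  have hAlg : Algebra.IsIntegral (S.base l) (S.chart l) := by
    refine ⟨fun y => ?_⟩
    have h2 : IsIntegral (S.base l) (y : L) := S.mem_chart.1 y.2
    exact (isIntegral_algebraMap_iff (B := L) Subtype.val_injective).1 h2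
  have h2 : IsIntegral (S.base l) ((b : L) * x) := isIntegral_trans _ h1
  have h3 : (b : L) * x ∈ S.chart l := S.mem_chart.2 h2
  have h4 : IsUnit (algebraMap (S.chart l) (LocalSubring.ofPrime (S.chart l) p).toSubring b) :=
    IsLocalization.map_units (M := p.primeCompl) _ ⟨b, hb⟩
  obtain ⟨u, hu⟩ := h4
  have h5 : ((u : (LocalSubring.ofPrime (S.chart l) p).toSubring) : L) = (b : L) := by
    rw [hu]
    rfl
  have h6 : ((u⁻¹ : (LocalSubring.ofPrime (S.chart l) p).toSubringˣ) :
      (LocalSubring.ofPrime (S.chart l) p).toSubring).1 * (b : L) = 1 := by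
    rw [← h5]
    exact congrArg Subtype.val (u.inv_mul)
  have h7 : x = ((u⁻¹ : (LocalSubring.ofPrime (S.chart l) p).toSubringˣ) :
      (LocalSubring.ofPrime (S.chart l) p).toSubring).1 * ((b : L) * x) := by
    rw [← mul_assoc, h6, one_mul]
  rw [h7]
  exact Subring.mul_mem _ (Subtype.property _) (LocalSubring.le_ofPrime _ _ h3)

theorem algebraMap_mem_ofPrime (l : L) (p : Ideal (S.chart l)) [p.IsPrime] (c : k) :
    algebraMap k L c ∈ (LocalSubring.ofPrime (S.chart l) p).toSubring :=
  LocalSubring.le_ofPrime _ _ (S.algebraMap_mem_chart l c)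

end Surf

end HB
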