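import Pool.Agent.HB.A.GlueA

/-!
# HB-A-GlueB: independence of the chart, centres of valuations

Plan.
* `mem_ofPrime`: from `IsLocalization.AtPrime (LocalSubring.ofPrime A p).toSubring p`
  (`IsLocalization.mk'_surjective`, `IsLocalization.map_units`, and the scalar tower to `L`).
* `ofPrime_eq_of`: general principle.  `A`, `B` subrings of a field, `p` a prime of `A`,
  `O = ofPrime A p`, `B <= O`, `q` = the contraction to `B` of the maximal ideal of `O`; if for every
  `x` in `A` there is `b` in `B`, a unit in `O`, with `b x` in `B`, then `ofPrime B q = O`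
  (`LocalSubring.toSubring_injective`; `<=`: an element of `B` outside `q` is a unit in `O`;
  `>=`: `x/y` with `x, y` in `A`, `y` not in `p`: choose units `b, c` with `b x, c y` in `B`; then
  `x/y = (b x c)/(c y b)` and `c y b` is in `B`, a unit in `O`, hence outside `q`).
  Heights: both are the Krull dimension of `O` (`IsLocalization.AtPrime.ringKrullDim_eq_height`).
* `ofPrime_chart`: `l'/l` is in `S.chart l <= O` and `l/l'` is in `S.chart l' <= O`
  (`S.div_mem_chart`), so `l/l'` is a unit in `O`; apply the principle with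
  `b = (l/l')^n` (`S.mem_chart_pow`).
* `exists_chart_le`: `l = a + b s + c t`, `1 = a (1/l) + b (s/l) + c (t/l)` in the local ring `O`, so one
  of `1/l, s/l, t/l` is a unit in `O` (`IsLocalRing.isUnit_or_isUnit_of_isUnit_add`), i.e. one of
  `l/1, l/s, l/t` is in `O`; `S.chart_le_of_div` with `S.ofPrime_int`.
* `exists_chart_le_val`: among `1, s, t` choose `l` of maximal valuation, `m/l` in `R` for
  `m = 1, s, t` hence for all `m` of `V`; `S.chart_le` (valuation rings are integrally closed).
-/

set_option autoImplicit false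

open IsLocalRing

namespace HB

universe u

namespace Surf

variable {k L : Type u} [Field k] [Field L] [Algebra k L] (S : Surf k L)

theorem mem_ofPrime {K : Type u} [Field K] (A : Subring K) (p : Ideal A) [p.IsPrime] {x : K} :
    x ∈ (LocalSubring.ofPrime A p).toSubring ↔
      ∃ a b : A, b ∉ p ∧ x = (a : K) / (b : K) := by
  constructor
  · intro hx
    obtain ⟨a, b, h⟩ := IsLocalization.exists_mk'_eq p.primeCompl
      (⟨x, hx⟩ : (LocalSubring.ofPrime A p).toSubring)
    have h1 := IsLocalization.mk'_spec (LocalSubring.ofPrime A p).toSubring a b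
    rw [h] at h1
    have h2 : x * ((b : A) : K) = (a : K) := congrArg Subtype.val h1
    have h3 : ((b : A) : K) ≠ 0 := by
      intro h0
      have h4 : (b : A) = 0 := Subtype.ext h0
      exact b.2 (by rw [h4]; exact p.zero_mem)
    exact ⟨a, b, b.2, by rw [← h2, mul_div_cancel_right₀ _ h3]⟩
  · rintro ⟨a, b, hb, rfl⟩
    have h1 := IsLocalization.map_units (LocalSubring.ofPrime A p).toSubring
      (⟨b, hb⟩ : p.primeCompl)
    obtain ⟨c, hc⟩ := h1.exists_right_inv
    have h2 : (b : K) * (c : K) = 1 := congrArg Subtype.val hc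
    have h3 : (a : K) / (b : K) = (a : K) * (c : K) := by
      rw [div_eq_mul_inv, inv_eq_of_mul_eq_one_right h2]
    rw [h3]
    exact mul_mem (LocalSubring.le_ofPrime A p a.2) c.2

private theorem glueB_isUnit {K : Type u} [Field K] (O : Subring K) (x : O) (h0 : (x : K) ≠ 0)
    (h : (x : K)⁻¹ ∈ O) : IsUnit x := by
  refine IsUnit.of_mul_eq_one ⟨(x : K)⁻¹, h⟩ (Subtype.ext ?_)
  exact mul_inv_cancel₀ h0

private theorem glueB_inv {K : Type u} [Field K] (O : Subring K) (x : O)
    (h : IsUnit x) : (x : K)⁻¹ ∈ O ∧ (x : K) ≠ 0 := by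
  obtain ⟨c, hc⟩ := h.exists_right_inv
  have h2 : (x : K) * (c : K) = 1 := congrArg Subtype.val hc
  refine ⟨?_, left_ne_zero_of_mul_eq_one h2⟩
  rw [inv_eq_of_mul_eq_one_right h2]
  exact c.2

theorem ofPrime_eq_of {K : Type u} [Field K] (A B : Subring K) (p : Ideal A) [p.IsPrime]
    (h : B ≤ (LocalSubring.ofPrime A p).toSubring)
    (hA : ∀ x ∈ A, ∃ b ∈ B, b ≠ 0 ∧ b⁻¹ ∈ (LocalSubring.ofPrime A p).toSubring ∧ b * x ∈ B) :
    ∃ (q : Ideal B) (_ : q.IsPrime), LocalSubring.ofPrime B q = LocalSubring.ofPrime A p ∧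
      q.height = p.height ∧
      q = (maximalIdeal (LocalSubring.ofPrime A p).toSubring).comap (Subring.inclusion h) := by
  let q := (maximalIdeal (LocalSubring.ofPrime A p).toSubring).comap (Subring.inclusion h)
  have hq : q.IsPrime := Ideal.IsPrime.comap _
  have he : LocalSubring.ofPrime B q = LocalSubring.ofPrime A p := by
    apply LocalSubring.toSubring_injective
    apply le_antisymm
    · intro x hx
      obtain ⟨a, b, hb, rfl⟩ := (mem_ofPrime B q).1 hx
      have h1 : IsUnit (Subring.inclusion h b) := by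
        by_contra h2
        exact hb ((mem_maximalIdeal _).2 h2)
      have h3 := (glueB_inv _ _ h1).1
      rw [div_eq_mul_inv]
      exact mul_mem (h a.2) h3
    · intro x hx
      obtain ⟨a, b, hb, rfl⟩ := (mem_ofPrime A p).1 hx
      obtain ⟨b1, hb1, h10, h1i, h1a⟩ := hA a a.2
      obtain ⟨b2, hb2, h20, h2i, h2b⟩ := hA b b.2
      have hb0 : (b : K) ≠ 0 := by
        intro h0
        exact hb (by rw [show b = 0 from Subtype.ext h0]; exact p.zero_mem)
      have hbi : (b : K)⁻¹ ∈ (LocalSubring.ofPrime A p).toSubring := by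
        refine (mem_ofPrime A p).2 ⟨1, b, hb, ?_⟩
        rw [OneMemClass.coe_one, one_div]
      refine (mem_ofPrime B q).2 ⟨⟨b2 * (b1 * a), mul_mem hb2 h1a⟩, ⟨b1 * (b2 * b), mul_mem hb1 h2b⟩,
        ?_, ?_⟩
      · intro hmem
        have h5 : Subring.inclusion h ⟨b1 * (b2 * b), mul_mem hb1 h2b⟩ ∈
          maximalIdeal (LocalSubring.ofPrime A p).toSubring := hmem
        rw [mem_maximalIdeal] at h5
        apply h5
        apply glueB_isUnit
        · exact mul_ne_zero h10 (mul_ne_zero h20 hb0)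
        · change (b1 * (b2 * (b : K)))⁻¹ ∈ _
          rw [mul_inv, mul_inv]
          exact mul_mem h1i (mul_mem h2i hbi)
      · change (a : K) / b = (b2 * (b1 * a)) / (b1 * (b2 * b))
        field_simp
  refine ⟨q, hq, he, ?_, rfl⟩
  have h1 := IsLocalization.AtPrime.ringKrullDim_eq_height q (LocalSubring.ofPrime B q).toSubring
  have h2 := IsLocalization.AtPrime.ringKrullDim_eq_height p (LocalSubring.ofPrime A p).toSubring
  have h3 : ringKrullDim (LocalSubring.ofPrime B q).toSubring =
      ringKrullDim (LocalSubring.ofPrime A p).toSubring :=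
    congrArg (fun O : LocalSubring K => ringKrullDim O.toSubring) he
  rw [h1, h2] at h3
  exact WithBot.coe_injective h3

/-- Independence of the chart. -/
theorem ofPrime_chart {l l' : L} (hl : l ∈ S.V) (hl' : l' ∈ S.V) (h0 : l ≠ 0) (h0' : l' ≠ 0)
    (p : Ideal (S.chart l)) [p.IsPrime]
    (h : S.chart l' ≤ (LocalSubring.ofPrime (S.chart l) p).toSubring) :
    ∃ (q : Ideal (S.chart l')) (_ : q.IsPrime),
      LocalSubring.ofPrime (S.chart l') q = LocalSubring.ofPrime (S.chart l) p ∧
      q.height = p.height := by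
  obtain ⟨q, hq, h1, h2, -⟩ := ofPrime_eq_of (S.chart l) (S.chart l') p h (by
    intro x hx
    obtain ⟨n, hn⟩ := S.mem_chart_pow hl hl' h0 h0' hx
    refine ⟨(l / l') ^ n, pow_mem (S.div_mem_chart hl) n, pow_ne_zero _ (div_ne_zero h0 h0'), ?_, hn⟩
    rw [← inv_pow, inv_div]
    exact pow_mem (LocalSubring.le_ofPrime _ _ (S.div_mem_chart hl')) n)
  exact ⟨q, hq, h1, h2⟩

theorem exists_chart_le {l : L} (hl : l ∈ S.V) (h0 : l ≠ 0) (p : Ideal (S.chart l)) [p.IsPrime] :
    S.chart 1 ≤ (LocalSubring.ofPrime (S.chart l) p).toSubring ∨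
    S.chart S.s ≤ (LocalSubring.ofPrime (S.chart l) p).toSubring ∨
    S.chart S.t ≤ (LocalSubring.ofPrime (S.chart l) p).toSubring := by
  obtain ⟨a, b, c, habc⟩ := S.mem_V.1 hl
  set O := (LocalSubring.ofPrime (S.chart l) p).toSubring with hO
  have : IsLocalRing O := (LocalSubring.ofPrime (S.chart l) p).isLocalRing
  have hdiv : ∀ m ∈ S.V, m / l ∈ O := fun m hm => LocalSubring.le_ofPrime _ _ (S.div_mem_chart hm)
  have hk : ∀ c : k, algebraMap k L c ∈ O := S.algebraMap_mem_ofPrime l p
  have key : ∀ m ∈ S.V, ∀ hm : m / l ∈ O, IsUnit (⟨m / l, hm⟩ : O) → S.chart m ≤ O := by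
    intro m hmV hm hu
    obtain ⟨h1, h2⟩ := glueB_inv _ _ hu
    change (m / l)⁻¹ ∈ O at h1
    rw [inv_div] at h1
    exact S.chart_le_of_div h0 O hk (fun x hx => S.ofPrime_int l p hx)
      (LocalSubring.le_ofPrime _ _) h1
  let A : O := ⟨algebraMap k L a, hk a⟩
  let B : O := ⟨algebraMap k L b, hk b⟩
  let C : O := ⟨algebraMap k L c, hk c⟩
  let X : O := ⟨1 / l, hdiv 1 S.one_mem_V⟩
  let Y : O := ⟨S.s / l, hdiv S.s S.s_mem_V⟩
  let Z : O := ⟨S.t / l, hdiv S.t S.t_mem_V⟩
  have hsum : A * X + B * Y + C * Z = 1 := by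
    apply Subtype.ext
    change algebraMap k L a * (1 / l) + algebraMap k L b * (S.s / l) +
      algebraMap k L c * (S.t / l) = 1
    rw [Algebra.smul_def, Algebra.smul_def, Algebra.smul_def] at habc
    field_simp
    rw [mul_one] at habc
    rw [← habc]
  have hu : IsUnit (A * X + B * Y + C * Z) := by
    rw [hsum]
    exact isUnit_one
  rcases IsLocalRing.isUnit_or_isUnit_of_isUnit_add hu with h1 | h1
  · rcases IsLocalRing.isUnit_or_isUnit_of_isUnit_add h1 with h2 | h2
    · exact Or.inl (key 1 S.one_mem_V _ (isUnit_of_mul_isUnit_right h2))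
    · exact Or.inr (Or.inl (key S.s S.s_mem_V _ (isUnit_of_mul_isUnit_right h2)))
  · exact Or.inr (Or.inr (key S.t S.t_mem_V _ (isUnit_of_mul_isUnit_right h1)))

/-- Valuation rings have a centre. -/
theorem exists_chart_le_val (R : ValuationSubring L) (hk : ∀ c : k, algebraMap k L c ∈ R) :
    S.chart 1 ≤ R.toSubring ∨ S.chart S.s ≤ R.toSubring ∨ S.chart S.t ≤ R.toSubring := by
  have hR : ∀ x : L, IsIntegral R.toSubring x → x ∈ R.toSubring := by
    intro x hx
    have hx' : IsIntegral R x := hx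
    obtain ⟨y, hy⟩ := IsIntegrallyClosed.isIntegral_iff.1 hx'
    rw [← hy]
    exact y.2
  have key : ∀ m : L, m ≠ 0 → R.valuation 1 ≤ R.valuation m → R.valuation S.s ≤ R.valuation m →
      R.valuation S.t ≤ R.valuation m → S.chart m ≤ R.toSubring := by
    intro m hm h1 h2 h3
    have hd : ∀ x : L, R.valuation x ≤ R.valuation m → x / m ∈ R.toSubring := by
      intro x hx
      change x / m ∈ R
      rw [← R.valuation_le_one_iff, map_div₀]
      have hm' : R.valuation m ≠ 0 := (Valuation.ne_zero_iff _).2 hm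
      rw [div_le_one₀ (zero_lt_iff.2 hm')]
      exact hx
    refine S.chart_le R.toSubring hk hR ?_
    intro x hx
    obtain ⟨a, b, c, rfl⟩ := S.mem_V.1 hx
    rw [add_div, add_div, Algebra.smul_def, Algebra.smul_def, Algebra.smul_def, mul_div_assoc,
      mul_div_assoc, mul_div_assoc]
    exact add_mem (add_mem (mul_mem (hk a) (hd _ h1)) (mul_mem (hk b) (hd _ h2)))
      (mul_mem (hk c) (hd _ h3))
  have hne : ∀ m : L, R.valuation 1 ≤ R.valuation m → m ≠ 0 := by
    rintro m h rfl
    rw [map_one, map_zero] at h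
    exact not_lt.2 h zero_lt_one
  rcases le_total (R.valuation S.s) (R.valuation S.t) with h1 | h1
  · rcases le_total (R.valuation S.t) (R.valuation 1) with h2 | h2
    · exact Or.inl (key 1 one_ne_zero le_rfl (h1.trans h2) h2)
    · exact Or.inr (Or.inr (key _ (hne _ h2) h2 h1 le_rfl))
  · rcases le_total (R.valuation S.s) (R.valuation 1) with h2 | h2
    · exact Or.inl (key 1 one_ne_zero le_rfl h2 (h1.trans h2))
    · exact Or.inr (Or.inl (key _ (hne _ h2) h2 le_rfl h1))

end Surf

end HB
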