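import Pool.Agent.HB.A.CurveC

/-!
# HB-A-IntA: existence and uniqueness of the intersection cycles `D . C`

Plan.
* `exists_isInt`: `r` with `C.ord r = D C` (`exists_ordS_eq`), `E = D - div r` (`exists_isDiv`), so
  `E C = 0`.  For `P` on `C` choose a local equation `f_P` of `D` (`exists_isEq`) and put
  `z P = ordS (C.loc P) (C.res (f_P / r))`.  If `P` is on no curve of the support of `E`, then
  `f_P/r` has order 0 along all curves through `P`, is a unit of `O_P` (`Pt.unit_iff`) and
  `z P = 0` (`PD.ordS_res_eq_zero`); the remaining points are finitely many (`finite_on_on`,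
  `C` is not in the support of `E`).  `Finsupp.ofSupportFinite`.
* `exists_isInt_of_coeff`: the same with `r = 1`; independence of the local equation: `isEq_unique`,
  `PD.ordS_res_eq_zero`.
* `isInt_indep`: in `IsInt` any local equation may be used.
* `isInt_unique`: with `(r, f_P)` and `(r', f'_P)`: `f_P/r` and `f'_P/r'` have order 0 along `C`,
  and `z P - z' P = ordS (C.loc P) (C.res (f_P/f'_P)) + ordS (C.loc P) (C.res (r'/r))`; the first is
  0 because `f_P/f'_P` is a unit of `O_P`; so `z - z'` is the divisor on `C` of the nonzero function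
  `C.res (r'/r)`.
* `inter_eq`: definition of `inter`, `Submodule.Quotient.eq`, `isInt_unique`.
-/

set_option autoImplicit false

open IsLocalRing

namespace HB

universe u

namespace Surf

variable {k L : Type u} [Field k] [Field L] [Algebra k L] {S : Surf k L}
  [CharZero k] [IsAlgClosed k]

private theorem ord_div' (C : S.PD) {f g : L} (hf : f ≠ 0) (hg : g ≠ 0) :
    C.ord (f / g) = C.ord f - C.ord g := ordS_div C.1.toSubring hf hg

private theorem ord_zero_mem (C : S.PD) {f : L} (hf : f ≠ 0) (h : C.ord f = 0) :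
    f ∈ C.1.toSubring := by
  rw [mem_iff_ordS C.1.toSubring hf]
  exact h.ge

/-- product formula for the order of a restriction -/
private theorem ordS_res_mul (C : S.PD) {P : S.Pt} (hP : On P C) {f g : L} (hf : f ≠ 0)
    (hg : g ≠ 0) (hf' : C.ord f = 0) (hg' : C.ord g = 0) :
    ordS (C.loc P) (C.res (f * g)) = ordS (C.loc P) (C.res f) + ordS (C.loc P) (C.res g) := by
  rw [C.res_mul (ord_zero_mem C hf hf') (ord_zero_mem C hg hg')]
  exact C.ordS_loc_mul P hP ((C.res_ne_zero_iff_ord hf).2 hf') ((C.res_ne_zero_iff_ord hg).2 hg')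

/-- changing the local equation -/
private theorem change_eq (hS : S.Smooth) {D : S.Div} {C : S.PD} {r : L} (hr0 : r ≠ 0)
    (hr : C.ord r = D C) {P : S.Pt} (hP : On P C) {f g : L} (hf : S.IsEq D P f)
    (hg : S.IsEq D P g) :
    ordS (C.loc P) (C.res (f / r)) = ordS (C.loc P) (C.res (g / r)) := by
  obtain ⟨h1, h2⟩ := isEq_unique hS hf hg
  have e : f / r = (f / g) * (g / r) := by
    have := hg.1
    field_simp
  have h3 : C.ord (f / g) = 0 := by
    rw [ord_div' C hf.1 hg.1, hf.2 C hP, hg.2 C hP, sub_self]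
  have h4 : C.ord (g / r) = 0 := by
    rw [ord_div' C hg.1 hr0, hg.2 C hP, hr, sub_self]
  rw [e, ordS_res_mul C hP (div_ne_zero hf.1 hg.1) (div_ne_zero hg.1 hr0) h3 h4,
    C.ordS_res_eq_zero P hP h1 (by rwa [inv_div]), zero_add]

/-- the cycle for a given `r` -/
private theorem core (hS : S.Smooth) (D : S.Div) (C : S.PD) {r : L} (hr0 : r ≠ 0)
    (hr : C.ord r = D C) : ∃ z : S.Z0, (∀ P : S.Pt, On P C → ∀ f : L, S.IsEq D P f →
      z P = ordS (C.loc P) (C.res (f / r))) ∧ ∀ P : S.Pt, ¬ On P C → z P = 0 := by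
  classical
  obtain ⟨Dr, hDr⟩ := exists_isDiv (S := S) hr0
  choose f hf using fun P : S.Pt => exists_isEq hS D P
  set E : S.Div := D - Dr with hE
  have hEC : E C = 0 := by
    rw [hE, Finsupp.sub_apply, hDr.2 C, hr, sub_self]
  set w : S.Pt → ℚ := fun P => if On P C then (ordS (C.loc P) (C.res (f P / r)) : ℚ) else 0
    with hw
  have hfin : (Function.support w).Finite := by
    have h1 : (⋃ C' ∈ E.support, {P : S.Pt | On P C ∧ On P C'}).Finite := by
      refine Set.Finite.biUnion E.support.finite_toSet fun C' hC' => ?_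
      refine finite_on_on C C' ?_
      rintro rfl
      exact Finsupp.mem_support_iff.1 hC' hEC
    refine h1.subset fun P hP => ?_
    by_contra hc
    apply hP
    simp only [Set.mem_iUnion, not_exists] at hc
    by_cases hPC : On P C
    · have h2 : ∀ C' : S.PD, On P C' → C'.ord (f P / r) = 0 := by
        intro C' hC'
        rw [ord_div' C' (hf P).1 hr0, (hf P).2 C' hC', ← hDr.2 C', ← Finsupp.sub_apply, ← hE]
        by_contra h3
        exact hc C' (Finsupp.mem_support_iff.2 h3) ⟨hPC, hC'⟩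
      have h4 := (Pt.unit_iff hS P (div_ne_zero (hf P).1 hr0)).2 h2
      rw [hw]
      simp only [if_pos hPC]
      rw [C.ordS_res_eq_zero P hPC h4.1 h4.2, Int.cast_zero]
    · rw [hw]
      simp only [if_neg hPC]
  refine ⟨Finsupp.ofSupportFinite w hfin, ?_, ?_⟩
  · intro P hP g hg
    change w P = _
    rw [hw]
    simp only [if_pos hP]
    rw [change_eq hS hr0 hr hP (hf P) hg]
  · intro P hP
    change w P = _
    rw [hw]
    simp only [if_neg hP]

theorem exists_isInt (hS : S.Smooth) (D : S.Div) (C : S.PD) : ∃ z : S.Z0, S.IsInt D C z := by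
  obtain ⟨r, hr0, hr⟩ := exists_ordS_eq C.1.toSubring (D C)
  obtain ⟨z, hz, hz'⟩ := core hS D C hr0 hr
  refine ⟨z, r, hr0, hr, fun P hP => ?_, hz'⟩
  obtain ⟨f, hf⟩ := exists_isEq hS D P
  exact ⟨f, hf, hz P hP f hf⟩

/-- In the definition of `IsInt` every local equation may be used. -/
theorem isInt_indep (hS : S.Smooth) {D : S.Div} {C : S.PD} {z : S.Z0} (h : S.IsInt D C z) :
    ∃ r : L, r ≠ 0 ∧ C.ord r = D C ∧ (∀ P : S.Pt, On P C → ∀ f : L, S.IsEq D P f →
      z P = ordS (C.loc P) (C.res (f / r))) ∧ ∀ P : S.Pt, ¬ On P C → z P = 0 := by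
  obtain ⟨r, hr0, hr, hz, hz'⟩ := h
  refine ⟨r, hr0, hr, fun P hP f hf => ?_, hz'⟩
  obtain ⟨g, hg, hzg⟩ := hz P hP
  rw [hzg, change_eq hS hr0 hr hP hg hf]

/-- For a curve which is not in the support one may take `r = 1`. -/
theorem exists_isInt_of_coeff (hS : S.Smooth) (D : S.Div) (C : S.PD) (h : D C = 0) :
    ∃ z : S.Z0, S.IsInt D C z ∧ (∀ P : S.Pt, ¬ On P C → z P = 0) ∧
      ∀ P : S.Pt, On P C → ∀ f : L, S.IsEq D P f → z P = ordS (C.loc P) (C.res f) := by
  have hr : C.ord 1 = D C := by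
    rw [h]
    exact ordS_one C.1.toSubring
  obtain ⟨z, hz, hz'⟩ := core hS D C one_ne_zero hr
  refine ⟨z, ⟨1, one_ne_zero, hr, fun P hP => ?_, hz'⟩, hz', fun P hP f hf => ?_⟩
  · obtain ⟨f, hf⟩ := exists_isEq hS D P
    exact ⟨f, hf, hz P hP f hf⟩
  · have := hz P hP f hf
    rwa [div_one] at this

theorem isInt_unique (hS : S.Smooth) {D : S.Div} {C : S.PD} {z z' : S.Z0}
    (h : S.IsInt D C z) (h' : S.IsInt D C z') : z - z' ∈ S.rat := by
  obtain ⟨r, hr0, hr, hz, hz0⟩ := isInt_indep hS h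
  obtain ⟨r', hr0', hr', hz', hz0'⟩ := isInt_indep hS h'
  have hord : C.ord (r' / r) = 0 := by
    rw [ord_div' C hr0' hr0, hr, hr', sub_self]
  refine Submodule.subset_span ⟨C, C.res (r' / r),
    (C.res_ne_zero_iff_ord (div_ne_zero hr0' hr0)).2 hord, fun P hP => ?_, fun P hP => ?_⟩
  · obtain ⟨f, hf⟩ := exists_isEq hS D P
    have h3 : C.ord (f / r') = 0 := by
      rw [ord_div' C hf.1 hr0', hf.2 C hP, hr', sub_self]
    have e : f / r = (f / r') * (r' / r) := by
      field_simp
    rw [Finsupp.sub_apply, hz P hP f hf, hz' P hP f hf, e,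
      ordS_res_mul C hP (div_ne_zero hf.1 hr0') (div_ne_zero hr0' hr0) h3 hord]
    push_cast
    ring
  · rw [Finsupp.sub_apply, hz0 P hP, hz0' P hP, sub_zero]

theorem inter_eq (hS : S.Smooth) {D : S.Div} {C : S.PD} {z : S.Z0} (h : S.IsInt D C z) :
    S.inter D C = Submodule.Quotient.mk z := by
  have hex : ∃ z, S.IsInt D C z := ⟨z, h⟩
  unfold inter
  rw [dif_pos hex, Submodule.Quotient.eq]
  exact isInt_unique hS hex.choose_spec h

end Surf

end HB
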