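import Pool.Agent.HB.A.IntA

/-!
# HB-A-IntB: the class `D . C`: additivity, linear equivalence, symmetry

Plan.  Always use `inter_eq` for well chosen cycles.
* `inter_add`: `(r, f_P)` and `(r', f'_P)` for `D`, `D'` give `(r r', f_P f'_P)` for `D + D'`
  (`isEq_mul`, `PD.ordS_loc_mul`), and the cycle `z + z'`.
* `inter_neg`: `(r⁻¹, f_P⁻¹)`, cycle `-z`.
* `inter_zsmul`: `inter · C` is an additive homomorphism `S.Div → S.CH0` (`AddMonoidHom.mk'`,
  `map_zsmul`), and `n • x = (n : ℚ) • x` in a rational vector space (`Int.cast_smul_eq_zsmul`).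
* `inter_isDiv`: `(f, f)`, cycle `0` (`C.res 1 = 1`, `ordS_one`).
* `inter_linEq`: from the previous ones.
* `inter_congr`: both coefficients at `C` are 0, use `exists_isInt_of_coeff`; the two cycles are
  equal.
* `inter_comm`: trivial if `C = D`.  Otherwise let `z` be the cycle on `D` of
  `exists_isInt_of_coeff` for the divisor `single C 1`, and `z'` the one with the roles exchanged.
  If `P` is on both curves: the generators `x_C, x_D` of `PD.exists_gen` are local equations of
  `single C 1`, `single D 1` at `P`, and `ordS_res_comm` gives `z P = z' P`.  If `P` is on `D` but not on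
  `C` then `1` is a local equation of `single C 1` at `P` and `z P = 0 = z' P`.  So `z = z'`.
-/

set_option autoImplicit false

open IsLocalRing

namespace HB

universe u

namespace Surf

variable {k L : Type u} [Field k] [Field L] [Algebra k L] {S : Surf k L}
  [CharZero k] [IsAlgClosed k]

private theorem ordC_mul (C : S.PD) {f g : L} (hf : f ≠ 0) (hg : g ≠ 0) :
    C.ord (f * g) = C.ord f + C.ord g := ordS_mul _ hf hg

private theorem ordC_inv (C : S.PD) (f : L) : C.ord f⁻¹ = - C.ord f := ordS_inv _ f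

private theorem ordC_one (C : S.PD) : C.ord (1 : L) = 0 := ordS_one _

private theorem ordC_div (C : S.PD) {f g : L} (hf : f ≠ 0) (hg : g ≠ 0) :
    C.ord (f / g) = C.ord f - C.ord g := by
  rw [div_eq_mul_inv, ordC_mul C hf (inv_ne_zero hg), ordC_inv]
  ring

private theorem mem_of_ord (C : S.PD) {f : L} (hf : f ≠ 0) (h : C.ord f = 0) :
    C.res f ≠ 0 ∧ f ∈ C.1.toSubring ∧ f⁻¹ ∈ C.1.toSubring := by
  have h1 := (C.res_ne_zero_iff_ord hf).2 h
  exact ⟨h1, (C.res_ne_zero_iff hf).1 h1⟩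

private theorem ordS_res_one (C : S.PD) (P : S.Pt) (h : On P C) :
    ordS (C.loc P) (C.res (1 : L)) = 0 :=
  C.ordS_res_eq_zero P h (Subring.one_mem _) (by rw [inv_one]; exact Subring.one_mem _)

theorem inter_add (hS : S.Smooth) (D D' : S.Div) (C : S.PD) :
    S.inter (D + D') C = S.inter D C + S.inter D' C := by
  obtain ⟨z, hz⟩ := exists_isInt hS D C
  obtain ⟨z', hz'⟩ := exists_isInt hS D' C
  have key : S.IsInt (D + D') C (z + z') := by
    obtain ⟨r, hr0, hr, h1, h2⟩ := hz
    obtain ⟨r', hr0', hr', h1', h2'⟩ := hz'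
    refine ⟨r * r', mul_ne_zero hr0 hr0', ?_, fun P hP => ?_, fun P hP => ?_⟩
    · rw [ordC_mul C hr0 hr0', hr, hr', Finsupp.add_apply]
    · obtain ⟨f, hf, hzf⟩ := h1 P hP
      obtain ⟨f', hf', hzf'⟩ := h1' P hP
      refine ⟨f * f', isEq_mul hf hf', ?_⟩
      have e1 : C.ord (f / r) = 0 := by rw [ordC_div C hf.1 hr0, hf.2 C hP, hr, sub_self]
      have e2 : C.ord (f' / r') = 0 := by rw [ordC_div C hf'.1 hr0', hf'.2 C hP, hr', sub_self]
      obtain ⟨a1, a2, a3⟩ := mem_of_ord C (div_ne_zero hf.1 hr0) e1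
      obtain ⟨b1, b2, b3⟩ := mem_of_ord C (div_ne_zero hf'.1 hr0') e2
      rw [mul_div_mul_comm, C.res_mul a2 b2, C.ordS_loc_mul P hP a1 b1, Finsupp.add_apply, hzf, hzf']
      push_cast
      rfl
    · rw [Finsupp.add_apply, h2 P hP, h2' P hP, add_zero]
  rw [inter_eq hS hz, inter_eq hS hz', inter_eq hS key]
  rfl

theorem inter_neg (hS : S.Smooth) (D : S.Div) (C : S.PD) : S.inter (-D) C = - S.inter D C := by
  obtain ⟨z, hz⟩ := exists_isInt hS D C
  have key : S.IsInt (-D) C (-z) := by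
    obtain ⟨r, hr0, hr, h1, h2⟩ := hz
    refine ⟨r⁻¹, inv_ne_zero hr0, ?_, fun P hP => ?_, fun P hP => ?_⟩
    · rw [ordC_inv, hr, Finsupp.neg_apply]
    · obtain ⟨f, hf, hzf⟩ := h1 P hP
      refine ⟨f⁻¹, isEq_inv hf, ?_⟩
      have e1 : C.ord (f / r) = 0 := by rw [ordC_div C hf.1 hr0, hf.2 C hP, hr, sub_self]
      obtain ⟨a1, a2, a3⟩ := mem_of_ord C (div_ne_zero hf.1 hr0) e1
      have e2 : f⁻¹ / r⁻¹ = (f / r)⁻¹ := by
        rw [inv_div_inv, inv_div]
      rw [e2, C.res_inv a2 a3, C.ordS_loc_inv P hP, Finsupp.neg_apply, hzf]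
      push_cast
      rfl
    · rw [Finsupp.neg_apply, h2 P hP, neg_zero]
  rw [inter_eq hS hz, inter_eq hS key]
  rfl

theorem inter_isDiv (hS : S.Smooth) {f : L} {D : S.Div} (h : S.IsDiv f D) (C : S.PD) :
    S.inter D C = 0 := by
  have key : S.IsInt D C 0 := by
    refine ⟨f, h.1, (h.2 C).symm, fun P hP => ?_, fun P _ => rfl⟩
    refine ⟨f, ⟨h.1, fun E _ => (h.2 E).symm⟩, ?_⟩
    rw [div_self h.1, ordS_res_one C P hP]
    rfl
  rw [inter_eq hS key]
  rfl

theorem inter_zero (hS : S.Smooth) (C : S.PD) : S.inter 0 C = 0 := by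
  refine inter_isDiv hS (f := 1) ⟨one_ne_zero, fun E => ?_⟩ C
  rw [ordC_one]
  rfl

theorem inter_zsmul (hS : S.Smooth) (n : ℤ) (D : S.Div) (C : S.PD) :
    S.inter (n • D) C = (n : ℚ) • S.inter D C := by
  let φ : S.Div →+ S.CH0 :=
    { toFun := fun D => S.inter D C
      map_zero' := inter_zero hS C
      map_add' := fun D D' => inter_add hS D D' C }
  have h1 : φ (n • D) = n • φ D := map_zsmul φ n D
  have h2 : n • φ D = (n : ℚ) • φ D := (Int.cast_smul_eq_zsmul ℚ n (φ D)).symm
  exact h1.trans h2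

theorem inter_linEq (hS : S.Smooth) {D D' : S.Div} (h : S.LinEq D D') (C : S.PD) :
    S.inter D C = S.inter D' C := by
  obtain ⟨f, hf⟩ := h
  have h1 : D = (D - D') + D' := by rw [sub_add_cancel]
  rw [h1, inter_add hS, inter_isDiv hS hf, zero_add]

/-- Divisors with the same restriction to `C` have the same intersection with `C`. -/
theorem inter_congr (hS : S.Smooth) {D D' : S.Div} {C : S.PD} (h : D C = 0) (h' : D' C = 0)
    (hP : ∀ P : S.Pt, On P C → ∃ f f' : L, S.IsEq D P f ∧ S.IsEq D' P f' ∧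
      ordS (C.loc P) (C.res f) = ordS (C.loc P) (C.res f')) :
    S.inter D C = S.inter D' C := by
  obtain ⟨z, hz, hz0, hzP⟩ := exists_isInt_of_coeff hS D C h
  obtain ⟨z', hz', hz0', hzP'⟩ := exists_isInt_of_coeff hS D' C h'
  have e : z = z' := by
    refine Finsupp.ext fun P => ?_
    by_cases hPC : On P C
    · obtain ⟨f, f', hf, hf', hff⟩ := hP P hPC
      rw [hzP P hPC f hf, hzP' P hPC f' hf', hff]
    · rw [hz0 P hPC, hz0' P hPC]
  rw [inter_eq hS hz, inter_eq hS hz', e]

private theorem isEq_single_gen {C : S.PD} {P : S.Pt} {x : L} (hx0 : x ≠ 0) (hx1 : C.ord x = 1)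
    (hx : ∀ D : S.PD, On P D → D ≠ C → D.ord x = 0) : S.IsEq (Finsupp.single C 1) P x := by
  classical
  refine ⟨hx0, fun E hE => ?_⟩
  rw [Finsupp.single_apply]
  by_cases h : C = E
  · rw [if_pos h, ← h, hx1]
  · rw [if_neg h]
    exact hx E hE (Ne.symm h)

private theorem isEq_single_one {C : S.PD} {P : S.Pt} (h : ¬ On P C) :
    S.IsEq (Finsupp.single C 1) P 1 := by
  classical
  refine ⟨one_ne_zero, fun E hE => ?_⟩
  rw [Finsupp.single_apply, if_neg, ordC_one]
  intro e
  rw [e] at h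
  exact h hE

theorem inter_comm (hS : S.Smooth) (C D : S.PD) :
    S.inter (Finsupp.single C 1) D = S.inter (Finsupp.single D 1) C := by
  classical
  by_cases hCD : C = D
  · rw [hCD]
  have h1 : (Finsupp.single C 1 : S.Div) D = 0 := by
    rw [Finsupp.single_apply, if_neg hCD]
  have h2 : (Finsupp.single D 1 : S.Div) C = 0 := by
    rw [Finsupp.single_apply, if_neg (Ne.symm hCD)]
  obtain ⟨z, hz, hz0, hzP⟩ := exists_isInt_of_coeff hS _ D h1
  obtain ⟨z', hz', hz0', hzP'⟩ := exists_isInt_of_coeff hS _ C h2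
  have e : z = z' := by
    refine Finsupp.ext fun P => ?_
    by_cases hPD : On P D
    · by_cases hPC : On P C
      · obtain ⟨x, hx, hxp, hx1, hx0⟩ := PD.exists_gen hS C P hPC
        obtain ⟨y, hy, hyp, hy1, hy0⟩ := PD.exists_gen hS D P hPD
        have hxz : (x : L) ≠ 0 := by
          intro h
          exact hxp.ne_zero (Subtype.ext h)
        have hyz : (y : L) ≠ 0 := by
          intro h
          exact hyp.ne_zero (Subtype.ext h)
        rw [hzP P hPD x (isEq_single_gen hxz hx1 hx0), hzP' P hPC y (isEq_single_gen hyz hy1 hy0),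
          ordS_res_comm C D hCD P hPC hPD x y hx hy]
      · rw [hz0' P hPC, hzP P hPD 1 (isEq_single_one hPC), ordS_res_one D P hPD]
        rfl
    · by_cases hPC : On P C
      · rw [hz0 P hPD, hzP' P hPC 1 (isEq_single_one hPD), ordS_res_one C P hPC]
        rfl
      · rw [hz0 P hPD, hz0' P hPC]
  rw [inter_eq hS hz, inter_eq hS hz', e]

end Surf

end HB
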