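import Pool.Agent.HB.A.IntB

/-!
# HB-A-IntC: the intersection product of two divisors

Plan.  `prod D E` is by definition the sum over `E` of `(E C) • inter D C`.
* additivity in `E`: `Finsupp.sum_add_index'`; in `D`: `inter_add` termwise.
* `prod_single`: `Finsupp.sum_single_index`.
* `prod_comm`: by bilinearity (`Finsupp.induction_linear` twice) reduce to
  `prod (single C m) (single D n)`, which is `m n` times `inter (single C 1) D`, and
  `inter_comm`.
* `prod_isDiv_left`: `inter_isDiv`; `right`: `prod_comm`; `prod_linEq`: bilinearity.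
* `prod_congr_left`: if `D, D'` have the same class `inter` with every component of `E`.
-/

set_option autoImplicit false

open IsLocalRing

namespace HB

universe u

namespace Surf

variable {k L : Type u} [Field k] [Field L] [Algebra k L] {S : Surf k L}
  [CharZero k] [IsAlgClosed k]

theorem prod_add_left (hS : S.Smooth) (D D' E : S.Div) :
    S.prod (D + D') E = S.prod D E + S.prod D' E := by
  unfold prod
  rw [← Finsupp.sum_add]
  refine Finsupp.sum_congr fun C _ => ?_
  rw [inter_add hS, smul_add]

theorem prod_add_right (D E E' : S.Div) :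
    S.prod D (E + E') = S.prod D E + S.prod D E' := by
  unfold prod
  refine Finsupp.sum_add_index' (fun C => ?_) (fun C m n => ?_)
  · rw [Int.cast_zero, zero_smul]
  · rw [Int.cast_add, add_smul]

theorem prod_single (D : S.Div) (C : S.PD) (n : ℤ) :
    S.prod D (Finsupp.single C n) = (n : ℚ) • S.inter D C := by
  unfold prod
  refine Finsupp.sum_single_index ?_
  rw [Int.cast_zero, zero_smul]

private theorem prod_zero_left (hS : S.Smooth) (E : S.Div) : S.prod 0 E = 0 := by
  unfold prod
  refine Finset.sum_eq_zero fun C _ => ?_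
  change ((E C : ℤ) : ℚ) • S.inter 0 C = 0
  rw [inter_zero hS, smul_zero]

private theorem prod_zero_right (D : S.Div) : S.prod D 0 = 0 := by
  unfold prod
  exact Finsupp.sum_zero_index

private theorem single_eq_zsmul (C : S.PD) (m : ℤ) :
    (Finsupp.single C m : S.Div) = m • (Finsupp.single C 1 : S.Div) := by
  rw [Finsupp.smul_single, smul_eq_mul, mul_one]

private theorem prod_single_single (hS : S.Smooth) (C D : S.PD) (m n : ℤ) :
    S.prod (Finsupp.single C m) (Finsupp.single D n) =
      S.prod (Finsupp.single D n) (Finsupp.single C m) := by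
  rw [prod_single, prod_single, single_eq_zsmul C m, single_eq_zsmul D n, inter_zsmul hS,
    inter_zsmul hS, inter_comm hS C D, smul_comm]

theorem prod_comm (hS : S.Smooth) (D E : S.Div) : S.prod D E = S.prod E D := by
  induction D using Finsupp.induction_linear with
  | zero => rw [prod_zero_left hS, prod_zero_right]
  | add D D' h h' => rw [prod_add_left hS, prod_add_right, h, h']
  | single C m =>
    induction E using Finsupp.induction_linear with
    | zero => rw [prod_zero_left hS, prod_zero_right]
    | add E E' h h' => rw [prod_add_left hS, prod_add_right, h, h']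
    | single D n => exact prod_single_single hS C D m n

theorem prod_zsmul_left (hS : S.Smooth) (n : ℤ) (D E : S.Div) :
    S.prod (n • D) E = (n : ℚ) • S.prod D E := by
  unfold prod
  rw [Finsupp.smul_sum]
  refine Finsupp.sum_congr fun C _ => ?_
  rw [inter_zsmul hS, smul_comm]

theorem prod_zsmul_right (hS : S.Smooth) (n : ℤ) (D E : S.Div) :
    S.prod D (n • E) = (n : ℚ) • S.prod D E := by
  rw [prod_comm hS, prod_zsmul_left hS, prod_comm hS]

theorem prod_neg_left (hS : S.Smooth) (D E : S.Div) : S.prod (-D) E = - S.prod D E := by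
  have h : (-D : S.Div) = (-1 : ℤ) • D := by rw [neg_smul, one_smul]
  rw [h, prod_zsmul_left hS, Int.cast_neg, Int.cast_one, neg_smul, one_smul]

theorem prod_neg_right (hS : S.Smooth) (D E : S.Div) : S.prod D (-E) = - S.prod D E := by
  rw [prod_comm hS, prod_neg_left hS, prod_comm hS]

theorem prod_isDiv_left (hS : S.Smooth) {f : L} {D : S.Div} (h : S.IsDiv f D) (E : S.Div) :
    S.prod D E = 0 := by
  unfold prod
  refine Finset.sum_eq_zero fun C _ => ?_
  change ((E C : ℤ) : ℚ) • S.inter D C = 0
  rw [inter_isDiv hS h, smul_zero]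

theorem prod_isDiv_right (hS : S.Smooth) {f : L} {E : S.Div} (h : S.IsDiv f E) (D : S.Div) :
    S.prod D E = 0 := by
  rw [prod_comm hS, prod_isDiv_left hS h]

theorem prod_linEq (hS : S.Smooth) {D D' E E' : S.Div} (h : S.LinEq D D') (h' : S.LinEq E E') :
    S.prod D E = S.prod D' E' := by
  obtain ⟨f, hf⟩ := h
  obtain ⟨g, hg⟩ := h'
  have h1 : D = (D - D') + D' := (sub_add_cancel D D').symm
  have h2 : E = (E - E') + E' := (sub_add_cancel E E').symm
  have h3 : S.prod D E = S.prod D' E := by
    rw [h1, prod_add_left hS, prod_isDiv_left hS hf, zero_add]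
  have h4 : S.prod D' E = S.prod D' E' := by
    rw [h2, prod_add_right, prod_isDiv_right hS hg, zero_add]
  rw [h3, h4]

theorem prod_congr_left {D D' E : S.Div} (h : ∀ C, E C ≠ 0 → S.inter D C = S.inter D' C) :
    S.prod D E = S.prod D' E := by
  unfold prod
  refine Finsupp.sum_congr fun C hC => ?_
  rw [h C (Finsupp.mem_support_iff.mp hC)]

/-- The product of two divisors without common component is represented by an explicit cycle. -/
theorem prod_eq_of_disjoint (hS : S.Smooth) (D E : S.Div) (h : ∀ C, E C ≠ 0 → D C = 0) :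
    ∃ z : S.Z0, S.prod D E = Submodule.Quotient.mk z ∧
      ∀ (P : S.Pt) (f : L), S.IsEq D P f → open Classical in
        z P = ∑ C ∈ E.support, if On P C then (E C : ℚ) * (ordS (C.loc P) (C.res f) : ℚ) else 0 := by
  classical
  have h1 : ∀ C : S.PD, ∃ z : S.Z0, E C ≠ 0 → (S.IsInt D C z ∧ (∀ P : S.Pt, ¬ On P C → z P = 0) ∧
      ∀ P : S.Pt, On P C → ∀ f : L, S.IsEq D P f → z P = ordS (C.loc P) (C.res f)) := by
    intro C
    by_cases hC : E C = 0
    · exact ⟨0, fun h2 => absurd hC h2⟩
    · obtain ⟨z, hz⟩ := exists_isInt_of_coeff hS D C (h C hC)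
      exact ⟨z, fun _ => hz⟩
  choose z hz using h1
  refine ⟨∑ C ∈ E.support, ((E C : ℤ) : ℚ) • z C, ?_, ?_⟩
  · have h2 : S.prod D E = ∑ C ∈ E.support, ((E C : ℤ) : ℚ) • S.inter D C := rfl
    rw [h2, ← Submodule.mkQ_apply, map_sum]
    refine Finset.sum_congr rfl fun C hC => ?_
    rw [map_smul, Submodule.mkQ_apply,
      inter_eq hS (hz C (Finsupp.mem_support_iff.mp hC)).1]
  · intro P f hf
    rw [Finsupp.finsetSum_apply]
    refine Finset.sum_congr rfl fun C hC => ?_
    obtain ⟨_, h3, h4⟩ := hz C (Finsupp.mem_support_iff.mp hC)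
    rw [Finsupp.smul_apply, smul_eq_mul]
    by_cases hP : On P C
    · rw [if_pos hP, h4 P hP f hf]
    · rw [if_neg hP, h3 P hP, mul_zero]

end Surf

end HB
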