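import Pool.Agent.HB.A.OrdA

/-!
# HB-A-OrdB: the order function of a discrete valuation ring

Plan.  A discrete valuation ring is noetherian of dimension one, so `OrdA` applies
(`Ring.KrullDimLE 1 R` should be found by instances; otherwise add a `haveI`).
`Ring.ord_of_irreducible` gives order one for an irreducible `x`; every nonzero `f` of `F` is
`x^n u` with `u` a unit and `n` an integer (`IsDiscreteValuationRing.eq_unit_mul_pow_irreducible`
for numerator and denominator), so `ordS R f = n`; this gives `mem_iff_ordS`, `exists_ordS_eq`.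
`ordS_add`: `f + g = f (1 + g/f)` if `ord f <= ord g`, `1 + g/f` is in `R`.
-/

set_option autoImplicit false

open IsLocalRing

namespace HB

universe u

variable {F : Type u} [Field F] (R : Subring F) [IsDiscreteValuationRing R] [IsFractionRing R F]

theorem ordS_irreducible {x : R} (hx : Irreducible x) : ordS R (x : F) = 1 := by
  have h0 : (x : F) ≠ 0 := fun h => hx.ne_zero (Subtype.ext h)
  rw [ordS_of_mem R x.2 h0]
  have h1 : Ring.ord R (⟨(x : F), x.2⟩ : R) = 1 := Ring.ord_of_irreducible hx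
  rw [h1]
  rfl

theorem exists_eq_zpow_mul {x : R} (hx : Irreducible x) {f : F} (h0 : f ≠ 0) :
    ∃ u : F, u ∈ R ∧ u⁻¹ ∈ R ∧ u ≠ 0 ∧ f = (x : F) ^ (ordS R f) * u := by
  have hx0 : (x : F) ≠ 0 := fun h => hx.ne_zero (Subtype.ext h)
  have key : ∃ (n : ℤ) (u : F), u ∈ R ∧ u⁻¹ ∈ R ∧ u ≠ 0 ∧ f = (x : F) ^ n * u := by
    obtain ⟨a, b, hb, hab⟩ := IsFractionRing.div_surjective (A := R) f
    have hb0 : b ≠ 0 := nonZeroDivisors.ne_zero hb
    have ha0 : a ≠ 0 := by
      rintro rfl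
      rw [map_zero, zero_div] at hab
      exact h0 hab.symm
    obtain ⟨n, u, hu⟩ := IsDiscreteValuationRing.eq_unit_mul_pow_irreducible ha0 hx
    obtain ⟨m, w, hw⟩ := IsDiscreteValuationRing.eq_unit_mul_pow_irreducible hb0 hx
    have hunit : ∀ t : Rˣ, (((t : R) : F)) * (((t⁻¹ : Rˣ) : R) : F) = 1 := by
      intro t
      have h1 : ((t : R)) * ((t⁻¹ : Rˣ) : R) = 1 := t.mul_inv
      exact congrArg (fun z : R => (z : F)) h1
    have hu0 : ∀ t : Rˣ, (((t : R) : F)) ≠ 0 := fun t h => by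
      have := hunit t
      rw [h, zero_mul] at this
      exact zero_ne_one this
    have hinv : ∀ t : Rˣ, (((t : R) : F))⁻¹ = (((t⁻¹ : Rˣ) : R) : F) := fun t =>
      inv_eq_of_mul_eq_one_right (hunit t)
    refine ⟨(n : ℤ) - m, ((u : R) : F) * (((w⁻¹ : Rˣ) : R) : F), ?_, ?_, ?_, ?_⟩
    · exact R.mul_mem (u : R).2 ((w⁻¹ : Rˣ) : R).2
    · rw [mul_inv, hinv u, hinv w⁻¹]
      exact R.mul_mem ((u⁻¹ : Rˣ) : R).2 ((w⁻¹⁻¹ : Rˣ) : R).2
    · exact mul_ne_zero (hu0 u) (hu0 w⁻¹)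
    · have ha' : (algebraMap R F a) = ((u : R) : F) * (x : F) ^ n := by
        rw [hu]
        rfl
      have hb' : (algebraMap R F b) = ((w : R) : F) * (x : F) ^ m := by
        rw [hw]
        rfl
      rw [← hab, ha', hb', ← hinv w, zpow_sub₀ hx0, zpow_natCast, zpow_natCast]
      have := hu0 w
      field_simp
  obtain ⟨n, u, hu, hui, hu0, hf⟩ := key
  have hn : ordS R f = n := by
    rw [hf, ordS_mul R (zpow_ne_zero n hx0) hu0, ordS_zpow, ordS_irreducible R hx,
      ordS_unit R hu hui]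
    ring
  exact ⟨u, hu, hui, hu0, by rw [hn]; exact hf⟩

theorem mem_iff_ordS {f : F} (h0 : f ≠ 0) : f ∈ R ↔ 0 ≤ ordS R f := by
  refine ⟨fun h => ordS_nonneg R h, fun h => ?_⟩
  obtain ⟨x, hx⟩ := IsDiscreteValuationRing.exists_irreducible R
  obtain ⟨u, hu, -, -, hf⟩ := exists_eq_zpow_mul R hx h0
  obtain ⟨n, hn⟩ := Int.eq_ofNat_of_zero_le h
  rw [hf, hn, zpow_natCast]
  exact R.mul_mem (R.pow_mem x.2 n) hu

theorem exists_ordS_eq (n : ℤ) : ∃ f : F, f ≠ 0 ∧ ordS R f = n := by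
  obtain ⟨x, hx⟩ := IsDiscreteValuationRing.exists_irreducible R
  have hx0 : (x : F) ≠ 0 := fun h => hx.ne_zero (Subtype.ext h)
  exact ⟨(x : F) ^ n, zpow_ne_zero n hx0, by rw [ordS_zpow, ordS_irreducible R hx, mul_one]⟩

theorem ordS_add {f g : F} (hf : f ≠ 0) (hg : g ≠ 0) (h : f + g ≠ 0) :
    min (ordS R f) (ordS R g) ≤ ordS R (f + g) := by
  have key : ∀ {f g : F}, f ≠ 0 → g ≠ 0 → f + g ≠ 0 → ordS R f ≤ ordS R g →
      ordS R f ≤ ordS R (f + g) := by
    intro f g hf hg h hle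
    have h1 : g / f ∈ R := by
      rw [mem_iff_ordS R (div_ne_zero hg hf), ordS_div R hg hf]
      omega
    have h2 : f + g = f * (1 + g / f) := by
      rw [mul_add, mul_one, mul_div_cancel₀ _ hf]
    have h3 : 1 + g / f ≠ 0 := by
      intro h3
      rw [h3, mul_zero] at h2
      exact h h2
    rw [h2, ordS_mul R hf h3]
    have := ordS_nonneg R (R.add_mem R.one_mem h1)
    omega
  rcases le_total (ordS R f) (ordS R g) with hle | hle
  · rw [min_eq_left hle]
    exact key hf hg h hle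
  · rw [min_eq_right hle, add_comm f g]
    exact key hg hf (by rwa [add_comm]) hle

theorem ordS_add_eq {f g : F} (hf : f ≠ 0) (hg : g ≠ 0) (h : ordS R f < ordS R g) :
    ordS R (f + g) = ordS R f := by
  have hneg : ∀ z : F, z ≠ 0 → ordS R (-z) = ordS R z := by
    intro z hz
    have h1 : ordS R (-1 : F) = 0 := ordS_unit R (R.neg_mem R.one_mem) (by
      rw [inv_neg, inv_one]
      exact R.neg_mem R.one_mem)
    rw [← neg_one_mul, ordS_mul R (neg_ne_zero.2 one_ne_zero) hz, h1, zero_add]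
  have h0 : f + g ≠ 0 := by
    intro h0
    rw [eq_neg_of_add_eq_zero_left h0, hneg g hg] at h
    exact lt_irrefl _ h
  have h1 := ordS_add R hf hg h0
  rw [min_eq_left h.le] at h1
  have h2 := ordS_add R h0 (neg_ne_zero.2 hg) (by rwa [add_neg_cancel_right])
  rw [add_neg_cancel_right, hneg g hg] at h2
  rcases min_le_iff.1 h2 with h3 | h3
  · omega
  · omega

theorem mem_maximalIdeal_iff_ordS {f : F} (h0 : f ≠ 0) (hf : f ∈ R) :
    (⟨f, hf⟩ : R) ∈ maximalIdeal R ↔ 0 < ordS R f := by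
  exact (ordS_pos_iff R hf h0).symm

/-- Two discrete valuation rings of the same field, one contained in the other, are equal. -/
theorem dvr_eq_of_le (R' : Subring F) (h : R ≤ R') (h' : R' ≠ ⊤) : R = R' := by
  refine le_antisymm h fun f hf => ?_
  by_contra hfR
  apply h'
  rw [eq_top_iff]
  intro g _
  obtain ⟨x, hx⟩ := IsDiscreteValuationRing.exists_irreducible R
  have hx0 : (x : F) ≠ 0 := fun h => hx.ne_zero (Subtype.ext h)
  have hf0 : f ≠ 0 := by
    rintro rfl
    exact hfR R.zero_mem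
  have hneg : ordS R f < 0 := by
    by_contra h1
    exact hfR ((mem_iff_ordS R hf0).2 (not_lt.1 h1))
  obtain ⟨u, -, hui, hu0, hfu⟩ := exists_eq_zpow_mul R hx hf0
  obtain ⟨k, hk⟩ : ∃ k : ℕ, ordS R f = -((k : ℤ) + 1) := ⟨(-(ordS R f) - 1).toNat, by omega⟩
  have h1 : (x : F)⁻¹ ∈ R' := by
    have h2 : (x : F)⁻¹ = (x : F) ^ k * (f * u⁻¹) := by
      rw [hfu, hk, mul_assoc, mul_inv_cancel₀ hu0, mul_one, zpow_neg, zpow_add_one₀ hx0,
        zpow_natCast, mul_inv, ← mul_assoc, mul_inv_cancel₀ (pow_ne_zero k hx0), one_mul]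
    rw [h2]
    exact R'.mul_mem (R'.pow_mem (h x.2) k) (R'.mul_mem hf (h hui))
  by_cases hg0 : g = 0
  · rw [hg0]
    exact R'.zero_mem
  obtain ⟨w, hw, -, -, hgw⟩ := exists_eq_zpow_mul R hx hg0
  rw [hgw]
  refine R'.mul_mem ?_ (h hw)
  rcases Int.eq_nat_or_neg (ordS R g) with ⟨n, hn | hn⟩
  · rw [hn, zpow_natCast]
    exact R'.pow_mem (h x.2) n
  · rw [hn, zpow_neg, zpow_natCast, ← inv_pow]
    exact R'.pow_mem h1 n

end HB
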