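import Pool.Agent.HB.A.ChartB
import Pool.Agent.HB.A.GlueB
import Pool.Agent.HB.A.OrdB

/-!
# HB-A-LocA: local rings of closed points and prime divisors

Plan.  Destructure a point: `rcases P with ⟨O, l, hl, h0, p, hp, hm, rfl⟩`, then
`O = LocalSubring.ofPrime (S.chart l) p` and `IsLocalization.AtPrime O.toSubring p` is an instance.
* fraction rings: `S.chart_frac` and
  `IsFractionRing.isFractionRing_of_isDomain_of_isLocalization` (or directly).
* `int`: `S.ofPrime_int`.
* noetherian: `S.chart_noeth`, `IsLocalization.isNoetherianRing`.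
* heights: `IsLocalization.AtPrime.ringKrullDim_eq_height`, `S.chart_height`,
  `IsLocalRing.maximalIdeal_height_eq_ringKrullDim`.
* discrete valuation ring: noetherian local domain, integrally closed, of dimension one:
  `IsDiscreteValuationRing.TFAE` (`Mathlib/RingTheory/DiscreteValuationRing/TFAE.lean`).
* `PD.ht`: the maximal ideal of a discrete valuation ring.
* `Pt.res`: `x = a/b` with `a, b` in the chart, `b` not in `p`; by `S.chart_res` `a - α`, `b - β` are
  in `p` for constants `α, β`, `β <> 0`; take `c = α/β`.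
-/

set_option autoImplicit false

open IsLocalRing

namespace HB

universe u

namespace Surf

variable {k L : Type u} [Field k] [Field L] [Algebra k L] {S : Surf k L}

theorem locA_frac {l : L} (hl : l ∈ S.V) (h0 : l ≠ 0) (p : Ideal (S.chart l)) [p.IsPrime] :
    IsFractionRing (LocalSubring.ofPrime (S.chart l) p).toSubring L := by
  have : IsFractionRing (S.chart l) L := S.chart_frac hl h0
  exact IsFractionRing.isFractionRing_of_isDomain_of_isLocalization p.primeCompl
    (LocalSubring.ofPrime (S.chart l) p).toSubring L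

instance (P : S.Pt) : IsFractionRing P.1.toSubring L := by
  obtain ⟨O, l, hl, h0, p, hp, hm, rfl⟩ := P
  exact locA_frac hl h0 p

instance (C : S.PD) : IsFractionRing C.1.toSubring L := by
  obtain ⟨O, l, hl, h0, p, hp, hm, rfl⟩ := C
  exact locA_frac hl h0 p

theorem Pt.int (P : S.Pt) {x : L} (hx : IsIntegral P.1.toSubring x) : x ∈ P.1.toSubring := by
  obtain ⟨O, l, hl, h0, p, hp, hm, rfl⟩ := P
  exact S.ofPrime_int l p hx

theorem PD.int (C : S.PD) {x : L} (hx : IsIntegral C.1.toSubring x) : x ∈ C.1.toSubring := by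
  obtain ⟨O, l, hl, h0, p, hp, hm, rfl⟩ := C
  exact S.ofPrime_int l p hx

variable [CharZero k] [IsAlgClosed k]

omit [IsAlgClosed k] in
theorem locA_noeth {l : L} (hl : l ∈ S.V) (h0 : l ≠ 0) (p : Ideal (S.chart l)) [p.IsPrime] :
    IsNoetherianRing (LocalSubring.ofPrime (S.chart l) p).toSubring := by
  have : IsNoetherianRing (S.chart l) := S.chart_noeth hl h0
  exact IsLocalization.isNoetherianRing p.primeCompl _ inferInstance

instance (P : S.Pt) : IsNoetherianRing P.1.toSubring := by
  obtain ⟨O, l, hl, h0, p, hp, hm, rfl⟩ := P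
  exact locA_noeth hl h0 p

instance (C : S.PD) : IsDiscreteValuationRing C.1.toSubring := by
  have hfr : IsFractionRing C.1.toSubring L := inferInstance
  have hic : IsIntegrallyClosed C.1.toSubring := by
    rw [isIntegrallyClosed_iff L]
    intro x hx
    exact ⟨⟨x, C.int hx⟩, rfl⟩
  obtain ⟨O, l, hl, h0, p, hp, hm, rfl⟩ := C
  have := locA_noeth hl h0 p
  have hdim : ringKrullDim (LocalSubring.ofPrime (S.chart l) p).toSubring = 1 := by
    rw [IsLocalization.AtPrime.ringKrullDim_eq_height p, hm]
    rfl
  have hnf : ¬ IsField (LocalSubring.ofPrime (S.chart l) p).toSubring := by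
    intro h
    rw [ringKrullDim_eq_zero_of_isField h] at hdim
    exact zero_ne_one hdim
  have : Ring.KrullDimLE 1 (LocalSubring.ofPrime (S.chart l) p).toSubring :=
    Ring.krullDimLE_iff.mpr hdim.le
  have h03 := ((IsDiscreteValuationRing.TFAE
    (LocalSubring.ofPrime (S.chart l) p).toSubring hnf).out 0 3 :)
  rw [h03]
  refine ⟨hic, maximalIdeal _, ⟨?_, inferInstance⟩, ?_⟩
  · exact isField_iff_maximalIdeal_eq.not.mp hnf
  · rintro q ⟨hq, hq'⟩
    exact eq_maximalIdeal (Ring.krullDimLE_one_iff_of_isPrime_bot.mp inferInstance q hq hq')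

theorem Pt.height (P : S.Pt) : (maximalIdeal P.1.toSubring).height = 2 := by
  obtain ⟨O, l, hl, h0, p, hp, hm, rfl⟩ := P
  have h1 := IsLocalRing.maximalIdeal_height_eq_ringKrullDim
    (R := (LocalSubring.ofPrime (S.chart l) p).toSubring)
  rw [IsLocalization.AtPrime.ringKrullDim_eq_height p, S.chart_height hl h0 p] at h1
  exact_mod_cast h1

theorem Pt.dim (P : S.Pt) : ringKrullDim P.1.toSubring = 2 := by
  rw [← IsLocalRing.maximalIdeal_height_eq_ringKrullDim, P.height]
  rfl

theorem locA_res {l : L} (hl : l ∈ S.V) (h0 : l ≠ 0) (p : Ideal (S.chart l)) [p.IsPrime]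
    (hp : p.IsMaximal) (x : (LocalSubring.ofPrime (S.chart l) p).toSubring) :
    ∃ c : k, x - (⟨algebraMap k L c, S.algebraMap_mem_ofPrime l p c⟩ :
      (LocalSubring.ofPrime (S.chart l) p).toSubring) ∈ maximalIdeal _ := by
  obtain ⟨⟨a, b⟩, hab⟩ := IsLocalization.surj p.primeCompl x
  obtain ⟨α, hα⟩ := S.chart_res hl h0 p a
  obtain ⟨β, hβ⟩ := S.chart_res hl h0 p (b : S.chart l)
  have hβ0 : β ≠ 0 := by
    rintro rfl
    rw [map_zero, sub_zero] at hβ
    exact b.2 hβ
  refine ⟨α / β, ?_⟩
  have hu : IsUnit (algebraMap (S.chart l) (LocalSubring.ofPrime (S.chart l) p).toSubring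
    (b : S.chart l)) := IsLocalization.map_units _ b
  have hmem : ∀ y : S.chart l, y ∈ p →
      algebraMap (S.chart l) (LocalSubring.ofPrime (S.chart l) p).toSubring y ∈
        maximalIdeal _ := by
    intro y hy
    exact (IsLocalization.AtPrime.to_map_mem_maximal_iff _ p y).mpr hy
  set κ : (LocalSubring.ofPrime (S.chart l) p).toSubring :=
    ⟨algebraMap k L (α / β), S.algebraMap_mem_ofPrime l p (α / β)⟩ with hκ
  have hkey : (x - κ) * algebraMap (S.chart l) _ (b : S.chart l) ∈
      maximalIdeal (LocalSubring.ofPrime (S.chart l) p).toSubring := by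
    have e : (x - κ) * algebraMap (S.chart l) _ (b : S.chart l) =
        algebraMap (S.chart l) _ (a - algebraMap k (S.chart l) α) -
        κ * algebraMap (S.chart l) _ ((b : S.chart l) - algebraMap k (S.chart l) β) := by
      have e2 : κ * algebraMap (S.chart l) _ (algebraMap k (S.chart l) β) =
          algebraMap (S.chart l) _ (algebraMap k (S.chart l) α) := by
        apply Subtype.ext
        change algebraMap k L (α / β) * algebraMap k L β = algebraMap k L α
        rw [← map_mul, div_mul_cancel₀ _ hβ0]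
      rw [map_sub, map_sub, ← hab]
      linear_combination -e2
    rw [e]
    exact Ideal.sub_mem _ (hmem _ hα) (Ideal.mul_mem_left _ _ (hmem _ hβ))
  rcases (Ideal.IsPrime.mem_or_mem inferInstance hkey) with h | h
  · exact h
  · exact absurd hu ((mem_maximalIdeal _).mp h)

theorem Pt.res (P : S.Pt) (x : P.1.toSubring) :
    ∃ c : k, x - algebraMap k P.1.toSubring c ∈ maximalIdeal P.1.toSubring := by
  obtain ⟨O, l, hl, h0, p, hp, hm, rfl⟩ := P
  exact locA_res hl h0 p hm x

end Surf

end HB
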