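import Pool.Agent.HB.A.LocA

/-!
# HB-A-LocC: curves through a closed point

Plan.
* `Pt.ofPrime_of_chart`: if `S.chart l <= O_P` then `O_P` is the localisation of `S.chart l` at a
  maximal ideal: `S.ofPrime_chart`, `S.chart_height_max`, `S.chart_height` (`P` is the localisation
  of some chart at a maximal ideal, of height 2).  Same for `PD.ofPrime_of_chart` (height 1).
* `Pt.exists_chart`, `PD.exists_chart`: `S.exists_chart_le`.
* `Pt.eq_of_le`: `P` is `ofPrime (S.chart l) M`, `S.chart l <= O_P <= O_Q`, so `Q` is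
  `ofPrime (S.chart l) M'` (`Pt.ofPrime_of_chart`), and an element of the chart outside `M` is a unit
  in `O_P`, hence in `O_Q`, hence outside `M'`: `M' <= M`, both maximal, equal.
  `PD.eq_of_le`: discrete valuation rings, `dvr_eq_of_le`, then `Subtype.ext`,
  `LocalSubring.toSubring_injective`.
* `not_le_pt`: if `O_C <= O_P` then `O_C = O_P` by `dvr_eq_of_le` (`O_P <> top` because it is not a
  field, its dimension is 2), but the heights of the maximal ideals are 1 and 2.
* `ideal` is prime: comap of a prime.  `height_ideal`, `ofPrime_ideal`: `P` is the localisation of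
  `A = S.chart l` at `M`, `A <= O_P <= O_C`, so `C` is the localisation of `A` at a prime
  `q <= M` of height one; apply `ofPrime_eq_of` with `A`, `B = O_P` (every element of `A` is in `B`,
  `b = 1`).
* `exists_of_height_one`: `p` a prime of height one in `O_P`, `q` its contraction to `A`;
  `O_P` localised at `p` is `A` localised at `q` (`ofPrime_eq_of` with the roles exchanged: every
  element of `O_P` is `a/b`, multiply by `b`), `q` has height one, so it defines `C`.
-/

set_option autoImplicit false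

open IsLocalRing

namespace HB

universe u

namespace Surf

variable {k L : Type u} [Field k] [Field L] [Algebra k L] {S : Surf k L}
  [CharZero k] [IsAlgClosed k]

theorem Pt.exists_chart (P : S.Pt) : ∃ l ∈ ({1, S.s, S.t} : Set L), S.chart l ≤ P.1.toSubring := by
  obtain ⟨O, l, hl, h0, p, hp, hm, rfl⟩ := P
  rcases S.exists_chart_le hl h0 p with h | h | h
  · exact ⟨1, by simp, h⟩
  · exact ⟨S.s, by simp, h⟩
  · exact ⟨S.t, by simp, h⟩

theorem PD.exists_chart (C : S.PD) : ∃ l ∈ ({1, S.s, S.t} : Set L), S.chart l ≤ C.1.toSubring := by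
  obtain ⟨O, l, hl, h0, p, hp, hm, rfl⟩ := C
  rcases S.exists_chart_le hl h0 p with h | h | h
  · exact ⟨1, by simp, h⟩
  · exact ⟨S.s, by simp, h⟩
  · exact ⟨S.t, by simp, h⟩

theorem ne_zero_of_mem {l : L} (hl : l ∈ ({1, S.s, S.t} : Set L)) : l ∈ S.V ∧ l ≠ 0 := by
  rcases hl with rfl | rfl | rfl
  · exact ⟨S.one_mem_V, one_ne_zero⟩
  · refine ⟨S.s_mem_V, ?_⟩
    have := S.indep.ne_zero 0
    simpa using this
  · refine ⟨S.t_mem_V, ?_⟩
    have := S.indep.ne_zero 1
    simpa using this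

theorem Pt.ofPrime_of_chart (P : S.Pt) {l : L} (hl : l ∈ S.V) (h0 : l ≠ 0)
    (h : S.chart l ≤ P.1.toSubring) :
    ∃ (p : Ideal (S.chart l)) (_ : p.IsPrime), p.IsMaximal ∧
      P.1 = LocalSubring.ofPrime (S.chart l) p := by
  obtain ⟨O, l', hl', h0', p, hp, hm, rfl⟩ := P
  obtain ⟨q, hq, e, hh⟩ := S.ofPrime_chart hl' hl h0' h0 p h
  refine ⟨q, hq, ?_, e.symm⟩
  apply S.chart_height_max hl h0 q
  rw [hh]
  exact S.chart_height hl' h0' p

theorem PD.ofPrime_of_chart (C : S.PD) {l : L} (hl : l ∈ S.V) (h0 : l ≠ 0)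
    (h : S.chart l ≤ C.1.toSubring) :
    ∃ (p : Ideal (S.chart l)) (_ : p.IsPrime), p.height = 1 ∧
      C.1 = LocalSubring.ofPrime (S.chart l) p := by
  obtain ⟨O, l', hl', h0', p, hp, hm, rfl⟩ := C
  obtain ⟨q, hq, e, hh⟩ := S.ofPrime_chart hl' hl h0' h0 p h
  refine ⟨q, hq, ?_, e.symm⟩
  rw [hh]
  exact hm

theorem notMem_iff_inv_mem {K : Type u} [Field K] (A : Subring K) (p : Ideal A) [p.IsPrime] (x : A) :
    x ∉ p ↔ (x : K) ≠ 0 ∧ (x : K)⁻¹ ∈ (LocalSubring.ofPrime A p).toSubring := by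
  rw [mem_ofPrime]
  constructor
  · intro hx
    refine ⟨?_, 1, x, hx, by simp⟩
    intro h
    apply hx
    have : x = 0 := Subtype.ext h
    rw [this]
    exact p.zero_mem
  · rintro ⟨hx, a, b, hb, e⟩ h
    apply hb
    have hb0 : (b : K) ≠ 0 := by
      intro h
      apply hb
      have : b = 0 := Subtype.ext h
      rw [this]
      exact p.zero_mem
    have : b = a * x := by
      apply Subtype.ext
      push_cast
      field_simp at e
      rw [e, mul_comm]
    rw [this]
    exact p.mul_mem_left _ h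

/-- There are no inclusions between local rings of closed points. -/
theorem Pt.eq_of_le (P Q : S.Pt) (h : P.1.toSubring ≤ Q.1.toSubring) : P = Q := by
  obtain ⟨l, hl, hlP⟩ := P.exists_chart
  obtain ⟨hl1, hl0⟩ := ne_zero_of_mem hl
  obtain ⟨p, hp, hpm, eP⟩ := P.ofPrime_of_chart hl1 hl0 hlP
  obtain ⟨q, hq, hqm, eQ⟩ := Q.ofPrime_of_chart hl1 hl0 (hlP.trans h)
  have hle : q ≤ p := by
    intro x hx
    by_contra hxp
    rw [notMem_iff_inv_mem, ← eP] at hxp
    have : x ∉ q := by
      rw [notMem_iff_inv_mem, ← eQ]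
      exact ⟨hxp.1, h hxp.2⟩
    exact this hx
  have e : q = p := hqm.eq_of_le hp.ne_top hle
  subst e
  exact Subtype.ext (eP.trans eQ.symm)

theorem isField_of_eq_top {K : Type u} [Field K] {R : Subring K} (h : R = ⊤) : IsField R where
  exists_pair_ne := ⟨0, 1, zero_ne_one⟩
  mul_comm := mul_comm
  mul_inv_cancel := by
    intro a ha
    have ha' : (a : K) ≠ 0 := fun h => ha (Subtype.ext h)
    refine ⟨⟨(a : K)⁻¹, h.ge trivial⟩, ?_⟩
    apply Subtype.ext
    push_cast
    exact mul_inv_cancel₀ ha'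

theorem PD.ne_top (C : S.PD) : C.1.toSubring ≠ ⊤ := by
  intro h
  exact IsDiscreteValuationRing.not_isField C.1.toSubring (isField_of_eq_top h)

theorem Pt.ne_top (P : S.Pt) : P.1.toSubring ≠ ⊤ := by
  intro h
  have h1 := ringKrullDim_eq_zero_of_isField (isField_of_eq_top h)
  rw [P.dim] at h1
  exact absurd h1 (by norm_num)

theorem PD.eq_of_le (C D : S.PD) (h : C.1.toSubring ≤ D.1.toSubring) : C = D := by
  apply Subtype.ext
  apply LocalSubring.toSubring_injective
  exact dvr_eq_of_le _ _ h D.ne_top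

theorem PD.dim (C : S.PD) : ringKrullDim C.1.toSubring = 1 :=
  IsPrincipalIdealRing.ringKrullDim_eq_one _ (IsDiscreteValuationRing.not_isField _)

theorem not_le_pt (P : S.Pt) (C : S.PD) : ¬ C.1.toSubring ≤ P.1.toSubring := by
  intro h
  have e := dvr_eq_of_le _ _ h P.ne_top
  have h1 := C.dim
  rw [e, P.dim] at h1
  exact absurd h1 (by norm_num)

/-- The curve `C` through `P` as a prime ideal of the local ring of `P`. -/
def PD.ideal (C : S.PD) (P : S.Pt) (h : On P C) : Ideal P.1.toSubring :=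
  (maximalIdeal C.1.toSubring).comap (Subring.inclusion h)

instance (C : S.PD) (P : S.Pt) (h : On P C) : (C.ideal P h).IsPrime := by
  unfold PD.ideal
  infer_instance

theorem PD.ideal_aux (C : S.PD) (P : S.Pt) (h : On P C) :
    LocalSubring.ofPrime P.1.toSubring (C.ideal P h) = C.1 ∧ (C.ideal P h).height = 1 := by
  obtain ⟨l, hl, hlP⟩ := P.exists_chart
  obtain ⟨hl1, hl0⟩ := ne_zero_of_mem hl
  obtain ⟨q, hq, hqh, eC⟩ := C.ofPrime_of_chart hl1 hl0 (hlP.trans h)
  obtain ⟨O, hO⟩ := C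
  change O = _ at eC
  subst eC
  obtain ⟨q', hq', e1, e2, e3⟩ := ofPrime_eq_of (S.chart l) P.1.toSubring q h (by
    intro x hx
    exact ⟨1, Subring.one_mem _, one_ne_zero, by simp, by simpa using hlP hx⟩)
  subst e3
  exact ⟨e1, e2.trans hqh⟩

theorem PD.height_ideal (C : S.PD) (P : S.Pt) (h : On P C) : (C.ideal P h).height = 1 :=
  (C.ideal_aux P h).2

theorem PD.ofPrime_ideal (C : S.PD) (P : S.Pt) (h : On P C) :
    LocalSubring.ofPrime P.1.toSubring (C.ideal P h) = C.1 :=
  (C.ideal_aux P h).1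

theorem PD.ideal_inj (C D : S.PD) (P : S.Pt) (h : On P C) (h' : On P D)
    (e : C.ideal P h = D.ideal P h') : C = D := by
  apply Subtype.ext
  rw [← C.ofPrime_ideal P h, ← D.ofPrime_ideal P h']
  simp only [e]

theorem PD.exists_of_height_one (P : S.Pt) (p : Ideal P.1.toSubring) [p.IsPrime]
    (hp : p.height = 1) : ∃ (C : S.PD) (h : On P C), C.ideal P h = p := by
  obtain ⟨l, hl, hlP⟩ := P.exists_chart
  obtain ⟨hl1, hl0⟩ := ne_zero_of_mem hl
  obtain ⟨M, hM, hMm, eP⟩ := P.ofPrime_of_chart hl1 hl0 hlP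
  obtain ⟨q, hq, e1, e2, e3⟩ := ofPrime_eq_of P.1.toSubring (S.chart l) p
    (hlP.trans (LocalSubring.le_ofPrime _ _)) (by
      intro x hx
      rw [eP, mem_ofPrime] at hx
      obtain ⟨a, b, hb, e⟩ := hx
      have hb' := (notMem_iff_inv_mem _ _ _).1 hb
      refine ⟨b, b.2, hb'.1, LocalSubring.le_ofPrime _ _ (eP ▸ hb'.2), ?_⟩
      have : (b : L) * x = a := by
        rw [e]
        field_simp [hb'.1]
      rw [this]
      exact a.2)
  refine ⟨⟨LocalSubring.ofPrime P.1.toSubring p, l, hl1, hl0, q, hq, e2.trans hp, e1.symm⟩,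
    LocalSubring.le_ofPrime _ _, ?_⟩
  exact IsLocalization.AtPrime.under_maximalIdeal _ p

end Surf

end HB
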