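import Pool.Agent.HB.A.BaseA

/-!
# HB-A-OmegaA: the differentials of the function field

Plan.  Characteristic zero.  Let `F = IntermediateField.adjoin k {s, t}`.
* `omega_span`: for `z` in `F` (quotient of polynomials in `s, t`, `IntermediateField.adjoin_induction`) `D z` is
  in the span `N` of `D s, D t` by the Leibniz rule.  For `z` in `L`, algebraic over `F` with minimal
  polynomial `f = sum c i X^i`: `0 = D (f z) = f'(z) D z + sum z^i D (c i)`, and `f'(z) <> 0` (separable),
  so `D z` is in `N`.  `KaehlerDifferential.span_range_derivation`.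
* `omega_indep`: `F` is the field of rational functions in `s, t`
  (`S.indep.aevalEquivField` or `AlgebraicIndependent.aevalEquiv`, fraction fields), so
  there are `k`-derivations of `F` with `(s, t)` mapped to `(1, 0)` and `(0, 1)`
  (`MvPolynomial.mkDerivation`, localise); they extend to `L` because `L/F` is finite separable
  (formally etale: `Algebra.FormallyEtale.of_isSeparable` and the isomorphism
  `L ⊗[F] Ω[F⁄k] ≃ Ω[L⁄k]`, `KaehlerDifferential.tensorKaehlerEquivOfFormallyEtale` or the like; or extend
  by hand on `F[X]/(f)` with the primitive element).  By the universal property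
  (`Derivation.liftKaehlerDifferential`) they give two linear forms on `Ω[L⁄k]` with matrix the
  identity on `D s, D t`.
-/

set_option autoImplicit false

open IsLocalRing

namespace HB

universe u

namespace Surf

variable {k L : Type u} [Field k] [Field L] [Algebra k L] (S : Surf k L)

private theorem oa_basis [CharZero k] : ∃ b : Module.Basis (Fin 2) L (Ω[L⁄k]),
    b 0 = KaehlerDifferential.D k L S.s ∧ b 1 = KaehlerDifferential.D k L S.t := by
  have hind := S.indep
  have hfin := S.fin
  have hr : Set.range ![S.s, S.t] = {S.s, S.t} := by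
    simp [Set.pair_comm]
  rw [← hr] at hfin
  obtain ⟨v, hv⟩ : ∃ v, v = ![S.s, S.t] := ⟨_, rfl⟩
  rw [← hv] at hind hfin
  have hmem : ∀ i, v i ∈ IntermediateField.adjoin k (Set.range v) := fun i =>
    IntermediateField.subset_adjoin k _ ⟨i, rfl⟩
  let _ : Algebra (MvPolynomial (Fin 2) k) L := (MvPolynomial.aeval v).toRingHom.toAlgebra
  let _ : Algebra (MvPolynomial (Fin 2) k) (IntermediateField.adjoin k (Set.range v)) :=
    (MvPolynomial.aeval (fun i => (⟨v i, hmem i⟩ :
      IntermediateField.adjoin k (Set.range v)))).toRingHom.toAlgebra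
  have haL : ∀ p : MvPolynomial (Fin 2) k, algebraMap (MvPolynomial (Fin 2) k) L p =
      MvPolynomial.aeval v p := fun p => rfl
  have haF : ∀ p : MvPolynomial (Fin 2) k,
      ((algebraMap (MvPolynomial (Fin 2) k) (IntermediateField.adjoin k (Set.range v)) p :
        IntermediateField.adjoin k (Set.range v)) : L) = MvPolynomial.aeval v p := by
    intro p
    have h1 : (IntermediateField.val (IntermediateField.adjoin k (Set.range v))).comp
        (MvPolynomial.aeval (fun i => (⟨v i, hmem i⟩ :
          IntermediateField.adjoin k (Set.range v)))) = MvPolynomial.aeval v := by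
      apply MvPolynomial.algHom_ext
      intro i
      rw [AlgHom.comp_apply, MvPolynomial.aeval_X, MvPolynomial.aeval_X]
      rfl
    exact DFunLike.congr_fun h1 p
  have : IsScalarTower k (MvPolynomial (Fin 2) k) L :=
    .of_algebraMap_eq (fun c => ((MvPolynomial.aeval v).commutes c).symm)
  have : IsScalarTower (MvPolynomial (Fin 2) k) (IntermediateField.adjoin k (Set.range v)) L :=
    .of_algebraMap_eq (fun p => (haF p).symm)
  have hinj : Function.Injective (algebraMap (MvPolynomial (Fin 2) k)
      (IntermediateField.adjoin k (Set.range v))) := by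
    intro p q hpq
    apply hind
    rw [← haF, ← haF, hpq]
  have : FaithfulSMul (MvPolynomial (Fin 2) k) (IntermediateField.adjoin k (Set.range v)) :=
    (faithfulSMul_iff_algebraMap_injective _ _).2 hinj
  have : IsFractionRing (MvPolynomial (Fin 2) k) (IntermediateField.adjoin k (Set.range v)) := by
    refine .of_field _ _ fun z => ?_
    obtain ⟨p, q, hpq⟩ := (IntermediateField.mem_adjoin_range_iff k v z.1).1 z.2
    refine ⟨p, q, Subtype.ext ?_⟩
    rw [hpq, IntermediateField.coe_div, haF, haF]
  have : Algebra.FormallyEtale (MvPolynomial (Fin 2) k)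
      (IntermediateField.adjoin k (Set.range v)) :=
    Algebra.FormallyEtale.of_isLocalization (nonZeroDivisors (MvPolynomial (Fin 2) k))
  have : CharZero (IntermediateField.adjoin k (Set.range v)) :=
    charZero_of_injective_algebraMap
      (algebraMap k (IntermediateField.adjoin k (Set.range v))).injective
  have : Algebra.IsAlgebraic (IntermediateField.adjoin k (Set.range v)) L :=
    Algebra.IsAlgebraic.of_finite _ _
  have : Algebra.FormallyEtale (IntermediateField.adjoin k (Set.range v)) L :=
    Algebra.FormallyEtale.of_isSeparable _ _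
  have : Algebra.FormallyEtale (MvPolynomial (Fin 2) k) L :=
    Algebra.FormallyEtale.comp _ (IntermediateField.adjoin k (Set.range v)) _
  have hb : ∀ i, (((KaehlerDifferential.mvPolynomialBasis k (Fin 2)).baseChange L).map
      (KaehlerDifferential.tensorKaehlerEquivOfFormallyEtale k (MvPolynomial (Fin 2) k) L)) i =
        KaehlerDifferential.D k L (v i) := by
    intro i
    rw [Module.Basis.map_apply, Module.Basis.baseChange_apply,
      KaehlerDifferential.tensorKaehlerEquivOfFormallyEtale_apply,
      KaehlerDifferential.mapBaseChange_tmul, one_smul,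
      KaehlerDifferential.mvPolynomialBasis_apply, KaehlerDifferential.map_D, haL,
      MvPolynomial.aeval_X]
  refine ⟨_, (hb 0).trans ?_, (hb 1).trans ?_⟩
  · rw [hv]
    rfl
  · rw [hv]
    rfl

theorem omega_span [CharZero k] :
    Submodule.span L {KaehlerDifferential.D k L S.s, KaehlerDifferential.D k L S.t} = ⊤ := by
  obtain ⟨b, h0, h1⟩ := S.oa_basis
  rw [← h0, ← h1, ← b.span_eq]
  congr 1
  ext z
  constructor
  · rintro (h | h)
    · exact ⟨0, h.symm⟩
    · exact ⟨1, h.symm⟩
  · rintro ⟨i, rfl⟩
    fin_cases i
    · exact Or.inl rfl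
    · exact Or.inr rfl

theorem omega_indep [CharZero k] :
    LinearIndependent L ![KaehlerDifferential.D k L S.s, KaehlerDifferential.D k L S.t] := by
  obtain ⟨b, h0, h1⟩ := S.oa_basis
  have h2 : ![KaehlerDifferential.D k L S.s, KaehlerDifferential.D k L S.t] = b := by
    funext i
    fin_cases i
    · exact h0.symm
    · exact h1.symm
  rw [h2]
  exact b.linearIndependent

include S in
theorem omega_finrank [CharZero k] : Module.finrank L (Ω[L⁄k]) = 2 := by
  obtain ⟨b, _, _⟩ := S.oa_basis
  rw [Module.finrank_eq_card_basis b, Fintype.card_fin]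

end Surf

end HB
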