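import Pool.Agent.HB.A.OmegaA
import Pool.Agent.HB.A.LocA

/-!
# HB-A-OmegaB: differentials at a smooth point

Plan.  `O = P.1.toSubring`, `M` = the `O`-submodule of `Ω[L⁄k]` spanned by the `D a`, `a` in `O`.
* `M` is finitely generated: `P` is the localisation of a chart `A = S.chart l` at a maximal ideal,
  `A` is generated as a `k`-algebra by finitely many `a i` (`S.chart_ft`), `D b` is in the
  `A`-span of the `D (a i)` for all `b` in `A` (`Algebra.adjoin_induction`), and for `a = b/c` in `O`,
  `c` a unit of `O`: `D a = c⁻² (c D b - b D c)`.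
* Nakayama: let `N` be the `O`-span of `D x, D y`.  For `a` in `O`, `a - c` is in the maximal
  ideal for a constant `c` (`Pt.res`), so `a = c + u x + v y` and
  `D a = u D x + v D y + x D u + y D v` is in `N + m M`.  So `M <= N`
  (`Submodule.le_of_le_smul_of_le_jacobson_bot`).
* `omega_top`: `s` and `t` are quotients of elements of `O` (`IsFractionRing`), so `D s, D t` are in the
  `L`-span of `M`, which is the `L`-span of `D x, D y`; `omega_span`.
* `omega_li`: two vectors spanning a space of dimension two (`omega_finrank`) are linearly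
  independent (`linearIndependent_of_top_le_span_of_card_eq_finrank`).
-/

set_option autoImplicit false

open IsLocalRing

namespace HB

universe u

namespace Surf

variable {k L : Type u} [Field k] [Field L] [Algebra k L] {S : Surf k L}
  [CharZero k] [IsAlgClosed k]

/-- the `O`-span of the differentials of finitely many generators of the chart contains all `D a` -/
private theorem omegaB_fg {l : L} (hl : l ∈ S.V) (h0 : l ≠ 0) (p : Ideal (S.chart l)) [p.IsPrime] :
    ∃ T : Set L, T.Finite ∧ (∀ a ∈ T, a ∈ (LocalSubring.ofPrime (S.chart l) p).toSubring) ∧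
      ∀ a ∈ (LocalSubring.ofPrime (S.chart l) p).toSubring,
        KaehlerDifferential.D k L a ∈ Submodule.span (LocalSubring.ofPrime (S.chart l) p).toSubring
          (KaehlerDifferential.D k L '' T) := by
  obtain ⟨T, hT⟩ := (S.chart_ft hl h0).out
  have hle : ∀ a : S.chart l, (a : L) ∈ (LocalSubring.ofPrime (S.chart l) p).toSubring :=
    fun a => LocalSubring.le_ofPrime _ _ a.2
  set N := Submodule.span (LocalSubring.ofPrime (S.chart l) p).toSubring
    (KaehlerDifferential.D k L '' ((fun a : S.chart l => (a : L)) '' (T : Set (S.chart l)))) with hN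
  have hsm : ∀ (c : L) (hc : c ∈ (LocalSubring.ofPrime (S.chart l) p).toSubring) (w : Ω[L⁄k]),
      w ∈ N → c • w ∈ N := by
    intro c hc w hw
    exact N.smul_mem ⟨c, hc⟩ hw
  refine ⟨(fun a : S.chart l => (a : L)) '' (T : Set (S.chart l)), T.finite_toSet.image _, ?_, ?_⟩
  · rintro _ ⟨a, -, rfl⟩
    exact hle a
  have h1 : ∀ a : S.chart l, KaehlerDifferential.D k L (a : L) ∈ N := by
    intro a
    have ha : a ∈ Algebra.adjoin k (T : Set (S.chart l)) := by
      rw [hT]
      trivial
    induction ha using Algebra.adjoin_induction with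
    | mem x hx => exact Submodule.subset_span ⟨_, ⟨x, hx, rfl⟩, rfl⟩
    | algebraMap r =>
      have e : ((algebraMap k (S.chart l) r : S.chart l) : L) = algebraMap k L r := rfl
      rw [e, Derivation.map_algebraMap]
      exact N.zero_mem
    | add x y _ _ hx hy =>
      rw [Subring.coe_add, map_add]
      exact N.add_mem hx hy
    | mul x y _ _ hx hy =>
      rw [Subring.coe_mul, Derivation.leibniz]
      exact N.add_mem (hsm _ (hle x) _ hy) (hsm _ (hle y) _ hx)
  intro a ha
  obtain ⟨⟨b, c⟩, hbc⟩ := IsLocalization.surj p.primeCompl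
    (⟨a, ha⟩ : (LocalSubring.ofPrime (S.chart l) p).toSubring)
  have hu : IsUnit (algebraMap (S.chart l) (LocalSubring.ofPrime (S.chart l) p).toSubring
    (c : S.chart l)) := IsLocalization.map_units _ c
  obtain ⟨d, hd⟩ := hu.exists_left_inv
  have e1 : a * ((c : S.chart l) : L) = ((b : S.chart l) : L) := congrArg Subtype.val hbc
  have e2 : (d : L) * ((c : S.chart l) : L) = 1 := congrArg Subtype.val hd
  have e3 : ((c : S.chart l) : L) • KaehlerDifferential.D k L a =
      KaehlerDifferential.D k L ((b : S.chart l) : L) -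
        a • KaehlerDifferential.D k L ((c : S.chart l) : L) := by
    rw [← e1, Derivation.leibniz]
    abel
  have e4 : KaehlerDifferential.D k L a = (d : L) • (KaehlerDifferential.D k L ((b : S.chart l) : L) -
        a • KaehlerDifferential.D k L ((c : S.chart l) : L)) := by
    rw [← e3, smul_smul, e2, one_smul]
  rw [e4]
  exact hsm _ d.2 _ (N.sub_mem (h1 b) (hsm _ ha _ (h1 c)))

private theorem omegaB_pt (P : S.Pt) :
    ∃ T : Set L, T.Finite ∧ (∀ a ∈ T, a ∈ P.1.toSubring) ∧
      ∀ a ∈ P.1.toSubring,
        KaehlerDifferential.D k L a ∈ Submodule.span P.1.toSubring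
          (KaehlerDifferential.D k L '' T) := by
  obtain ⟨O, l, hl, h0, p, hp, hm, rfl⟩ := P
  exact omegaB_fg hl h0 p

theorem Pt.omega_gen (P : S.Pt) (x y : P.1.toSubring)
    (hm : maximalIdeal P.1.toSubring = Ideal.span {x, y}) (a : P.1.toSubring) :
    ∃ u v : P.1.toSubring, KaehlerDifferential.D k L (a : L) =
      (u : L) • KaehlerDifferential.D k L (x : L) + (v : L) • KaehlerDifferential.D k L (y : L) := by
  obtain ⟨T, hTf, hTO, hT⟩ := omegaB_pt P
  set N := Submodule.span P.1.toSubring (KaehlerDifferential.D k L '' T) with hN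
  set N0 := Submodule.span P.1.toSubring
    ({KaehlerDifferential.D k L (x : L), KaehlerDifferential.D k L (y : L)} : Set (Ω[L⁄k])) with hN0
  have hx : x ∈ maximalIdeal P.1.toSubring := by
    rw [hm]
    exact Ideal.subset_span (by simp)
  have hy : y ∈ maximalIdeal P.1.toSubring := by
    rw [hm]
    exact Ideal.subset_span (by simp)
  have hNN : N ≤ N0 ⊔ maximalIdeal P.1.toSubring • N := by
    rw [hN, Submodule.span_le]
    rintro _ ⟨t, ht, rfl⟩
    obtain ⟨c, hc⟩ := P.res ⟨t, hTO t ht⟩
    rw [hm, Ideal.mem_span_pair] at hc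
    obtain ⟨u, v, huv⟩ := hc
    have e1 : t = algebraMap k L c + ((u : L) * x + (v : L) * y) := by
      have h1 : (u : L) * x + (v : L) * y = t - algebraMap k L c := congrArg Subtype.val huv
      rw [h1]
      ring
    have e2 : KaehlerDifferential.D k L t = ((u : L) • KaehlerDifferential.D k L (x : L) +
        (v : L) • KaehlerDifferential.D k L (y : L)) + ((x : L) • KaehlerDifferential.D k L (u : L) +
        (y : L) • KaehlerDifferential.D k L (v : L)) := by
      conv_lhs => rw [e1]
      rw [map_add, map_add, Derivation.map_algebraMap, Derivation.leibniz, Derivation.leibniz]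
      abel
    rw [SetLike.mem_coe, e2]
    refine Submodule.add_mem_sup ?_ ?_
    · exact N0.add_mem (N0.smul_mem u (Submodule.subset_span (by simp)))
        (N0.smul_mem v (Submodule.subset_span (by simp)))
    · exact Submodule.add_mem _ (Submodule.smul_mem_smul hx (hT _ u.2))
        (Submodule.smul_mem_smul hy (hT _ v.2))
  have hfg : N.FG := Submodule.fg_span (hTf.image _)
  have hle : N ≤ N0 := Submodule.le_of_le_smul_of_le_jacobson_bot hfg
    (IsLocalRing.maximalIdeal_le_jacobson _) hNN
  obtain ⟨u, v, huv⟩ := Submodule.mem_span_pair.1 (hle (hT _ a.2))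
  exact ⟨u, v, huv.symm⟩

theorem Pt.omega_top (P : S.Pt) (x y : P.1.toSubring)
    (hm : maximalIdeal P.1.toSubring = Ideal.span {x, y}) :
    Submodule.span L {KaehlerDifferential.D k L (x : L), KaehlerDifferential.D k L (y : L)} = ⊤ := by
  have h1 : ∀ a : P.1.toSubring, KaehlerDifferential.D k L (a : L) ∈ Submodule.span L
      {KaehlerDifferential.D k L (x : L), KaehlerDifferential.D k L (y : L)} := by
    intro a
    obtain ⟨u, v, h⟩ := P.omega_gen x y hm a
    rw [h]
    exact Submodule.mem_span_pair.2 ⟨u, v, rfl⟩
  have h2 : ∀ z : L, KaehlerDifferential.D k L z ∈ Submodule.span L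
      {KaehlerDifferential.D k L (x : L), KaehlerDifferential.D k L (y : L)} := by
    intro z
    obtain ⟨a, b, hb, rfl⟩ := IsFractionRing.div_surjective (A := P.1.toSubring) z
    have hb0 : (b : L) ≠ 0 := by
      intro h
      exact nonZeroDivisors.ne_zero hb (Subtype.ext h)
    have ea : algebraMap P.1.toSubring L a = (a : L) := rfl
    have eb : algebraMap P.1.toSubring L b = (b : L) := rfl
    rw [ea, eb]
    have e1 : (b : L) • KaehlerDifferential.D k L ((a : L) / b) =
        KaehlerDifferential.D k L (a : L) - ((a : L) / b) • KaehlerDifferential.D k L (b : L) := by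
      have e2 : (a : L) = ((a : L) / b) * b := by
        field_simp
      conv_rhs =>
        congr
        · rw [e2, Derivation.leibniz]
      abel
    have e3 : KaehlerDifferential.D k L ((a : L) / b) = (b : L)⁻¹ •
        (KaehlerDifferential.D k L (a : L) - ((a : L) / b) • KaehlerDifferential.D k L (b : L)) := by
      rw [← e1, smul_smul, inv_mul_cancel₀ hb0, one_smul]
    rw [e3]
    exact Submodule.smul_mem _ _ (Submodule.sub_mem _ (h1 a) (Submodule.smul_mem _ _ (h1 b)))
  rw [eq_top_iff, ← S.omega_span, Submodule.span_le]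
  rintro w (rfl | hw)
  · exact h2 _
  · rw [Set.mem_singleton_iff] at hw
    subst hw
    exact h2 _

theorem Pt.omega_li (P : S.Pt) (x y : P.1.toSubring)
    (hm : maximalIdeal P.1.toSubring = Ideal.span {x, y}) :
    LinearIndependent L
      ![KaehlerDifferential.D k L (x : L), KaehlerDifferential.D k L (y : L)] := by
  apply linearIndependent_of_top_le_span_of_card_eq_finrank
  · rw [Matrix.range_cons, Matrix.range_cons, Matrix.range_empty, Set.union_empty]
    exact (P.omega_top x y hm).ge
  · rw [S.omega_finrank]
    rfl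

end Surf

end HB
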