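import Pool.Agent.HB.A.OmegaB
import Pool.Agent.HB.A.FacA

/-!
# HB-A-OmegaC: regular differentials at a point and along the curves through it

Plan.  `Om k R` is the additive subgroup of `Ω[L⁄k]` generated by the `e • D a`, `e, a` in `R`.
* `om_smul`: `Om k R` is stable under multiplication by elements of `R`.
* `mem_om_iff`: `->` by `Pt.omega_gen` (closure induction); `<-` clear.
* `mem_om_iff_on`: the same for the local ring `R` of a curve `C` through `P`: an element of `R` is
  `b/c` with `b, c` in `O_P`, `c` a unit of `R` (`PD.ofPrime_ideal`, `mem_ofPrime`), and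
  `D (b/c) = c⁻² (c D b - b D c)`.
* `om_eq_inf`: write `w = a D x + b D y` (`Pt.omega_top`), unique coefficients (`Pt.omega_li`); by
  `mem_om_iff_on` `a, b` are in `O_C` for all `C` through `P`, so in `O_P` (`Pt.mem_iff`).
-/

set_option autoImplicit false

open IsLocalRing

namespace HB

universe u

namespace Surf

variable {k L : Type u} [Field k] [Field L] [Algebra k L] {S : Surf k L}
  [CharZero k] [IsAlgClosed k]

/-- The differentials which are regular at the local ring `R`. -/
noncomputable def Om (k : Type u) {L : Type u} [Field k] [Field L] [Algebra k L] (R : Subring L) :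
    AddSubgroup (Ω[L⁄k]) :=
  AddSubgroup.closure {w | ∃ e ∈ R, ∃ a ∈ R, w = e • KaehlerDifferential.D k L a}

theorem om_smul (R : Subring L) {a : L} (ha : a ∈ R) {w : Ω[L⁄k]} (hw : w ∈ Om k R) :
    a • w ∈ Om k R := by
  unfold Om at hw ⊢
  induction hw using AddSubgroup.closure_induction with
  | mem w hw =>
    obtain ⟨e, he, b, hb, rfl⟩ := hw
    refine AddSubgroup.subset_closure ⟨a * e, R.mul_mem ha he, b, hb, ?_⟩
    rw [mul_smul]
  | zero =>
    rw [smul_zero]
    exact AddSubgroup.zero_mem _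
  | add x y _ _ hx hy =>
    rw [smul_add]
    exact AddSubgroup.add_mem _ hx hy
  | neg x _ hx =>
    rw [smul_neg]
    exact AddSubgroup.neg_mem _ hx

theorem om_mono {R R' : Subring L} (h : R ≤ R') : Om k R ≤ Om k R' := by
  unfold Om
  refine AddSubgroup.closure_mono ?_
  rintro w ⟨e, he, a, ha, rfl⟩
  exact ⟨e, h he, a, h ha, rfl⟩

/-- the general form: `R` is a ring in which all differentials are combinations of two -/
private theorem omc_iff (R : Subring L) (x y : L) (hx : x ∈ R) (hy : y ∈ R)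
    (hR : ∀ a ∈ R, ∃ u ∈ R, ∃ v ∈ R, KaehlerDifferential.D k L a =
      u • KaehlerDifferential.D k L x + v • KaehlerDifferential.D k L y)
    (hli : LinearIndependent L ![KaehlerDifferential.D k L x, KaehlerDifferential.D k L y])
    (a b : L) :
    a • KaehlerDifferential.D k L x + b • KaehlerDifferential.D k L y ∈ Om k R ↔
      a ∈ R ∧ b ∈ R := by
  constructor
  · intro h
    have key : ∀ w ∈ Om k R, ∃ u ∈ R, ∃ v ∈ R,
        w = u • KaehlerDifferential.D k L x + v • KaehlerDifferential.D k L y := by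
      intro w hw
      unfold Om at hw
      induction hw using AddSubgroup.closure_induction with
      | mem w hw =>
        obtain ⟨e, he, c, hc, rfl⟩ := hw
        obtain ⟨u, hu, v, hv, huv⟩ := hR c hc
        refine ⟨e * u, R.mul_mem he hu, e * v, R.mul_mem he hv, ?_⟩
        rw [huv, smul_add, smul_smul, smul_smul]
      | zero => exact ⟨0, R.zero_mem, 0, R.zero_mem, by rw [zero_smul, zero_smul, add_zero]⟩
      | add w₁ w₂ _ _ h₁ h₂ =>
        obtain ⟨u, hu, v, hv, e₁⟩ := h₁
        obtain ⟨u', hu', v', hv', e₂⟩ := h₂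
        refine ⟨u + u', R.add_mem hu hu', v + v', R.add_mem hv hv', ?_⟩
        rw [e₁, e₂, add_smul, add_smul]
        abel
      | neg w _ h₁ =>
        obtain ⟨u, hu, v, hv, e₁⟩ := h₁
        refine ⟨-u, R.neg_mem hu, -v, R.neg_mem hv, ?_⟩
        rw [e₁, neg_smul, neg_smul, neg_add]
    obtain ⟨u, hu, v, hv, e⟩ := key _ h
    have h1 := (LinearIndependent.pair_iff.1 hli) (a - u) (b - v) (by
      rw [sub_smul, sub_smul]
      have e' := sub_eq_zero.2 e
      rw [← e']
      abel)
    have ha : a = u := sub_eq_zero.1 h1.1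
    have hb : b = v := sub_eq_zero.1 h1.2
    rw [ha, hb]
    exact ⟨hu, hv⟩
  · rintro ⟨ha, hb⟩
    unfold Om
    exact AddSubgroup.add_mem _ (AddSubgroup.subset_closure ⟨a, ha, x, hx, rfl⟩)
      (AddSubgroup.subset_closure ⟨b, hb, y, hy, rfl⟩)

theorem Pt.mem_om_iff (P : S.Pt) (x y : P.1.toSubring)
    (hm : maximalIdeal P.1.toSubring = Ideal.span {x, y}) (a b : L) :
    a • KaehlerDifferential.D k L (x : L) + b • KaehlerDifferential.D k L (y : L) ∈
      Om k P.1.toSubring ↔ a ∈ P.1.toSubring ∧ b ∈ P.1.toSubring := by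
  refine omc_iff P.1.toSubring x y x.2 y.2 (fun c hc => ?_) (P.omega_li x y hm) a b
  obtain ⟨u, v, h⟩ := P.omega_gen x y hm ⟨c, hc⟩
  exact ⟨u, u.2, v, v.2, h⟩

theorem Pt.mem_om_iff_on (P : S.Pt) (x y : P.1.toSubring)
    (hm : maximalIdeal P.1.toSubring = Ideal.span {x, y}) (C : S.PD) (h : On P C) (a b : L) :
    a • KaehlerDifferential.D k L (x : L) + b • KaehlerDifferential.D k L (y : L) ∈
      Om k C.1.toSubring ↔ a ∈ C.1.toSubring ∧ b ∈ C.1.toSubring := by
  refine omc_iff C.1.toSubring x y (h x.2) (h y.2) (fun f hf => ?_) (P.omega_li x y hm) a b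
  rw [← C.ofPrime_ideal P h, mem_ofPrime] at hf
  obtain ⟨p, q, hq, rfl⟩ := hf
  obtain ⟨hq1, hq2⟩ := C.inv_mem_of_not_mem P h hq
  obtain ⟨u, v, e1⟩ := P.omega_gen x y hm p
  obtain ⟨u', v', e2⟩ := P.omega_gen x y hm q
  have hp1 : (p : L) ∈ C.1.toSubring := h p.2
  have hu : (u : L) ∈ C.1.toSubring := h u.2
  have hv : (v : L) ∈ C.1.toSubring := h v.2
  have hu' : (u' : L) ∈ C.1.toSubring := h u'.2
  have hv' : (v' : L) ∈ C.1.toSubring := h v'.2
  refine ⟨(q : L)⁻¹ ^ 2 * ((q : L) * u - (p : L) * u'), ?_,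
    (q : L)⁻¹ ^ 2 * ((q : L) * v - (p : L) * v'), ?_, ?_⟩
  · exact C.1.toSubring.mul_mem (C.1.toSubring.pow_mem hq2 2)
      (C.1.toSubring.sub_mem (C.1.toSubring.mul_mem hq1 hu) (C.1.toSubring.mul_mem hp1 hu'))
  · exact C.1.toSubring.mul_mem (C.1.toSubring.pow_mem hq2 2)
      (C.1.toSubring.sub_mem (C.1.toSubring.mul_mem hq1 hv) (C.1.toSubring.mul_mem hp1 hv'))
  · rw [Derivation.leibniz_div, e1, e2]
    module

theorem Pt.mem_om_of_forall (hS : S.Smooth) (P : S.Pt) (w : Ω[L⁄k])
    (h : ∀ C : S.PD, On P C → w ∈ Om k C.1.toSubring) : w ∈ Om k P.1.toSubring := by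
  obtain ⟨x, y, hm⟩ := hS P
  have hw : w ∈ Submodule.span L
      {KaehlerDifferential.D k L (x : L), KaehlerDifferential.D k L (y : L)} := by
    rw [P.omega_top x y hm]
    trivial
  obtain ⟨a, b, rfl⟩ := Submodule.mem_span_pair.1 hw
  have hab : ∀ C : S.PD, On P C → a ∈ C.1.toSubring ∧ b ∈ C.1.toSubring := fun C hC =>
    (P.mem_om_iff_on x y hm C hC a b).1 (h C hC)
  have key : ∀ f : L, (∀ C : S.PD, On P C → f ∈ C.1.toSubring) → f ∈ P.1.toSubring := by
    intro f hf
    by_cases h0 : f = 0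
    · rw [h0]
      exact P.1.toSubring.zero_mem
    · rw [Pt.mem_iff hS P h0]
      intro C hC
      exact (mem_iff_ordS C.1.toSubring h0).1 (hf C hC)
  exact (P.mem_om_iff x y hm a b).2 ⟨key a fun C hC => (hab C hC).1, key b fun C hC => (hab C hC).2⟩

end Surf

end HB
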