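import Pool.Agent.HB.Surf

/-!
# HB-A-OrdA: the order function `ordS` of a one-dimensional noetherian subring of a field

Plan.  All lengths are finite: `Ring.ord_ne_top` (nonzero elements of a domain are non zero
divisors).  First `ordS_div_eq`: unfold `ordS`, the chosen pair `(c, d)` satisfies
`a/b = c/d`, i.e. `a d = c b` in `R`, and `Ring.ord_mul` gives
`ord a + ord d = ord c + ord b` in `ENat`, all finite (`ENat.toNat_add`).  Everything else follows
by writing elements of `F` as fractions (`IsFractionRing.div_surjective`) and from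
`Ring.ord_mul`, `Ring.ord_one`, `Ring.ord_of_isUnit`.
`inv_mem_of_ordS_eq_zero`: `Module.length = 0` means that `R/(a)` is trivial
(`Module.length_eq_zero_iff`), so `a` is a unit.
-/

set_option autoImplicit false

open IsLocalRing

namespace HB

universe u

variable {F : Type u} [Field F] (R : Subring F)

theorem ordS_zero : ordS R 0 = 0 := by
  unfold ordS
  rw [dif_neg]
  rintro ⟨p, h1, h2, h3⟩
  exact div_ne_zero h1 h2 h3.symm

variable [IsNoetherianRing R] [Ring.KrullDimLE 1 R] [IsFractionRing R F]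

omit [IsFractionRing R F] in
private theorem ord_fin {a : R} (ha : a ≠ 0) : Ring.ord R a ≠ ⊤ :=
  Ring.ord_ne_top (mem_nonZeroDivisors_of_ne_zero ha)

omit [IsFractionRing R F] in
private theorem nat_mul {a b : R} (ha : a ≠ 0) (hb : b ≠ 0) :
    (Ring.ord R (a * b)).toNat = (Ring.ord R a).toNat + (Ring.ord R b).toNat := by
  rw [Ring.ord_mul R (mem_nonZeroDivisors_of_ne_zero hb), ENat.toNat_add (ord_fin R ha)
    (ord_fin R hb)]

omit [IsFractionRing R F] in
theorem ordS_div_eq {a b : R} (ha : a ≠ 0) (hb : b ≠ 0) :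
    ordS R ((a : F) / b) = ((Ring.ord R a).toNat : ℤ) - ((Ring.ord R b).toNat : ℤ) := by
  have haF : (a : F) ≠ 0 := by simpa using ha
  have hbF : (b : F) ≠ 0 := by simpa using hb
  have h : ∃ p : R × R, (p.1 : F) ≠ 0 ∧ (p.2 : F) ≠ 0 ∧ (a : F) / b = (p.1 : F) / (p.2 : F) :=
    ⟨(a, b), haF, hbF, rfl⟩
  unfold ordS
  rw [dif_pos h]
  obtain ⟨h1, h2, h3⟩ := h.choose_spec
  have hc : h.choose.1 ≠ 0 := by simpa using h1
  have hd : h.choose.2 ≠ 0 := by simpa using h2
  have h4 : a * h.choose.2 = h.choose.1 * b := by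
    apply Subtype.ext
    show (a : F) * (h.choose.2 : F) = (h.choose.1 : F) * (b : F)
    rw [div_eq_div_iff hbF h2] at h3
    exact h3
  have h5 := congrArg (fun x => (Ring.ord R x).toNat) h4
  simp only [nat_mul R ha hd, nat_mul R hc hb] at h5
  omega

private theorem exists_frac {f : F} (hf : f ≠ 0) : ∃ a b : R, a ≠ 0 ∧ b ≠ 0 ∧ f = (a : F) / b := by
  obtain ⟨a, b, hb, hab⟩ := IsFractionRing.div_surjective (A := R) f
  have hb0 : b ≠ 0 := nonZeroDivisors.ne_zero hb
  refine ⟨a, b, ?_, hb0, hab.symm⟩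
  rintro rfl
  apply hf
  rw [← hab, map_zero, zero_div]

omit [IsFractionRing R F] in
theorem ordS_of_mem {a : F} (ha : a ∈ R) (h0 : a ≠ 0) :
    ordS R a = ((Ring.ord R (⟨a, ha⟩ : R)).toNat : ℤ) := by
  have h1 : (⟨a, ha⟩ : R) ≠ 0 := by
    intro h
    exact h0 (congrArg Subtype.val h)
  have h2 := ordS_div_eq R h1 (one_ne_zero (α := R))
  rw [Ring.ord_one] at h2
  simpa using h2

theorem ordS_mul {f g : F} (hf : f ≠ 0) (hg : g ≠ 0) : ordS R (f * g) = ordS R f + ordS R g := by
  obtain ⟨a, b, ha, hb, rfl⟩ := exists_frac R hf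
  obtain ⟨c, d, hc, hd, rfl⟩ := exists_frac R hg
  have h1 : (a : F) / b * ((c : F) / d) = ((a * c : R) : F) / ((b * d : R) : F) := by
    push_cast
    rw [div_mul_div_comm]
  rw [h1, ordS_div_eq R (mul_ne_zero ha hc) (mul_ne_zero hb hd), ordS_div_eq R ha hb,
    ordS_div_eq R hc hd, nat_mul R ha hc, nat_mul R hb hd]
  push_cast
  ring

omit [IsFractionRing R F] in
theorem ordS_one : ordS R 1 = 0 := by
  have h := ordS_div_eq R (one_ne_zero (α := R)) (one_ne_zero (α := R))
  simpa using h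

theorem ordS_inv (f : F) : ordS R f⁻¹ = - ordS R f := by
  by_cases hf : f = 0
  · subst hf
    rw [inv_zero, ordS_zero, neg_zero]
  · have h := ordS_mul R hf (inv_ne_zero hf)
    rw [mul_inv_cancel₀ hf, ordS_one] at h
    omega

theorem ordS_div {f g : F} (hf : f ≠ 0) (hg : g ≠ 0) : ordS R (f / g) = ordS R f - ordS R g := by
  rw [div_eq_mul_inv, ordS_mul R hf (inv_ne_zero hg), ordS_inv]
  ring

theorem ordS_pow (f : F) (n : ℕ) : ordS R (f ^ n) = n * ordS R f := by
  by_cases hf : f = 0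
  · subst hf
    rcases Nat.eq_zero_or_pos n with rfl | hn
    · rw [pow_zero, ordS_one]
      simp
    · rw [zero_pow hn.ne', ordS_zero, mul_zero]
  · induction n with
    | zero => rw [pow_zero, ordS_one]; simp
    | succ n ih =>
      rw [pow_succ, ordS_mul R (pow_ne_zero n hf) hf, ih]
      push_cast
      ring

theorem ordS_zpow (f : F) (n : ℤ) : ordS R (f ^ n) = n * ordS R f := by
  cases n with
  | ofNat n =>
    rw [Int.ofNat_eq_natCast, zpow_natCast, ordS_pow]
  | negSucc n =>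
    rw [zpow_negSucc, ordS_inv, ordS_pow, Int.negSucc_eq]
    push_cast
    ring

theorem ordS_prod {ι : Type} (s : Finset ι) (f : ι → F) (hf : ∀ i ∈ s, f i ≠ 0) :
    ordS R (∏ i ∈ s, f i) = ∑ i ∈ s, ordS R (f i) := by
  classical
  induction s using Finset.induction_on with
  | empty => simp [ordS_one]
  | insert a s ha ih =>
    rw [Finset.prod_insert ha, Finset.sum_insert ha,
      ordS_mul R (hf a (Finset.mem_insert_self a s))
        (Finset.prod_ne_zero_iff.2 fun i hi => hf i (Finset.mem_insert_of_mem hi)),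
      ih fun i hi => hf i (Finset.mem_insert_of_mem hi)]

omit [IsFractionRing R F] in
theorem ordS_nonneg {a : F} (ha : a ∈ R) : 0 ≤ ordS R a := by
  by_cases h0 : a = 0
  · rw [h0, ordS_zero]
  · rw [ordS_of_mem R ha h0]
    positivity

theorem ordS_unit {a : F} (ha : a ∈ R) (hb : a⁻¹ ∈ R) : ordS R a = 0 := by
  have h1 := ordS_nonneg R ha
  have h2 := ordS_nonneg R hb
  rw [ordS_inv] at h2
  omega

omit [IsFractionRing R F] in
private theorem unit_of_ord {a : R} (h0 : a ≠ 0) (h : (Ring.ord R a).toNat = 0) : IsUnit a := by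
  rw [ENat.toNat_eq_zero] at h
  have h1 : Ring.ord R a = 0 := h.resolve_right (ord_fin R h0)
  unfold Ring.ord at h1
  rw [Module.length_eq_zero_iff] at h1
  have h2 : Ideal.span {a} = ⊤ := by
    rwa [Submodule.Quotient.subsingleton_iff] at h1
  exact Ideal.span_singleton_eq_top.1 h2

omit [IsFractionRing R F] in
theorem inv_mem_of_ordS_eq_zero {a : F} (ha : a ∈ R) (h0 : a ≠ 0) (h : ordS R a = 0) :
    a⁻¹ ∈ R := by
  have h1 : (⟨a, ha⟩ : R) ≠ 0 := fun h => h0 (congrArg Subtype.val h)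
  rw [ordS_of_mem R ha h0] at h
  obtain ⟨u, hu⟩ := isUnit_iff_exists_inv.1 (unit_of_ord R h1 (by exact_mod_cast h))
  have h2 : a * (u : F) = 1 := congrArg Subtype.val hu
  have h3 : a⁻¹ = (u : F) := inv_eq_of_mul_eq_one_right h2
  rw [h3]
  exact u.2

theorem ordS_pos_iff [IsLocalRing R] {a : F} (ha : a ∈ R) (h0 : a ≠ 0) :
    0 < ordS R a ↔ (⟨a, ha⟩ : R) ∈ maximalIdeal R := by
  have h1 : (⟨a, ha⟩ : R) ≠ 0 := fun h => h0 (congrArg Subtype.val h)
  rw [mem_maximalIdeal, mem_nonunits_iff]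
  constructor
  · intro h hu
    obtain ⟨u, hu⟩ := isUnit_iff_exists_inv.1 hu
    have h2 : a * (u : F) = 1 := congrArg Subtype.val hu
    have h3 : a⁻¹ = (u : F) := inv_eq_of_mul_eq_one_right h2
    have h4 := ordS_unit R ha (h3 ▸ u.2)
    omega
  · intro h
    by_contra hn
    have h2 := ordS_nonneg R ha
    have h3 : ordS R a = 0 := by omega
    rw [ordS_of_mem R ha h0] at h3
    exact h (unit_of_ord R h1 (by exact_mod_cast h3))

end HB
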