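import Pool.Agent.HB.A.CurveA
import Pool.Agent.HB.A.LocD

/-!
# HB-A-Places: centres on a curve of the places of its function field

Plan.  `w` a valuation subring of `kap = O_C/m_C`.  Let `R` be the set of the `x` in `O_C` whose
residue is in `w`: it is a valuation subring of `L` (if `x` is not in `R`: either `x` is not in `O_C`,
then `x⁻¹` is in `m_C`, residue zero; or the residue is not in `w`, then `x` is a unit of `O_C` and the
residue of `x⁻¹` is in `w`), contained in `O_C`, different from `O_C` because `w <> top`.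
`PD.exists_centre` gives `P` on `C` with `P.1 <= R.toLocalSubring`: `O_P <= R` and the non-units go to
non-units.  Translate to residues: `C.loc P <= w`, and an element of `C.loc P` with inverse in `w` has
inverse in `C.loc P`.
Uniqueness: if `P, Q` both qualify then both are dominated by `R`.  By `S.exists_chart_le_val`
a chart `A = S.chart l` is contained in `R`; let `q` be the contraction of the maximal ideal of `R`.
If `O_P <= R` is dominated by `R`, then `A <= O_P`: `P` contains some chart `l'`, both charts are in `R`,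
`l/l'` and `l'/l` are in `R`; `l/l'` is in `S.chart l' <= O_P` and it is a unit in `R`, so a unit in
`O_P` (domination), so `l'/l` is in `O_P` and `S.chart_le_of_div` gives `A <= O_P`.
Then `P = ofPrime A M` with `M` = contraction of the maximal ideal of `O_P` = `q`.  Same for `Q`.
-/

set_option autoImplicit false

open IsLocalRing

namespace HB

universe u

namespace Surf

variable {k L : Type u} [Field k] [Field L] [Algebra k L] {S : Surf k L}
  [CharZero k] [IsAlgClosed k]

omit [CharZero k] [IsAlgClosed k] in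
private theorem unit_inv {K : Type u} [Field K] (O : Subring K) {x : O} (hx : IsUnit x) :
    (x : K)⁻¹ ∈ O := by
  obtain ⟨b, hb⟩ := isUnit_iff_exists_inv.1 hx
  have hb' : (x : K) * (b : K) = 1 := congrArg Subtype.val hb
  rw [← eq_inv_of_mul_eq_one_right hb']
  exact b.2

omit [CharZero k] [IsAlgClosed k] in
private theorem dom_inv {K : Type u} [Field K] (O : LocalSubring K) (R : ValuationSubring K)
    (h : O ≤ R.toLocalSubring) {x : K} (hx : x ∈ O.toSubring) (hx' : x⁻¹ ∈ R) :
    x⁻¹ ∈ O.toSubring := by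
  by_cases h0 : x = 0
  · rw [h0, inv_zero]
    exact O.toSubring.zero_mem
  rw [LocalSubring.le_def] at h
  obtain ⟨h1, ⟨h2⟩⟩ := h
  have h3 : IsUnit (Subring.inclusion h1 ⟨x, hx⟩) :=
    IsUnit.of_mul_eq_one (⟨x⁻¹, hx'⟩ : R.toLocalSubring.toSubring)
      (Subtype.ext (mul_inv_cancel₀ h0))
  exact unit_inv _ (h2 _ h3)

omit [CharZero k] [IsAlgClosed k] in
private theorem dom_of {K : Type u} [Field K] (O : LocalSubring K) (R : ValuationSubring K)
    (h : O.toSubring ≤ R.toSubring)
    (h' : ∀ x ∈ O.toSubring, x ≠ 0 → x⁻¹ ∈ R → x⁻¹ ∈ O.toSubring) : O ≤ R.toLocalSubring := by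
  rw [LocalSubring.le_def]
  refine ⟨h, ⟨?_⟩⟩
  intro x hx
  have h0 : (x : K) ≠ 0 := by
    rintro h0
    have : Subring.inclusion h x = 0 := Subtype.ext h0
    exact not_isUnit_zero (this ▸ hx : IsUnit (0 : R.toLocalSubring.toSubring))
  have h1 : (x : K)⁻¹ ∈ R.toSubring := unit_inv _ hx
  exact IsUnit.of_mul_eq_one (⟨(x : K)⁻¹, h' x x.2 h0 h1⟩ : O.toSubring)
    (Subtype.ext (mul_inv_cancel₀ h0))

/-- The valuation ring of the functions of `O_C` whose residue is in `w`. -/
private noncomputable def lift (C : S.PD) (w : ValuationSubring C.kap) : ValuationSubring L :=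
  ValuationSubring.ofSubring
    ((w.toSubring.comap (residue C.1.toSubring)).map C.1.toSubring.subtype) (by
    intro x
    have hmem : ∀ y : C.1.toSubring, residue C.1.toSubring y ∈ w →
        (y : L) ∈ (w.toSubring.comap (residue C.1.toSubring)).map C.1.toSubring.subtype :=
      fun y hy => ⟨y, hy, rfl⟩
    by_cases hx : x ∈ C.1.toSubring
    · by_cases hw : residue C.1.toSubring ⟨x, hx⟩ ∈ w
      · exact Or.inl (hmem _ hw)
      · right
        have hu : IsUnit (⟨x, hx⟩ : C.1.toSubring) := by
          by_contra hu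
          apply hw
          have : residue C.1.toSubring ⟨x, hx⟩ = 0 := by
            rw [residue_eq_zero_iff]
            exact (mem_maximalIdeal _).2 hu
          rw [this]
          exact w.zero_mem
        obtain ⟨b, hb⟩ := isUnit_iff_exists_inv.1 hu
        have hb' : x * (b : L) = 1 := congrArg Subtype.val hb
        rw [← eq_inv_of_mul_eq_one_right hb']
        apply hmem
        have h1 : residue C.1.toSubring ⟨x, hx⟩ * residue C.1.toSubring b = 1 := by
          rw [← map_mul, hb, map_one]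
        rw [eq_inv_of_mul_eq_one_right h1]
        exact (w.mem_or_inv_mem _).resolve_left hw
    · right
      have hx0 : x ≠ 0 := by
        rintro rfl
        exact hx C.1.toSubring.zero_mem
      have hx' : x⁻¹ ∈ C.1.toSubring := by
        rcases ValuationRing.isInteger_or_isInteger C.1.toSubring x with ⟨y, hy⟩ | ⟨y, hy⟩
        · exfalso
          apply hx
          rw [← hy]
          exact y.2
        · rw [← hy]
          exact y.2
      have hnu : ¬ IsUnit (⟨x⁻¹, hx'⟩ : C.1.toSubring) := by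
        intro hu
        apply hx
        have := unit_inv _ hu
        rwa [inv_inv] at this
      have := hmem ⟨x⁻¹, hx'⟩ (by
        have : residue C.1.toSubring ⟨x⁻¹, hx'⟩ = 0 := by
          rw [residue_eq_zero_iff]
          exact (mem_maximalIdeal _).2 hnu
        rw [this]
        exact w.zero_mem)
      exact this)

private theorem mem_lift (C : S.PD) (w : ValuationSubring C.kap) {x : L} :
    x ∈ lift C w ↔ ∃ h : x ∈ C.1.toSubring, residue C.1.toSubring ⟨x, h⟩ ∈ w := by
  constructor
  · rintro ⟨y, hy, rfl⟩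
    exact ⟨y.2, hy⟩
  · rintro ⟨h, hw⟩
    exact ⟨⟨x, h⟩, hw, rfl⟩

private theorem dom_iff (C : S.PD) (w : ValuationSubring C.kap) (P : S.Pt) (hP : On P C) :
    P.1 ≤ (lift C w).toLocalSubring ↔ (C.loc P ≤ w.toSubring ∧
      ∀ x ∈ C.loc P, x⁻¹ ∈ w → x⁻¹ ∈ C.loc P) := by
  constructor
  · intro h
    constructor
    · rintro g ⟨z, hz, rfl⟩
      have h1 : (z : L) ∈ lift C w := h.1 hz
      rw [mem_lift] at h1
      exact h1.2
    · rintro g ⟨z, hz, rfl⟩ hg
      by_cases h0 : residue C.1.toSubring z = 0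
      · rw [h0, inv_zero]
        exact (C.loc P).zero_mem
      have hu : IsUnit z := by
        by_contra hu
        exact h0 ((residue_eq_zero_iff _).2 ((mem_maximalIdeal _).2 hu))
      obtain ⟨b, hb⟩ := isUnit_iff_exists_inv.1 hu
      have hb' : (z : L) * (b : L) = 1 := congrArg Subtype.val hb
      have h1 : residue C.1.toSubring z * residue C.1.toSubring b = 1 := by
        rw [← map_mul, hb, map_one]
      rw [← eq_inv_of_mul_eq_one_right h1] at hg ⊢
      have h2 : (z : L)⁻¹ ∈ lift C w := by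
        rw [← eq_inv_of_mul_eq_one_right hb', mem_lift]
        exact ⟨b.2, hg⟩
      have h3 := dom_inv P.1 (lift C w) h (x := (z : L)) hz h2
      rw [← eq_inv_of_mul_eq_one_right hb'] at h3
      exact ⟨b, h3, rfl⟩
  · rintro ⟨h1, h2⟩
    apply dom_of
    · intro x hx
      change x ∈ lift C w
      rw [mem_lift]
      exact ⟨hP hx, h1 ⟨⟨x, hP hx⟩, hx, rfl⟩⟩
    · intro x hx h0 hx'
      rw [mem_lift] at hx'
      obtain ⟨h3, h4⟩ := hx'
      have h5 : residue C.1.toSubring ⟨x, hP hx⟩ * residue C.1.toSubring ⟨x⁻¹, h3⟩ = 1 := by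
        rw [← map_mul, ← map_one (residue C.1.toSubring)]
        congr 1
        exact Subtype.ext (mul_inv_cancel₀ h0)
      rw [eq_inv_of_mul_eq_one_right h5] at h4
      obtain ⟨y, hy, hye⟩ := h2 _ ⟨⟨x, hP hx⟩, hx, rfl⟩ h4
      have h6 : residue C.1.toSubring (⟨x, hP hx⟩ * y) = 1 := by
        rw [map_mul, hye, ← eq_inv_of_mul_eq_one_right h5, h5]
      -- `x y - 1` is in the ideal of `C`
      let Y : P.1.toSubring := ⟨(y : L), hy⟩
      let X : P.1.toSubring := ⟨x, hx⟩
      have h7 : X * Y - 1 ∈ C.ideal P hP := by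
        change Subring.inclusion hP (X * Y - 1) ∈ maximalIdeal C.1.toSubring
        rw [← residue_eq_zero_iff]
        have e : Subring.inclusion hP (X * Y - 1) = (⟨x, hP hx⟩ * y : C.1.toSubring) - 1 :=
          Subtype.ext rfl
        rw [e, map_sub, h6, map_one, sub_self]
      have h8 : X * Y - 1 ∈ maximalIdeal P.1.toSubring :=
        le_maximalIdeal (Ideal.IsPrime.ne_top inferInstance) h7
      have h9 : IsUnit (X * Y) := by
        by_contra hu
        have h10 : X * Y ∈ maximalIdeal P.1.toSubring := (mem_maximalIdeal _).2 hu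
        have h11 : (1 : P.1.toSubring) ∈ maximalIdeal P.1.toSubring := by
          have := Ideal.sub_mem _ h10 h8
          rwa [sub_sub_cancel] at this
        exact (Ideal.ne_top_iff_one _).1 (maximalIdeal.isMaximal P.1.toSubring).ne_top h11
      exact unit_inv _ (isUnit_of_mul_isUnit_left h9)

/-- Every valuation subring of the function field of `C` which contains the constants dominates
the local ring of `C` at a point. -/
theorem PD.exists_centre_place (C : S.PD) (w : ValuationSubring C.kap)
    (hk : ∀ c : k, algebraMap k C.kap c ∈ w) (hw : w ≠ ⊤) :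
    ∃ P : S.Pt, On P C ∧ C.loc P ≤ w.toSubring ∧
      ∀ x ∈ C.loc P, x⁻¹ ∈ w → x⁻¹ ∈ C.loc P := by
  obtain ⟨P, hP, hdom⟩ := C.exists_centre (lift C w) (by
      intro c
      rw [mem_lift]
      exact ⟨C.algebraMap_mem c, hk c⟩) (by
      intro x hx
      exact ((mem_lift C w).1 hx).1) (by
      intro h
      apply hw
      rw [eq_top_iff]
      intro g _
      obtain ⟨z, rfl⟩ := residue_surjective g
      have h1 : (z : L) ∈ (lift C w).toSubring := by
        rw [h]
        exact z.2
      exact ((mem_lift C w).1 h1).2)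
  exact ⟨P, hP, (dom_iff C w P hP).1 hdom⟩

private theorem chart_le_of_dom (P : S.Pt) (R : ValuationSubring L)
    (hP : P.1 ≤ R.toLocalSubring) {l : L} (hl : l ∈ S.V) (h0 : l ≠ 0)
    (h : S.chart l ≤ R.toSubring) : S.chart l ≤ P.1.toSubring := by
  obtain ⟨l', hl', hP'⟩ := P.exists_chart
  obtain ⟨hlV', h0'⟩ := ne_zero_of_mem hl'
  have h1 : l / l' ∈ P.1.toSubring := hP' (S.div_mem_chart hl)
  have h2 : (l / l')⁻¹ ∈ R := by
    rw [inv_div]
    exact h (S.div_mem_chart hlV')
  have h3 := dom_inv P.1 R hP h1 h2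
  rw [inv_div] at h3
  exact S.chart_le_of_div h0' P.1.toSubring P.algebraMap_mem (fun x hx => P.int hx) hP' h3

/-- A valuation ring dominates at most one point. -/
theorem centre_unique (P Q : S.Pt) (R : ValuationSubring L) (hP : P.1 ≤ R.toLocalSubring)
    (hQ : Q.1 ≤ R.toLocalSubring) : P = Q := by
  have hk : ∀ c : k, algebraMap k L c ∈ R := fun c => hP.1 (P.algebraMap_mem c)
  have hex : ∃ l ∈ ({1, S.s, S.t} : Set L), S.chart l ≤ R.toSubring := by
    rcases S.exists_chart_le_val R hk with h | h | h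
    · exact ⟨1, by simp, h⟩
    · exact ⟨S.s, by simp, h⟩
    · exact ⟨S.t, by simp, h⟩
  obtain ⟨l, hl, h⟩ := hex
  obtain ⟨hlV, h0⟩ := ne_zero_of_mem hl
  obtain ⟨p, hp, hpm, eP⟩ := P.ofPrime_of_chart hlV h0 (chart_le_of_dom P R hP hlV h0 h)
  obtain ⟨q, hq, hqm, eQ⟩ := Q.ofPrime_of_chart hlV h0 (chart_le_of_dom Q R hQ hlV h0 h)
  have key : ∀ (T : S.Pt) (r : Ideal (S.chart l)) (_ : r.IsPrime),
      T.1 = LocalSubring.ofPrime (S.chart l) r → T.1 ≤ R.toLocalSubring →
      ∀ a : S.chart l, a ∉ r ↔ (a : L) ≠ 0 ∧ (a : L)⁻¹ ∈ R := by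
    intro T r hr eT hT a
    rw [notMem_iff_inv_mem, ← eT]
    constructor
    · rintro ⟨h1, h2⟩
      exact ⟨h1, hT.1 h2⟩
    · rintro ⟨h1, h2⟩
      refine ⟨h1, dom_inv T.1 R hT ?_ h2⟩
      rw [eT]
      exact LocalSubring.le_ofPrime _ _ a.2
  have e : p = q := by
    ext a
    rw [← not_iff_not, key P p hp eP hP, key Q q hq eQ hQ]
  subst e
  exact Subtype.ext (eP.trans eQ.symm)

theorem PD.centre_place_unique (C : S.PD) (w : ValuationSubring C.kap) (hw : w ≠ ⊤)
    (P Q : S.Pt) (hP : On P C) (hQ : On Q C) (h1 : C.loc P ≤ w.toSubring)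
    (h2 : ∀ x ∈ C.loc P, x⁻¹ ∈ w → x⁻¹ ∈ C.loc P) (h3 : C.loc Q ≤ w.toSubring)
    (h4 : ∀ x ∈ C.loc Q, x⁻¹ ∈ w → x⁻¹ ∈ C.loc Q) : P = Q :=
  centre_unique P Q (lift C w) ((dom_iff C w P hP).2 ⟨h1, h2⟩) ((dom_iff C w Q hQ).2 ⟨h3, h4⟩)

end Surf

end HB
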