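import Pool.Agent.HB.A.LocA

/-!
# HB-A-Val: the additive valuation of a prime divisor

Plan.  `AddValuation.of` with `ordS_mul`, `ordS_add` (`OrdA`, `OrdB`); cases `f = 0` separately.
-/

set_option autoImplicit false

open IsLocalRing

namespace HB

universe u

namespace Surf

variable {k L : Type u} [Field k] [Field L] [Algebra k L] {S : Surf k L}
  [CharZero k] [IsAlgClosed k]

omit [CharZero k] [IsAlgClosed k] in
private theorem PD.const_mem (C : S.PD) (c : k) : algebraMap k L c ∈ C.1.toSubring := by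
  obtain ⟨O, l, hl, h0, p, hp, hm, rfl⟩ := C
  exact S.algebraMap_mem_ofPrime l p c

open Classical in
/-- The order along the curve `C` as an additive valuation. -/
noncomputable def PD.v (C : S.PD) : AddValuation L (WithTop ℤ) :=
  AddValuation.of (fun f => if f = 0 then ⊤ else ((C.ord f : ℤ) : WithTop ℤ))
    (by simp)
    (by
      rw [if_neg one_ne_zero]
      unfold PD.ord
      rw [ordS_one]
      rfl)
    (by
      intro f g
      by_cases hf : f = 0
      · rw [hf, zero_add, if_pos rfl]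
        exact min_le_right _ _
      by_cases hg : g = 0
      · rw [hg, add_zero, if_pos rfl]
        exact min_le_left _ _
      by_cases h : f + g = 0
      · rw [if_pos h]
        exact le_top
      rw [if_neg hf, if_neg hg, if_neg h]
      have h1 := ordS_add C.1.toSubring hf hg h
      unfold PD.ord
      rw [← WithTop.coe_min]
      exact WithTop.coe_le_coe.2 h1)
    (by
      intro f g
      by_cases hf : f = 0
      · rw [hf, zero_mul, if_pos rfl, top_add]
      by_cases hg : g = 0
      · rw [hg, mul_zero, if_pos rfl, add_top]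
      rw [if_neg hf, if_neg hg, if_neg (mul_ne_zero hf hg)]
      unfold PD.ord
      rw [ordS_mul C.1.toSubring hf hg, WithTop.coe_add])

theorem PD.v_apply (C : S.PD) {f : L} (hf : f ≠ 0) : C.v f = ((C.ord f : ℤ) : WithTop ℤ) := by
  classical
  unfold PD.v
  rw [AddValuation.of_apply, if_neg hf]

theorem PD.mem_iff (C : S.PD) {f : L} (hf : f ≠ 0) : f ∈ C.1.toSubring ↔ 0 ≤ C.ord f :=
  mem_iff_ordS C.1.toSubring hf

theorem PD.mem_iff_v (C : S.PD) (f : L) : f ∈ C.1.toSubring ↔ 0 ≤ C.v f := by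
  by_cases hf : f = 0
  · rw [hf, AddValuation.map_zero]
    exact ⟨fun _ => le_top, fun _ => C.1.toSubring.zero_mem⟩
  · rw [C.mem_iff hf, C.v_apply hf]
    exact WithTop.coe_nonneg.symm

theorem PD.ord_algebraMap (C : S.PD) (c : k) : C.ord (algebraMap k L c) = 0 := by
  apply ordS_unit C.1.toSubring (C.const_mem c)
  rw [← map_inv₀]
  exact C.const_mem c⁻¹

theorem PD.v_algebraMap (C : S.PD) {c : k} (hc : c ≠ 0) : C.v (algebraMap k L c) = 0 := by
  rw [C.v_apply (by simpa using hc), C.ord_algebraMap]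
  rfl

theorem PD.ord_mul (C : S.PD) {f g : L} (hf : f ≠ 0) (hg : g ≠ 0) :
    C.ord (f * g) = C.ord f + C.ord g :=
  ordS_mul C.1.toSubring hf hg

theorem PD.ord_inv (C : S.PD) (f : L) : C.ord f⁻¹ = - C.ord f :=
  ordS_inv C.1.toSubring f

theorem PD.ord_div (C : S.PD) {f g : L} (hf : f ≠ 0) (hg : g ≠ 0) :
    C.ord (f / g) = C.ord f - C.ord g :=
  ordS_div C.1.toSubring hf hg

theorem PD.ord_pow (C : S.PD) (f : L) (n : ℕ) : C.ord (f ^ n) = n * C.ord f :=
  ordS_pow C.1.toSubring f n

theorem PD.ord_add (C : S.PD) {f g : L} (hf : f ≠ 0) (hg : g ≠ 0) (h : f + g ≠ 0) :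
    min (C.ord f) (C.ord g) ≤ C.ord (f + g) :=
  ordS_add C.1.toSubring hf hg h

theorem PD.exists_ord_eq (C : S.PD) (n : ℤ) : ∃ f : L, f ≠ 0 ∧ C.ord f = n :=
  exists_ordS_eq C.1.toSubring n

theorem PD.ord_unit (C : S.PD) {f : L} (h : f ∈ C.1.toSubring) (h' : f⁻¹ ∈ C.1.toSubring) :
    C.ord f = 0 :=
  ordS_unit C.1.toSubring h h'

end Surf

end HB
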